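import Pool.Agent.Helper63.WH.CoreC
import Pool.Agent.Helper63.SAND.Cond
import Pool.Agent.Helper63.SAND.Seg

/-!
The points of bounded degree of a subvariety `Y` at which the arithmetic degree is smaller than
the rate of growth of the degrees of the iterates on `Y` lie on hypersurfaces of polylogarithmic
degree.
-/

open MvPolynomial Filter Topology
open scoped LinearAlgebra.Projectivization

namespace Pool.Agent.Helper63.WH

open Pool.Agent.Helper90.KSC Pool.Agent.Helper63.SAND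

variable {E : Type*} [Field E] [CharZero E] [Algebra.IsAlgebraic ℚ E] {ι : Type*} [Fintype ι]
  [DecidableEq ι] {N : ι → ℕ}

theorem fieldLE_seg {T : Type*} [Finite T] (G : T → SIx N → MvPolynomial (SIx N) E) :
    ∃ d₀ : ℕ, 1 ≤ d₀ ∧ ∀ (D : ℕ) {Ω : Type*} (a : Ω → SIx N → E) (x : Ω) (y : PPt E N),
      a x = seg y → DegLE D y → FieldLE a G (d₀ * D) x := by
  classical
  have := Fintype.ofFinite T
  set S : Finset E := (Finset.univ : Finset (T × SIx N)).biUnion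
    fun q => (G q.1 q.2).support.image fun d => (G q.1 q.2).coeff d with hS
  set L₀ : IntermediateField ℚ E := IntermediateField.adjoin ℚ (S : Set E) with hL₀
  have hfd : FiniteDimensional ℚ L₀ := by
    apply IntermediateField.finiteDimensional_adjoin
    intro x _
    exact (Algebra.IsAlgebraic.isAlgebraic (R := ℚ) x).isIntegral
  have hG : ∀ t w d, (G t w).coeff d ∈ L₀ := by
    intro t w d
    by_cases hd : d ∈ (G t w).support
    · apply IntermediateField.subset_adjoin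
      exact Finset.mem_coe.mpr (Finset.mem_biUnion.mpr ⟨(t, w), Finset.mem_univ _,
        Finset.mem_image.mpr ⟨d, hd, rfl⟩⟩)
    · rw [notMem_support_iff.mp hd]
      exact L₀.zero_mem
  refine ⟨Module.finrank ℚ L₀, Module.finrank_pos, fun D Ω a x y hxy hy => ?_⟩
  obtain ⟨L, hL1, hL2, c, hc0, hc⟩ := overF_seg D y hy
  refine ⟨L₀ ⊔ L, IntermediateField.finiteDimensional_sup L₀ L, ?_, ?_, c, hc0, ?_⟩
  · exact (IntermediateField.finrank_sup_le L₀ L).trans (Nat.mul_le_mul le_rfl hL2)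
  · exact fun t w d => (le_sup_left : L₀ ≤ L₀ ⊔ L) (hG t w d)
  · intro w
    rw [hxy]
    exact (le_sup_right : L ≤ L₀ ⊔ L) (hc w)

theorem exceptional (X : Set (PPt E N)) (f : PPt E N → PPt E N)
    (hf : Set.MapsTo f X X) (hloc : LocallyByForms X f) (A : Matrix ι ι ℤ) (hA : ActsBy X f A)
    (Y : Set (PPt E N)) (hYX : Y ⊆ X) (hY : Irred Y) (δ : ℝ) (hδ : DegreeGrowth Y f δ) (D : ℕ) :
    ∃ C : ℕ, ∀ B : ℝ, 1 ≤ B → ∃ (k : ℕ) (Φ : MvPolynomial (SIx N) E), Φ.IsHomogeneous k ∧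
      (k : ℝ) ≤ C * (1 + Real.log B) ^ C ∧ (∃ y ∈ Y, eval (seg y) Φ ≠ 0) ∧
      ∀ y ∈ Y, DegLE D y → (∃ a < δ, AbsArithDegree f y a) → Real.exp (absTotal y) ≤ B →
        eval (seg y) Φ = 0 := by
  classical
  obtain ⟨y₀, hy₀⟩ := hY.1
  rcases le_or_gt δ 1 with hδ1 | hδ1
  · -- there are no exceptional points
    refine ⟨0, fun B hB => ⟨0, 1, isHomogeneous_one _ _, by simp, ⟨y₀, hy₀, by simp⟩, ?_⟩⟩
    rintro x hx _ ⟨a, ha, h⟩
    exact absurd (absArithDegree_ge_one f x a h) (not_le.mpr (ha.trans_le hδ1))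
  obtain ⟨r, Cs, hr1, hrδ, hCs, hbad⟩ := abs_badh X f hf A hA δ hδ1
  obtain ⟨ρ, hρ1, hρ2⟩ := exists_between hrδ
  obtain ⟨ρ', hρ3, hρ4⟩ := exists_between hρ2
  obtain ⟨e, t, G, hG1, hG2, hG3⟩ := hloc
  obtain ⟨d₀, hd₀, hfield⟩ := fieldLE_seg (N := N) G
  let F : X → X := fun x => ⟨f x, hf x.2⟩
  have hF : ∀ (n : ℕ) (x : X), ((F^[n] x : X) : PPt E N) = f^[n] x := by
    intro n
    induction n with
    | zero => intro x; rfl
    | succ n ih =>
      intro x
      rw [Function.iterate_succ_apply, Function.iterate_succ_apply, ih (F x)]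
  let a : X → SIx N → E := fun x => seg (x : PPt E N)
  let Z : Set X := {x : X | (x : PPt E N) ∈ Y}
  have hZ : Z.Nonempty := ⟨⟨y₀, hYX hy₀⟩, hy₀⟩
  have haY := primeH_seg Y hY
  have hvan : ∀ P : MvPolynomial (SIx N) E, Van (fun x : Z => a x) P ↔
      Van (fun y : Y => seg (y : PPt E N)) P := by
    intro P
    constructor
    · intro h y
      exact h ⟨⟨y, hYX y.2⟩, y.2⟩
    · intro h x
      exact h ⟨((x : X) : PPt E N), x.2⟩
  have ha : PrimeH (fun x : Z => a x) := by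
    intro P Q i j hP hQ hPQ
    rcases haY P Q i j hP hQ ((hvan _).mp hPQ) with h | h
    · exact Or.inl ((hvan _).mpr h)
    · exact Or.inr ((hvan _).mpr h)
  have : Nonempty Z := hZ.to_subtype
  obtain ⟨c₀, Θ, hΘ⟩ := cond (fun x : Z => a x) ha
  -- degrees of the iterates
  obtain ⟨n₀, hn₀⟩ := (hδ ρ' (by linarith) hρ4).exists_forall_of_atTop
  obtain ⟨C, hC⟩ := step a (fun x => seg_ne_zero _) F e G
    ⟨hG1, fun s x => hG2 s x x.2, fun x => hG3 x x.2⟩
    {x : X | DegLE D (x : PPt E N) ∧ ∃ b < δ, AbsArithDegree f (x : PPt E N) b}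
    (d₀ * (D + 1)) (Nat.mul_pos hd₀ (Nat.succ_pos D))
    (by
      rintro x ⟨hx, _⟩
      obtain ⟨L, h1, h2, h3⟩ := hfield (D + 1) a x x rfl (by
        obtain ⟨L, h1, h2, h3⟩ := hx
        exact ⟨L, h1, h2.trans (Nat.le_succ D), h3⟩)
      exact ⟨L, h1, h2, h3⟩)
    r ρ Cs hr1 hρ1 hCs
    (by
      rintro x ⟨_, b, hb, h⟩ n
      simp only [a, absHeight_seg, hF]
      exact hbad x x.2 b hb h n) (2 * (n₀ + 1 : ℝ))
  refine ⟨(c₀ + 4) ^ C + C, fun B hB => ?_⟩
  have hlog : 0 ≤ Real.log B := Real.log_nonneg hB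
  set Λ : ℕ := ⌈Real.log B⌉₊ + c₀ + 2 with hΛ
  have hΛ2 : 2 ≤ Λ := by omega
  have hΛB : Real.log B ≤ Λ := by
    have h1 := Nat.le_ceil (Real.log B)
    have h2 : ((⌈Real.log B⌉₊ : ℕ) : ℝ) ≤ Λ := by
      have : ⌈Real.log B⌉₊ ≤ Λ := by omega
      exact_mod_cast this
    linarith
  have hΛle : (Λ : ℝ) ≤ (c₀ + 4) * (1 + Real.log B) := by
    have h1 : (⌈Real.log B⌉₊ : ℝ) < Real.log B + 1 := Nat.ceil_lt_add_one hlog
    have h2 : (Λ : ℝ) = ⌈Real.log B⌉₊ + c₀ + 2 := by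
      rw [hΛ]
      push_cast
      ring
    rw [h2]
    have h3 : (0 : ℝ) ≤ c₀ := Nat.cast_nonneg _
    nlinarith
  rcases hC Λ hΛ2 Z hZ ha c₀ Θ (by omega) hΘ with ⟨n, hn1, _, d, hd, hrep⟩ |
    ⟨k, Φ, hk, hΦ1, hΦ2, hΦ3⟩
  · -- the iterates grow fast on `Y`
    exfalso
    have h1 : n₀ + 1 ≤ n := by
      have h2 : (1 / 2 : ℝ) ≤ Real.log Λ := by
        have h3 : (2 : ℝ) ≤ Λ := by exact_mod_cast hΛ2
        exact log_two_half.le.trans (Real.log_le_log (by norm_num) h3)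
      have h3 : (n₀ + 1 : ℝ) ≤ n := by
        have h4 : (0 : ℝ) ≤ n₀ + 1 := by positivity
        nlinarith
      exact_mod_cast h3
    have h2 : RepBy Y f^[n] d := by
      obtain ⟨P, hP1, ⟨w, hP2⟩, hP3⟩ := hrep
      refine ⟨P, hP1, ?_, fun x hx => ?_⟩
      · unfold Van at hP2
        push Not at hP2
        obtain ⟨x, hx⟩ := hP2
        exact ⟨x, x.2, w, hx⟩
      · obtain ⟨c, hc⟩ := hP3 ⟨⟨x, hYX hx⟩, hx⟩
        refine ⟨c, fun w => ?_⟩
        have h2 := hF n ⟨x, hYX hx⟩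
        have h3 := hc w
        simp only [a, h2] at h3
        exact h3
    have h3 : (repDegree Y f^[n] : ℝ) ≤ d := by
      have : repDegree Y f^[n] ≤ d := Nat.sInf_le h2
      exact_mod_cast this
    have h4 := hn₀ n (by omega)
    have h5 : ρ ^ n < ρ' ^ n := pow_lt_pow_left₀ hρ3 (by linarith) (by omega)
    linarith
  · refine ⟨k, Φ, hΦ1, ?_, ?_, ?_⟩
    · have h1 : (k : ℝ) ≤ (Λ : ℝ) ^ C := by exact_mod_cast hk
      have h0 : (1 : ℝ) ≤ 1 + Real.log B := by linarith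
      calc (k : ℝ) ≤ (Λ : ℝ) ^ C := h1
        _ ≤ ((c₀ + 4) * (1 + Real.log B)) ^ C := pow_le_pow_left₀ (Nat.cast_nonneg _) hΛle C
        _ = (c₀ + 4) ^ C * (1 + Real.log B) ^ C := mul_pow _ _ _
        _ ≤ (((c₀ + 4) ^ C + C : ℕ) : ℝ) * (1 + Real.log B) ^ ((c₀ + 4) ^ C + C) := by
          apply mul_le_mul _ (pow_le_pow_right₀ h0 (Nat.le_add_left _ _)) (by positivity)
            (by positivity)
          push_cast
          have : (0 : ℝ) ≤ C := Nat.cast_nonneg _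
          linarith
    · unfold Van at hΦ2
      push Not at hΦ2
      obtain ⟨x, hx⟩ := hΦ2
      exact ⟨x, x.2, hx⟩
    · intro y hy hyD hb hyB
      have h5 : absTotal y ≤ Real.log B := by
        rw [← Real.log_exp (absTotal y)]
        exact Real.log_le_log (Real.exp_pos _) hyB
      refine hΦ3 ⟨y, hYX hy⟩ hy ⟨hyD, hb⟩ ?_
      simp only [a, absHeight_seg]
      linarith

end Pool.Agent.Helper63.WH
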