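import Pool.Agent.Helper63.WH.Ext

/-!
Absolute height inequality with gains at finitely many primes.
-/

open MvPolynomial Filter Topology
open scoped LinearAlgebra.Projectivization

namespace Pool.Agent.Helper63.WH

open Pool.Agent.Helper90.KSC Pool.Agent.Helper63.SAND

private theorem ahtq_sup_pos {L F : Type*} [Field L] [NormedField F] {κ : Type*} [Finite κ]
    (τ : L →+* F) (z : κ → L) (hz : z ≠ 0) : 0 < ⨆ i, ‖τ (z i)‖ := by
  obtain ⟨i, hi⟩ := Function.ne_iff.1 hz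
  have h1 : 0 < ‖τ (z i)‖ := norm_pos_iff.2 ((map_ne_zero τ).2 hi)
  have h2 : ‖τ (z i)‖ ≤ ⨆ i, ‖τ (z i)‖ :=
    le_ciSup (f := fun i => ‖τ (z i)‖) (Set.finite_range _).bddAbove i
  exact h1.trans_le h2

private theorem ahtq_supp {L : Type*} [Field L] [NumberField L] {κ : Type*} [Finite κ]
    (z : κ → L) (hz : z ≠ 0) :
    (fun p : Nat.Primes =>
      ∑ τ : L →+* PadicAlgCl p, Real.log (⨆ i, ‖τ (z i)‖)).HasFiniteSupport := by
  refine (br_supp z hz).subset ?_
  intro p hp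
  rw [Function.mem_support] at hp
  by_contra hne
  simp only [Set.mem_ofPred_eq] at hne
  push Not at hne
  apply hp
  apply Finset.sum_eq_zero
  intro τ _
  rw [hne τ, Real.log_one]

/-- The main estimate over a number field. -/
private theorem ahtq_core {L : Type*} [Field L] [NumberField L] {κ : Type*} [Finite κ]
    {J : Type*} [Fintype J] {σ : J → Type*} [∀ j, Finite (σ j)] (z : κ → L) (hz : z ≠ 0)
    (A : ∀ j, σ j → L) (hA : ∀ j, A j ≠ 0) (c : ℝ) (hc : 1 ≤ c)
    (harch : ∀ s : L →+* ℂ, (⨆ k, ‖s (z k)‖) ≤ c * ∏ j, ⨆ i, ‖s (A j i)‖)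
    (Q : Finset Nat.Primes) (G : Nat.Primes → ℝ) (hG : ∀ p ∉ Q, G p = 0)
    (hnon : ∀ p : Nat.Primes, ∑ τ : L →+* PadicAlgCl p, Real.log (⨆ k, ‖τ (z k)‖) ≤
      G p + ∑ j, ∑ τ : L →+* PadicAlgCl p, Real.log (⨆ i, ‖τ (A j i)‖)) :
    Height.logHeight z ≤ Module.finrank ℚ L * Real.log c + ∑ p ∈ Q, G p +
      ∑ j, Height.logHeight (A j) := by
  classical
  have hJ : ∀ j, Height.logHeight (A j) = embHeight (A j) := fun j => logHeight_eq_emb _ (hA j)
  rw [logHeight_eq_emb z hz]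
  simp only [hJ]
  unfold embHeight
  have hGs : G.HasFiniteSupport := by
    refine Q.finite_toSet.subset ?_
    intro p hp
    rw [Function.mem_support] at hp
    by_contra hne
    exact hp (hG p hne)
  have hAs : ∀ j ∈ (Finset.univ : Finset J), (fun p : Nat.Primes =>
      ∑ τ : L →+* PadicAlgCl p, Real.log (⨆ i, ‖τ (A j i)‖)).HasFiniteSupport :=
    fun j _ => ahtq_supp (A j) (hA j)
  have hsumS : (fun p : Nat.Primes => ∑ j, ∑ τ : L →+* PadicAlgCl p,
      Real.log (⨆ i, ‖τ (A j i)‖)).HasFiniteSupport := by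
    refine (Set.finite_iUnion fun j => hAs j (Finset.mem_univ j)).subset ?_
    intro p hp
    rw [Function.mem_support] at hp
    by_contra hne
    apply hp
    apply Finset.sum_eq_zero
    intro j _
    by_contra h0
    exact hne (Set.mem_iUnion.2 ⟨j, h0⟩)
  have h1 : ∑ᶠ p : Nat.Primes, ∑ τ : L →+* PadicAlgCl p, Real.log (⨆ k, ‖τ (z k)‖) ≤
      ∑ p ∈ Q, G p + ∑ j, ∑ᶠ p : Nat.Primes, ∑ τ : L →+* PadicAlgCl p,
        Real.log (⨆ i, ‖τ (A j i)‖) := by
    have h2 : ∑ᶠ p : Nat.Primes, ∑ τ : L →+* PadicAlgCl p, Real.log (⨆ k, ‖τ (z k)‖) ≤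
        ∑ᶠ p : Nat.Primes, (G p + ∑ j, ∑ τ : L →+* PadicAlgCl p,
          Real.log (⨆ i, ‖τ (A j i)‖)) :=
      finsum_le_finsum' (ahtq_supp z hz) (hGs.add hsumS) hnon
    rw [finsum_add_distrib hGs hsumS] at h2
    have h3 : ∑ᶠ p, G p = ∑ p ∈ Q, G p := by
      apply finsum_eq_sum_of_support_subset
      intro p hp
      rw [Function.mem_support] at hp
      by_contra hne
      exact hp (hG p (fun h => hne h))
    rw [h3, ← sum_finsum_comm _ _ hAs] at h2
    exact h2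
  have h4 : ∑ s : L →+* ℂ, Real.log (⨆ k, ‖s (z k)‖) ≤
      Module.finrank ℚ L * Real.log c + ∑ j, ∑ s : L →+* ℂ, Real.log (⨆ i, ‖s (A j i)‖) := by
    have h5 : ∀ s ∈ (Finset.univ : Finset (L →+* ℂ)), Real.log (⨆ k, ‖s (z k)‖) ≤
        Real.log c + ∑ j, Real.log (⨆ i, ‖s (A j i)‖) := by
      intro s _
      have hpos : ∀ j ∈ (Finset.univ : Finset J), (⨆ i, ‖s (A j i)‖) ≠ 0 :=
        fun j _ => (ahtq_sup_pos s (A j) (hA j)).ne'
      have h6 := Real.log_le_log (ahtq_sup_pos s z hz) (harch s)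
      rw [Real.log_mul (by linarith : (c : ℝ) ≠ 0) (Finset.prod_ne_zero_iff.2 hpos),
        Real.log_prod hpos] at h6
      exact h6
    refine (Finset.sum_le_sum h5).trans (le_of_eq ?_)
    rw [Finset.sum_add_distrib, Finset.sum_const, Finset.card_univ,
      NumberField.Embeddings.card L ℂ, nsmul_eq_mul, Finset.sum_comm]
  rw [Finset.sum_add_distrib]
  linarith

section Abs

variable {E : Type*} [Field E] [CharZero E] [Algebra.IsAlgebraic ℚ E]

private theorem ahtq_extend (L : IntermediateField ℚ E) {F : Type*} [Field F] [IsAlgClosed F]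
    (τ : L →+* F) : ∃ τ' : E →+* F, ∀ x : L, τ' (x : E) = τ x := by
  let _ : Algebra L F := τ.toAlgebra
  have : Algebra.IsAlgebraic L E := Algebra.IsAlgebraic.tower_top (K := ℚ) L
  refine ⟨((IsAlgClosed.lift : E →ₐ[L] F) : E →+* F), fun x => ?_⟩
  exact (IsAlgClosed.lift : E →ₐ[L] F).commutes x

omit [Algebra.IsAlgebraic ℚ E] in
private theorem ahtq_abs (L : IntermediateField ℚ E) [FiniteDimensional ℚ L] [NumberField L]
    {κ : Type*} [Finite κ] (z : κ → E) (hz : z ≠ 0) (hzL : ∀ k, z k ∈ L) :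
    absHeight z = Height.logHeight (fun k => (⟨z k, hzL k⟩ : L)) / Module.finrank ℚ L := by
  have h1 : (fun k => (⟨z k, hzL k⟩ : L)) ≠ 0 := by
    intro h0
    apply hz
    funext k
    exact congrArg Subtype.val (congrFun h0 k)
  exact absHeight_eq (algebraMap L E) (fun k => (⟨z k, hzL k⟩ : L)) h1

private theorem ahtq_main (L : IntermediateField ℚ E) [FiniteDimensional ℚ L] {κ : Type*}
    [Finite κ] {J : Type*} [Fintype J]
    {σ : J → Type*} [∀ j, Finite (σ j)] (z : κ → E) (hz : z ≠ 0) (hzL : ∀ k, z k ∈ L)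
    (A : ∀ j, σ j → E) (hA : ∀ j, A j ≠ 0) (hAL : ∀ j i, A j i ∈ L) (c : ℝ) (hc : 1 ≤ c)
    (harch : ∀ s : E →+* ℂ, (⨆ k, ‖s (z k)‖) ≤ c * ∏ j, ⨆ i, ‖s (A j i)‖)
    (Q : Finset Nat.Primes) (G : Nat.Primes → ℝ) (hG : ∀ p ∉ Q, G p = 0)
    (g : ∀ p : Nat.Primes, (L →+* PadicAlgCl p) → ℝ)
    (hg : ∀ (p : Nat.Primes) (τ : L →+* PadicAlgCl p), 0 < g p τ)
    (hgG : ∀ p : Nat.Primes, (letI : NumberField L :=
        { to_charZero := inferInstance, to_finiteDimensional := inferInstance }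
      ∑ τ : L →+* PadicAlgCl p, Real.log (g p τ)) ≤ G p)
    (hnon : ∀ (p : Nat.Primes) (τ : L →+* PadicAlgCl p), ∃ τ' : E →+* PadicAlgCl p,
      (∀ x : L, τ' (x : E) = τ x) ∧
      (⨆ k, pAbs p τ' (z k)) ≤ g p τ * ∏ j, ⨆ i, pAbs p τ' (A j i)) :
    absHeight z ≤ Real.log c + (1 / (Module.finrank ℚ L : ℝ)) * ∑ p ∈ Q, G p +
      ∑ j, absHeight (A j) := by
  let _ : NumberField L :=
    { to_charZero := inferInstance, to_finiteDimensional := inferInstance }
  have hn : (0 : ℝ) < Module.finrank ℚ L := by exact_mod_cast Module.finrank_pos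
  have hz' : (fun k => (⟨z k, hzL k⟩ : L)) ≠ 0 := by
    intro h0
    apply hz
    funext k
    exact congrArg Subtype.val (congrFun h0 k)
  have hA' : ∀ j, (fun i => (⟨A j i, hAL j i⟩ : L)) ≠ 0 := by
    intro j h0
    apply hA j
    funext k
    exact congrArg Subtype.val (congrFun h0 k)
  have hcore := ahtq_core (fun k => (⟨z k, hzL k⟩ : L)) hz'
    (fun j i => (⟨A j i, hAL j i⟩ : L)) hA' c hc (fun s => by
      obtain ⟨s', hs'⟩ := ahtq_extend L s
      have h1 := harch s'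
      have h2 : ∀ (x : E) (hx : x ∈ L), s' x = s ⟨x, hx⟩ := fun x hx => hs' ⟨x, hx⟩
      simp only [h2 _ (hzL _), h2 _ (hAL _ _)] at h1
      exact h1) Q G hG (fun p => by
      have h1 : ∀ τ ∈ (Finset.univ : Finset (L →+* PadicAlgCl p)),
          Real.log (⨆ k, ‖τ ⟨z k, hzL k⟩‖) ≤
            Real.log (g p τ) + ∑ j, Real.log (⨆ i, ‖τ ⟨A j i, hAL j i⟩‖) := by
        intro τ _
        obtain ⟨τ', hτ', h2⟩ := hnon p τ
        have h3 : ∀ (x : E) (hx : x ∈ L), τ' x = τ ⟨x, hx⟩ := fun x hx => hτ' ⟨x, hx⟩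
        simp only [pAbs_apply, h3 _ (hzL _), h3 _ (hAL _ _)] at h2
        have hpos : ∀ j ∈ (Finset.univ : Finset J), (⨆ i, ‖τ ⟨A j i, hAL j i⟩‖) ≠ 0 :=
          fun j _ => (ahtq_sup_pos τ (fun i => (⟨A j i, hAL j i⟩ : L)) (hA' j)).ne'
        have h4 := Real.log_le_log (ahtq_sup_pos τ (fun k => (⟨z k, hzL k⟩ : L)) hz') h2
        rw [Real.log_mul (hg p τ).ne' (Finset.prod_ne_zero_iff.2 hpos),
          Real.log_prod hpos] at h4
        exact h4
      refine (Finset.sum_le_sum h1).trans ?_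
      rw [Finset.sum_add_distrib, Finset.sum_comm]
      exact add_le_add_left (hgG p) _)
  rw [ahtq_abs L z hz hzL]
  have hsum : ∑ j, absHeight (A j) =
      (∑ j, Height.logHeight (fun i => (⟨A j i, hAL j i⟩ : L))) / Module.finrank ℚ L := by
    rw [Finset.sum_div]
    exact Finset.sum_congr rfl fun j _ => ahtq_abs L (A j) (hA j) (hAL j)
  rw [hsum, div_le_iff₀ hn]
  refine hcore.trans (le_of_eq ?_)
  field_simp

theorem abs_htq {κ : Type*} [Finite κ] {J : Type*} [Fintype J] {σ : J → Type*}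
    [∀ j, Finite (σ j)] (z : κ → E) (hz : z ≠ 0) (A : ∀ j, σ j → E) (hA : ∀ j, A j ≠ 0)
    (c : ℝ) (hc : 1 ≤ c)
    (harch : ∀ s : E →+* ℂ, (⨆ k, ‖s (z k)‖) ≤ c * ∏ j, ⨆ i, ‖s (A j i)‖)
    (hnon : ∀ (p : Nat.Primes) (τ : E →+* PadicAlgCl p),
      (⨆ k, pAbs p τ (z k)) ≤ ∏ j, ⨆ i, pAbs p τ (A j i))
    (Q : Finset Nat.Primes) (γ : Nat.Primes → ℝ) (hγ : ∀ p ∈ Q, 0 < γ p)
    (hQ : ∀ p ∈ Q, ∀ τ : E →+* PadicAlgCl p,
      (⨆ k, pAbs p τ (z k)) ≤ γ p * ∏ j, ⨆ i, pAbs p τ (A j i)) :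
    absHeight z ≤ Real.log c + ∑ p ∈ Q, Real.log (γ p) + ∑ j, absHeight (A j) := by
  classical
  set S : Set E := Set.range z ∪ ⋃ j, Set.range (A j) with hS
  have hSfin : S.Finite :=
    (Set.finite_range z).union (Set.finite_iUnion fun j => Set.finite_range (A j))
  have : Finite S := hSfin
  set L : IntermediateField ℚ E := IntermediateField.adjoin ℚ S with hL
  have hfd : FiniteDimensional ℚ L :=
    IntermediateField.finiteDimensional_adjoin fun x _ => Algebra.IsIntegral.isIntegral x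
  have hzL : ∀ k, z k ∈ L := fun k =>
    IntermediateField.subset_adjoin ℚ S (Or.inl ⟨k, rfl⟩)
  have hAL : ∀ j i, A j i ∈ L := fun j i =>
    IntermediateField.subset_adjoin ℚ S (Or.inr (Set.mem_iUnion.2 ⟨j, i, rfl⟩))
  have hn : (0 : ℝ) < Module.finrank ℚ L := by exact_mod_cast Module.finrank_pos
  have h := ahtq_main L z hz hzL A hA hAL c hc harch Q
    (fun p => if p ∈ Q then (Module.finrank ℚ L : ℝ) * Real.log (γ p) else 0)
    (fun p hp => if_neg hp) (fun p _ => if p ∈ Q then γ p else 1)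
    (fun p _ => by
      split_ifs with hp
      · exact hγ p hp
      · exact one_pos)
    (fun p => by
      let _ : NumberField L :=
        { to_charZero := inferInstance, to_finiteDimensional := inferInstance }
      rw [Finset.sum_const, Finset.card_univ,
        NumberField.Embeddings.card L (PadicAlgCl p), nsmul_eq_mul]
      split_ifs with hp
      · exact le_rfl
      · rw [Real.log_one, mul_zero])
    (fun p τ => by
      obtain ⟨τ', hτ'⟩ := ahtq_extend L τ
      refine ⟨τ', hτ', ?_⟩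
      split_ifs with hp
      · exact hQ p hp τ'
      · rw [one_mul]
        exact hnon p τ')
  refine h.trans (le_of_eq ?_)
  congr 2
  rw [Finset.mul_sum]
  apply Finset.sum_congr rfl
  intro p hp
  rw [if_pos hp]
  field_simp

theorem abs_htq_some (L : IntermediateField ℚ E) [FiniteDimensional ℚ L] (D : ℕ)
    (hD : Module.finrank ℚ L ≤ D) {κ : Type*} [Finite κ] {J : Type*} [Fintype J]
    {σ : J → Type*} [∀ j, Finite (σ j)] (z : κ → E) (hz : z ≠ 0) (hzL : ∀ k, z k ∈ L)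
    (A : ∀ j, σ j → E) (hA : ∀ j, A j ≠ 0) (hAL : ∀ j i, A j i ∈ L) (c : ℝ) (hc : 1 ≤ c)
    (harch : ∀ s : E →+* ℂ, (⨆ k, ‖s (z k)‖) ≤ c * ∏ j, ⨆ i, ‖s (A j i)‖)
    (hnon : ∀ (p : Nat.Primes) (τ : E →+* PadicAlgCl p),
      (⨆ k, pAbs p τ (z k)) ≤ ∏ j, ⨆ i, pAbs p τ (A j i))
    (Q : Finset Nat.Primes) (γ : Nat.Primes → ℝ) (hγ : ∀ p ∈ Q, 0 < γ p ∧ γ p ≤ 1)
    (hQ : ∀ p ∈ Q, ∃ τ : E →+* PadicAlgCl p,
      (⨆ k, pAbs p τ (z k)) ≤ γ p * ∏ j, ⨆ i, pAbs p τ (A j i)) :
    absHeight z ≤ Real.log c + (1 / D) * ∑ p ∈ Q, Real.log (γ p) + ∑ j, absHeight (A j) := by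
  classical
  have hn : (0 : ℝ) < Module.finrank ℚ L := by exact_mod_cast Module.finrank_pos
  choose! T hT using hQ
  have h := ahtq_main L z hz hzL A hA hAL c hc harch Q
    (fun p => if p ∈ Q then Real.log (γ p) else 0)
    (fun p hp => if_neg hp)
    (fun p τ => if p ∈ Q ∧ τ = (T p).comp (algebraMap L E) then γ p else 1)
    (fun p τ => by
      split_ifs with hp
      · exact (hγ p hp.1).1
      · exact one_pos)
    (fun p => by
      let _ : NumberField L :=
        { to_charZero := inferInstance, to_finiteDimensional := inferInstance }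
      by_cases hp : p ∈ Q
      · have h1 : ∀ τ : L →+* PadicAlgCl p,
            Real.log (if p ∈ Q ∧ τ = (T p).comp (algebraMap L E) then γ p else 1) =
              if τ = (T p).comp (algebraMap L E) then Real.log (γ p) else 0 := by
          intro τ
          by_cases h2 : τ = (T p).comp (algebraMap L E)
          · rw [if_pos ⟨hp, h2⟩, if_pos h2]
          · rw [if_neg (fun h3 => h2 h3.2), if_neg h2, Real.log_one]
        simp only [h1]
        rw [Finset.sum_ite_eq' Finset.univ ((T p).comp (algebraMap L E))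
          (fun _ => Real.log (γ p)), if_pos (Finset.mem_univ _), if_pos hp]
      · have h1 : ∀ τ : L →+* PadicAlgCl p,
            Real.log (if p ∈ Q ∧ τ = (T p).comp (algebraMap L E) then γ p else 1) = 0 := by
          intro τ
          rw [if_neg (fun h3 => hp h3.1), Real.log_one]
        simp only [h1]
        rw [Finset.sum_const_zero, if_neg hp])
    (fun p τ => by
      by_cases hp : p ∈ Q ∧ τ = (T p).comp (algebraMap L E)
      · refine ⟨T p, fun x => ?_, ?_⟩
        · rw [hp.2]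
          rfl
        · rw [if_pos hp]
          exact hT p hp.1
      · obtain ⟨τ', hτ'⟩ := ahtq_extend L τ
        refine ⟨τ', hτ', ?_⟩
        rw [if_neg hp, one_mul]
        exact hnon p τ')
  refine h.trans ?_
  have h1 : ∑ p ∈ Q, (if p ∈ Q then Real.log (γ p) else 0) = ∑ p ∈ Q, Real.log (γ p) :=
    Finset.sum_congr rfl fun p hp => if_pos hp
  rw [h1]
  have h2 : ∑ p ∈ Q, Real.log (γ p) ≤ 0 :=
    Finset.sum_nonpos fun p hp => Real.log_nonpos (hγ p hp).1.le (hγ p hp).2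
  have h3 : (1 : ℝ) / D ≤ 1 / Module.finrank ℚ L :=
    one_div_le_one_div_of_le hn (by exact_mod_cast hD)
  have h4 := mul_le_mul_of_nonpos_right h3 h2
  linarith

end Abs

end Pool.Agent.Helper63.WH
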