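import Pool.Agent.Helper63.WH.Aapi
import Pool.Agent.Helper63.WH.Ahtq

/-!
Absolute heights and global sections.
-/

open MvPolynomial Filter Topology
open scoped LinearAlgebra.Projectivization

namespace Pool.Agent.Helper63.WH

open Pool.Agent.Helper90.KSC Pool.Agent.Helper63.SAND

universe u

section Abs

variable {E : Type*} [Field E] [CharZero E] [Algebra.IsAlgebraic ℚ E]

private lemma abnd_sum_le {α : Type*} [Fintype α] (f : α → ℝ) (g : α → ℝ) (hf : ∀ i, 0 ≤ f i)
    (hg : ∀ i, 0 ≤ g i) (i : α) : f i * g i ≤ (⨆ i, f i) * ⨆ i, g i := by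
  have h1 : f i ≤ ⨆ i, f i := Finite.le_ciSup_of_le i le_rfl
  have h2 : g i ≤ ⨆ i, g i := Finite.le_ciSup_of_le i le_rfl
  exact mul_le_mul h1 h2 (hg i) ((hf i).trans h1)

/-- A subvector has smaller height. -/
private lemma abnd_sub {α β : Type*} [Finite α] [Finite β] (g : β → α) (x : α → E)
    (hx : (fun j => x (g j)) ≠ 0) : absHeight (fun j => x (g j)) ≤ absHeight x := by
  have hx0 : x ≠ 0 := by
    rintro rfl
    exact hx rfl
  have h := abs_htq (E := E) (κ := β) (J := Unit) (σ := fun _ => α) (fun j => x (g j)) hx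
    (fun _ => x) (fun _ => hx0) 1 le_rfl
    (fun s => by
      rw [one_mul]
      simp only [Finset.univ_unique, Finset.prod_const, Finset.card_singleton, pow_one]
      exact Real.iSup_le (fun j => Finite.le_ciSup_of_le (g j) le_rfl)
        (Real.iSup_nonneg fun i => norm_nonneg _))
    (fun p τ => by
      simp only [Finset.univ_unique, Finset.prod_const, Finset.card_singleton, pow_one]
      exact Real.iSup_le (fun j => Finite.le_ciSup_of_le (f := fun i => pAbs p τ (x i)) (g j)
        le_rfl) (Real.iSup_nonneg fun i => (pAbs p τ).nonneg _))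
    ∅ (fun _ => 1) (by simp) (by simp)
  simpa using h

/-- The index types of the factors in the linear bound. -/
private def abndT (α β : Type u) : Bool → Type u
  | true => β × α
  | false => α

private lemma abnd_lin {α β : Type u} [Fintype α] [Finite β] (L : β → α → E) :
    ∃ C : ℝ, ∀ (x : α → E) (y : β → E), y ≠ 0 → (∀ j, y j = ∑ i, L j i * x i) →
      absHeight y ≤ C + absHeight x := by
  classical
  refine ⟨Real.log (max 1 (Fintype.card α)) + absHeight (fun q : β × α => L q.1 q.2),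
    fun x y hy h => ?_⟩
  have hx0 : x ≠ 0 := by
    rintro rfl
    apply hy
    funext j
    rw [h j]
    simp
  have hL0 : (fun q : β × α => L q.1 q.2) ≠ 0 := by
    intro hL
    apply hy
    funext j
    rw [h j]
    apply Finset.sum_eq_zero
    intro i _
    rw [show L j i = 0 from congrFun hL (j, i), zero_mul]
  have hne : (Finset.univ : Finset α).Nonempty := by
    by_contra hcon
    rw [Finset.not_nonempty_iff_eq_empty] at hcon
    apply hy
    funext j
    rw [h j, hcon]
    simp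
  have : ∀ b, Finite (abndT α β b) := fun b => by
    cases b
    · exact (inferInstance : Finite α)
    · exact (inferInstance : Finite (β × α))
  let A : ∀ b, abndT α β b → E := fun b => match b with
    | true => fun q : β × α => L q.1 q.2
    | false => x
  have hA : ∀ b, A b ≠ 0 := fun b => by
    cases b
    · exact hx0
    · exact hL0
  have key := abs_htq (E := E) (κ := β) (J := Bool) (σ := abndT α β) y hy A hA
    (max 1 (Fintype.card α)) (le_max_left _ _)
    (fun s => by
      rw [Fintype.prod_bool]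
      change (⨆ k, ‖s (y k)‖) ≤ max 1 (Fintype.card α : ℝ) *
        ((⨆ q : β × α, ‖s (L q.1 q.2)‖) * (⨆ i, ‖s (x i)‖))
      have hSL : 0 ≤ ⨆ q : β × α, ‖s (L q.1 q.2)‖ := Real.iSup_nonneg fun i => norm_nonneg _
      have hSx : 0 ≤ ⨆ i, ‖s (x i)‖ := Real.iSup_nonneg fun i => norm_nonneg _
      refine Real.iSup_le (fun j => ?_) (by positivity)
      rw [h j, map_sum]
      calc ‖∑ i, s (L j i * x i)‖ ≤ ∑ i, ‖s (L j i * x i)‖ := norm_sum_le _ _
        _ ≤ ∑ _i : α, ((⨆ q : β × α, ‖s (L q.1 q.2)‖) * (⨆ i, ‖s (x i)‖)) := by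
            refine Finset.sum_le_sum fun i _ => ?_
            rw [map_mul, norm_mul]
            exact mul_le_mul
              (Finite.le_ciSup_of_le (f := fun q : β × α => ‖s (L q.1 q.2)‖) (j, i) le_rfl)
              (Finite.le_ciSup_of_le (f := fun i => ‖s (x i)‖) i le_rfl) (norm_nonneg _) hSL
        _ = (Fintype.card α : ℝ) * ((⨆ q : β × α, ‖s (L q.1 q.2)‖) * (⨆ i, ‖s (x i)‖)) := by
            rw [Finset.sum_const, Finset.card_univ, nsmul_eq_mul]
        _ ≤ _ := mul_le_mul_of_nonneg_right (le_max_right _ _) (mul_nonneg hSL hSx))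
    (fun p τ => by
      rw [Fintype.prod_bool]
      change (⨆ k, pAbs p τ (y k)) ≤
        (⨆ q : β × α, pAbs p τ (L q.1 q.2)) * (⨆ i, pAbs p τ (x i))
      have hSL : 0 ≤ ⨆ q : β × α, pAbs p τ (L q.1 q.2) :=
        Real.iSup_nonneg fun i => (pAbs p τ).nonneg _
      have hSx : 0 ≤ ⨆ i, pAbs p τ (x i) := Real.iSup_nonneg fun i => (pAbs p τ).nonneg _
      refine Real.iSup_le (fun j => ?_) (by positivity)
      rw [h j]
      obtain ⟨i, -, hi⟩ := (pAbs_nonarch p τ).finset_image_add_of_nonempty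
        (fun i => L j i * x i) hne
      refine hi.trans ?_
      rw [map_mul]
      exact mul_le_mul
        (Finite.le_ciSup_of_le (f := fun q : β × α => pAbs p τ (L q.1 q.2)) (j, i) le_rfl)
        (Finite.le_ciSup_of_le (f := fun i => pAbs p τ (x i)) i le_rfl)
        ((pAbs p τ).nonneg _) hSL)
    ∅ (fun _ => 1) (by simp) (by simp)
  rw [Fintype.sum_bool] at key
  change absHeight y ≤ Real.log (max 1 (Fintype.card α : ℝ)) + ∑ p ∈ ∅, Real.log 1 +
    (absHeight (fun q : β × α => L q.1 q.2) + absHeight x) at key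
  rw [Finset.sum_empty, add_zero] at key
  linarith

end Abs

section Points

variable {E : Type*} [Field E] [CharZero E] [Algebra.IsAlgebraic ℚ E] {ι : Type*} [Fintype ι]
  {N : ι → ℕ}

theorem absHeight_seg (x : PPt E N) : absHeight (seg x) = absTotal x :=
  absHeight_prod (fun i => (x i).rep) fun i => (x i).rep_nonzero

omit [Algebra.IsAlgebraic ℚ E] in
theorem overF_seg (D : ℕ) (x : PPt E N) (hx : DegLE D x) :
    ∃ L : IntermediateField ℚ E, FiniteDimensional ℚ L ∧ Module.finrank ℚ L ≤ D ∧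
      OverF L (seg x) := by
  obtain ⟨L, hL, hD, hc⟩ := hx
  choose c hc0 hc using hc
  refine ⟨L, hL, hD, ∏ i, c i, Finset.prod_ne_zero_iff.mpr fun i _ => hc0 i, fun w => ?_⟩
  unfold seg
  rw [← Finset.prod_mul_distrib]
  exact prod_mem fun i _ => hc i (w i)

omit [CharZero E] [Algebra.IsAlgebraic ℚ E] in
private theorem abnd_mono_ne_zero (b : ι → ℕ) (x : PPt E N) : mono b x ≠ 0 := by
  have h : ∀ t : (Σ i, Fin (b i)), ∃ j, (x t.1).rep j ≠ 0 := by
    intro t
    exact Function.ne_iff.mp (x t.1).rep_nonzero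
  choose w hw using h
  refine Function.ne_iff.mpr ⟨w, ?_⟩
  unfold mono
  exact Finset.prod_ne_zero_iff.mpr fun t _ => hw t

private theorem abnd_mono (b : ι → ℕ) (x : PPt E N) :
    absHeight (mono b x) = ∑ i, (b i : ℝ) * absHeight (x i).rep := by
  have h := absHeight_prod (E := E) (α := Σ i, Fin (b i))
    (σ := fun t => Fin (N t.1 + 1)) (fun t => (x t.1).rep) (fun t => (x t.1).rep_nonzero)
  have e : mono b x = (fun I : (t : (Σ i, Fin (b i))) → Fin (N t.1 + 1) =>
      ∏ t, (x t.1).rep (I t)) := rfl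
  rw [e, h, Fintype.sum_sigma]
  apply Finset.sum_congr rfl
  intro i _
  have h2 : ∀ y ∈ (Finset.univ : Finset (Fin (b i))),
      absHeight (x (Sigma.mk (β := fun i => Fin (b i)) i y).1).rep = absHeight (x i).rep :=
    fun y _ => rfl
  refine (Finset.sum_congr rfl h2).trans ?_
  rw [Finset.sum_const, Finset.card_univ, Fintype.card_fin, nsmul_eq_mul]

private theorem abnd_gen [DecidableEq ι] {Y : Set (PPt E N)} {c : ι → ℤ} (h : Generated Y c) :
    ∃ C : ℝ, ∀ x ∈ Y, -C ≤ ∑ i, (c i : ℝ) * absHeight (x i).rep := by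
  obtain ⟨b, d, hbd, t, L, hL⟩ := h
  obtain ⟨C, hC⟩ := abnd_lin (E := E) L
  refine ⟨C, fun x hx => ?_⟩
  obtain ⟨z, hz, h1⟩ := hL x hx
  obtain ⟨p0, hp0⟩ := Function.ne_iff.mp hz
  have hp0' : z p0 ≠ 0 := hp0
  have hsub : (fun w : Mono N d => (fun p : Fin t × Mono N d => z p.1 * mono d x p.2) (p0, w)) ≠
      0 := by
    intro h0
    apply abnd_mono_ne_zero d x
    funext w
    have h2 : z p0 * mono d x w = 0 := congrFun h0 w
    exact (mul_eq_zero.mp h2).resolve_left hp0'
  have hprod : (fun p : Fin t × Mono N d => z p.1 * mono d x p.2) ≠ 0 := by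
    intro h0
    apply hsub
    funext w
    exact congrFun h0 (p0, w)
  have e1 := hC (mono b x) (fun p => z p.1 * mono d x p.2) hprod h1
  have e2 := abnd_sub (E := E) (fun w : Mono N d => ((p0, w) : Fin t × Mono N d))
    (fun p => z p.1 * mono d x p.2) hsub
  have e3 : absHeight (fun w : Mono N d => z p0 * mono d x w) = absHeight (mono d x) :=
    absHeight_smul (z p0) hp0' (mono d x)
  have e4 : absHeight (mono d x) ≤ absHeight
      (fun p : Fin t × Mono N d => z p.1 * mono d x p.2) := by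
    rw [← e3]
    exact e2
  rw [abnd_mono] at e1 e4
  have e5 : ∑ i, (b i : ℝ) * absHeight (x i).rep =
      ∑ i, (c i : ℝ) * absHeight (x i).rep + ∑ i, (d i : ℝ) * absHeight (x i).rep := by
    rw [← Finset.sum_add_distrib]
    apply Finset.sum_congr rfl
    intro i _
    have h3 : (b i : ℝ) = c i + d i := by exact_mod_cast hbd i
    rw [h3, add_mul]
  linarith

private theorem abnd_genm [DecidableEq ι] {Y : Set (PPt E N)} {c : ι → ℤ} {m k : ℕ} (hm : 1 ≤ m) (hk : 1 ≤ k)
    (h : Generated Y fun i => (k : ℤ) * (m * c i + 1)) :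
    ∃ C : ℝ, ∀ x ∈ Y, -(absTotal x / m) - C ≤ ∑ i, (c i : ℝ) * absHeight (x i).rep := by
  obtain ⟨C, hC⟩ := abnd_gen h
  have hk0 : (0 : ℝ) < k := by exact_mod_cast hk
  have hm0 : (0 : ℝ) < m := by exact_mod_cast hm
  refine ⟨C / (k * m), fun x hx => ?_⟩
  have h1 := hC x hx
  have e : ∑ i, (((k : ℤ) * (m * c i + 1) : ℤ) : ℝ) * absHeight (x i).rep =
      k * m * ∑ i, (c i : ℝ) * absHeight (x i).rep + k * absTotal x := by
    unfold absTotal
    rw [Finset.mul_sum, Finset.mul_sum, ← Finset.sum_add_distrib]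
    apply Finset.sum_congr rfl
    intro i _
    push_cast
    ring
  rw [e] at h1
  have h2 : -(absTotal x / m) - C / (k * m) = (-(k * absTotal x) - C) / (k * m) := by
    field_simp
  rw [h2, div_le_iff₀ (by positivity)]
  linarith

private theorem abnd_total (x : PPt E N) : 0 ≤ absTotal x :=
  Finset.sum_nonneg fun i _ => absHeight_nonneg (x i).rep

private theorem abnd_nef [DecidableEq ι] {Y : Set (PPt E N)} {c : ι → ℤ} (h : Nef Y c) {ε : ℝ} (hε : 0 < ε) :
    ∃ C : ℝ, ∀ x ∈ Y, -(ε * absTotal x) - C ≤ ∑ i, (c i : ℝ) * absHeight (x i).rep := by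
  obtain ⟨m, hm⟩ := exists_nat_gt (1 / ε)
  have hm0 : (0 : ℝ) < m := (by positivity : (0 : ℝ) < 1 / ε).trans hm
  have hm1 : 1 ≤ m := by exact_mod_cast hm0
  obtain ⟨k, hk, hg⟩ := h m hm1
  obtain ⟨C, hC⟩ := abnd_genm hm1 hk hg
  refine ⟨C, fun x hx => ?_⟩
  have h1 := hC x hx
  have h2 : 0 ≤ absTotal x := abnd_total x
  have h3 : absTotal x / m ≤ ε * absTotal x := by
    rw [div_le_iff₀ hm0]
    rw [div_lt_iff₀ hε] at hm
    nlinarith
  linarith

private theorem abnd_raw [DecidableEq ι] {X : Set (PPt E N)} {f : PPt E N → PPt E N}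
    {A : Matrix ι ι ℤ} (h : ActsBy X f A) (i : ι) {ε : ℝ} (hε : 0 < ε) :
    ∃ C : ℝ, ∀ x ∈ X, |absHeight (f x i).rep -
      ∑ j, (A i j : ℝ) * absHeight (x j).rep| ≤ ε * (absTotal x + absTotal (f x)) + C := by
  obtain ⟨h1, h2⟩ := h i
  obtain ⟨C₁, hC₁⟩ := abnd_nef h1 hε
  obtain ⟨C₂, hC₂⟩ := abnd_nef h2 hε
  refine ⟨max C₁ C₂, fun x hx => ?_⟩
  have hmem : pair x (f x) ∈ graph X f := ⟨x, hx, rfl⟩
  have e1 := hC₁ _ hmem
  have e2 := hC₂ _ hmem
  have hT : absTotal (pair x (f x)) = absTotal x + absTotal (f x) := by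
    unfold absTotal
    rw [Fintype.sum_sum_type]
    rfl
  have hs : ∑ s : ι ⊕ ι, ((Sum.elim (fun j => -A i j) (Pi.single i 1) s : ℤ) : ℝ) *
      absHeight (pair x (f x) s).rep = absHeight (f x i).rep -
        ∑ j, (A i j : ℝ) * absHeight (x j).rep := by
    rw [Fintype.sum_sum_type]
    have h3 : ∑ j : ι, ((Sum.elim (fun j => -A i j) (Pi.single i 1) (Sum.inl j) : ℤ) : ℝ) *
        absHeight (pair x (f x) (Sum.inl j)).rep =
        -∑ j, (A i j : ℝ) * absHeight (x j).rep := by
      rw [← Finset.sum_neg_distrib]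
      apply Finset.sum_congr rfl
      intro j _
      simp only [Sum.elim_inl, Int.cast_neg, neg_mul]
      rfl
    have h4 : ∑ j : ι, ((Sum.elim (fun j => -A i j) (Pi.single i 1) (Sum.inr j) : ℤ) : ℝ) *
        absHeight (pair x (f x) (Sum.inr j)).rep = absHeight (f x i).rep := by
      rw [Finset.sum_eq_single i]
      · simp only [Sum.elim_inr, Pi.single_eq_same, Int.cast_one, one_mul]
        rfl
      · intro j _ hj
        simp [Pi.single_eq_of_ne hj]
      · intro hi
        exact absurd (Finset.mem_univ i) hi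
    rw [h3, h4]
    ring
  have hs2 : ∑ s : ι ⊕ ι, (((-Sum.elim (fun j => -A i j) (Pi.single i 1)) s : ℤ) : ℝ) *
      absHeight (pair x (f x) s).rep = -(absHeight (f x i).rep -
        ∑ j, (A i j : ℝ) * absHeight (x j).rep) := by
    rw [← hs, ← Finset.sum_neg_distrib]
    apply Finset.sum_congr rfl
    intro s _
    simp only [Pi.neg_apply, Int.cast_neg, neg_mul]
  rw [hT, hs] at e1
  rw [hT, hs2] at e2
  have m1 := le_max_left C₁ C₂
  have m2 := le_max_right C₁ C₂
  rw [abs_le]
  constructor <;> linarith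

theorem abs_bound [DecidableEq ι] {X : Set (PPt E N)} {f : PPt E N → PPt E N}
    {A : Matrix ι ι ℤ} (h : ActsBy X f A) {ε : ℝ} (hε : 0 < ε) :
    ∃ C : ℝ, ∀ x ∈ X, ∀ i, |absHeight (f x i).rep -
      ∑ j, (A i j : ℝ) * absHeight (x j).rep| ≤ ε * absTotal x + C := by
  have hT0 : ∀ x : PPt E N, 0 ≤ absTotal x := abnd_total
  -- a first bound for the height of the image
  set r : ℝ := (Fintype.card ι : ℝ) with hr
  have hr0 : 0 ≤ r := by rw [hr]; positivity
  set L : ℝ := ∑ i, ∑ j, |(A i j : ℝ)| with hL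
  have hL0 : 0 ≤ L := Finset.sum_nonneg fun i _ => Finset.sum_nonneg fun j _ => abs_nonneg _
  have step : ∀ ε > 0, ∃ C : ℝ, 0 ≤ C ∧ ∀ x ∈ X, ∀ i, |absHeight (f x i).rep -
      ∑ j, (A i j : ℝ) * absHeight (x j).rep| ≤ ε * (absTotal x + absTotal (f x)) + C := by
    intro ε hε
    choose C hC using fun i => abnd_raw h i hε
    refine ⟨∑ i, |C i|, Finset.sum_nonneg fun i _ => abs_nonneg _, fun x hx i => ?_⟩
    have h1 : C i ≤ ∑ i, |C i| := (le_abs_self _).trans
      (Finset.single_le_sum (f := fun i => |C i|) (fun i _ => abs_nonneg _) (Finset.mem_univ i))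
    linarith [hC i x hx]
  have himg : ∃ D₁ D₂ : ℝ, 0 ≤ D₁ ∧ 0 ≤ D₂ ∧ ∀ x ∈ X, absTotal (f x) ≤
      D₁ * absTotal x + D₂ := by
    obtain ⟨C, hC0, hC⟩ := step (1 / (2 * (r + 1))) (by positivity)
    refine ⟨2 * L + 1, 2 * (r * C), by positivity, by positivity, fun x hx => ?_⟩
    have h1 : ∀ i, absHeight (f x i).rep ≤
        (∑ j, |(A i j : ℝ)|) * absTotal x +
          (1 / (2 * (r + 1)) * (absTotal x + absTotal (f x)) + C) := by
      intro i
      have h2 := (abs_le.mp (hC x hx i)).2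
      have h3 : ∑ j, (A i j : ℝ) * absHeight (x j).rep ≤ (∑ j, |(A i j : ℝ)|) * absTotal x := by
        rw [Finset.sum_mul]
        apply Finset.sum_le_sum
        intro j _
        have h4 : absHeight (x j).rep ≤ absTotal x :=
          Finset.single_le_sum (f := fun i => absHeight (x i).rep)
            (fun i _ => absHeight_nonneg _) (Finset.mem_univ j)
        calc (A i j : ℝ) * absHeight (x j).rep ≤ |(A i j : ℝ)| * absHeight (x j).rep :=
              mul_le_mul_of_nonneg_right (le_abs_self _) (absHeight_nonneg _)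
          _ ≤ |(A i j : ℝ)| * absTotal x := mul_le_mul_of_nonneg_left h4 (abs_nonneg _)
      linarith
    have h5 : absTotal (f x) ≤ L * absTotal x +
        r * (1 / (2 * (r + 1)) * (absTotal x + absTotal (f x)) + C) := by
      calc absTotal (f x) ≤ ∑ i, ((∑ j, |(A i j : ℝ)|) * absTotal x +
          (1 / (2 * (r + 1)) * (absTotal x + absTotal (f x)) + C)) :=
            Finset.sum_le_sum fun i _ => h1 i
        _ = _ := by
          rw [Finset.sum_add_distrib, ← Finset.sum_mul, Finset.sum_const, Finset.card_univ,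
            nsmul_eq_mul]
    have h6 : r * (1 / (2 * (r + 1))) ≤ 1 / 2 := by
      rw [mul_one_div, div_le_div_iff₀ (by positivity) (by norm_num)]
      linarith
    have h7 : r * (1 / (2 * (r + 1)) * (absTotal x + absTotal (f x)) + C) ≤
        1 / 2 * (absTotal x + absTotal (f x)) + r * C := by
      have h8 := mul_le_mul_of_nonneg_right h6 (add_nonneg (hT0 x) (hT0 (f x)))
      linarith
    linarith
  obtain ⟨D₁, D₂, hD₁, hD₂, hD⟩ := himg
  obtain ⟨C, hC0, hC⟩ := step (ε / (D₁ + 1)) (by positivity)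
  refine ⟨ε / (D₁ + 1) * D₂ + C, fun x hx i => (hC x hx i).trans ?_⟩
  have h1 := hD x hx
  have h2 : ε / (D₁ + 1) * (absTotal x + absTotal (f x)) ≤
      ε / (D₁ + 1) * (absTotal x + (D₁ * absTotal x + D₂)) := by
    apply mul_le_mul_of_nonneg_left _ (by positivity)
    linarith
  have h3 : ε / (D₁ + 1) * (absTotal x + (D₁ * absTotal x + D₂)) =
      ε * absTotal x + ε / (D₁ + 1) * D₂ := by
    field_simp
    ring
  linarith

end Points

end Pool.Agent.Helper63.WH
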