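import Pool.Agent.Helper63.WH.Ext

/-!
Absolute heights: basic properties.
-/

open MvPolynomial Filter Topology
open scoped LinearAlgebra.Projectivization

namespace Pool.Agent.Helper63.WH

open Pool.Agent.Helper90.KSC Pool.Agent.Helper63.SAND

section Abs

variable {E : Type*} [Field E] [CharZero E] [Algebra.IsAlgebraic ℚ E]

theorem absHeight_nonneg {κ : Type*} [Finite κ] (z : κ → E) : 0 ≤ absHeight z := by
  unfold absHeight
  split_ifs with h
  · haveI : NumberField (fld z) := { to_charZero := inferInstance, to_finiteDimensional := h }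
    exact div_nonneg (Height.logHeight_nonneg _) (Nat.cast_nonneg _)
  · exact le_rfl

/-- A number field which contains a finite set. -/
theorem aapi_field (S : Set E) (hS : S.Finite) : ∃ L : IntermediateField ℚ E,
    FiniteDimensional ℚ L ∧ S ⊆ L := by
  refine ⟨IntermediateField.adjoin ℚ S, ?_, IntermediateField.subset_adjoin ℚ S⟩
  haveI := hS.to_subtype
  exact IntermediateField.finiteDimensional_adjoin
    fun x _ => Algebra.IsIntegral.isIntegral (R := ℚ) x

/-- The absolute height of a vector with coordinates in a number field. -/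
theorem aapi_eq (L : IntermediateField ℚ E) [NumberField L] {κ : Type*} [Finite κ]
    (z : κ → L) (hz : z ≠ 0) :
    absHeight (fun i => (z i : E)) = Height.logHeight z / Module.finrank ℚ L :=
  absHeight_eq (L.val : L →+* E) z hz

theorem absHeight_smul {κ : Type*} [Finite κ] (c : E) (hc : c ≠ 0) (z : κ → E) :
    absHeight (c • z) = absHeight z := by
  by_cases hz : z = 0
  · rw [hz, smul_zero]
  obtain ⟨L, hL, hS⟩ := aapi_field (insert c (Set.range z)) ((Set.finite_range z).insert c)
  haveI : NumberField L := { to_charZero := inferInstance, to_finiteDimensional := hL }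
  set c' : L := ⟨c, hS (Set.mem_insert _ _)⟩ with hc'
  set z' : κ → L := fun i => ⟨z i, hS (Set.mem_insert_of_mem _ ⟨i, rfl⟩)⟩ with hz'
  have h1 : z' ≠ 0 := by
    intro h
    apply hz
    funext i
    exact congrArg Subtype.val (congrFun h i)
  have h2 : c' ≠ 0 := fun h => hc (congrArg Subtype.val h)
  have h3 : c' • z' ≠ 0 := smul_ne_zero h2 h1
  have e1 := aapi_eq L (c' • z') h3
  have e2 := aapi_eq L z' h1
  rw [Height.logHeight_smul_eq_logHeight z' h2, ← e2] at e1
  exact e1

theorem absHeight_prod {α : Type*} [Fintype α] {σ : α → Type*} [∀ a, Finite (σ a)]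
    (x : (a : α) → σ a → E) (hx : ∀ a, x a ≠ 0) :
    absHeight (fun I : (a : α) → σ a => ∏ a, x a (I a)) = ∑ a, absHeight (x a) := by
  obtain ⟨L, hL, hS⟩ := aapi_field (⋃ a, Set.range (x a))
    (Set.finite_iUnion fun a => Set.finite_range (x a))
  haveI : NumberField L := { to_charZero := inferInstance, to_finiteDimensional := hL }
  set y : (a : α) → σ a → L := fun a i => ⟨x a i, hS (Set.mem_iUnion.2 ⟨a, i, rfl⟩)⟩ with hy
  have h1 : ∀ a, y a ≠ 0 := by
    intro a h
    apply hx a
    funext i
    exact congrArg Subtype.val (congrFun h i)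
  have h2 : (fun I : (a : α) → σ a => ∏ a, y a (I a)) ≠ 0 := by
    have h3 : ∀ a, ∃ i, y a i ≠ 0 := fun a => Function.ne_iff.1 (h1 a)
    choose I hI using h3
    intro h
    exact (Finset.prod_ne_zero_iff.2 fun a _ => hI a) (congrFun h I)
  have e1 := aapi_eq L _ h2
  rw [Height.logHeight_fun_prod_eq h1, Finset.sum_div] at e1
  have e2 : (fun I : (a : α) → σ a => ((∏ a, y a (I a) : L) : E)) =
      fun I : (a : α) → σ a => ∏ a, x a (I a) := by
    funext I
    push_cast
    rfl
  rw [e2] at e1
  rw [e1]
  refine Finset.sum_congr rfl fun a _ => ?_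
  exact (aapi_eq L (y a) (h1 a)).symm

end Abs

end Pool.Agent.Helper63.WH
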