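import Pool.Agent.Helper63.WH.Abnd

/-!
Points of small arithmetic degree have slowly growing absolute heights, uniformly.
-/

open MvPolynomial Filter Topology
open scoped LinearAlgebra.Projectivization

namespace Pool.Agent.Helper63.WH

open Pool.Agent.Helper90.KSC Pool.Agent.Helper63.SAND

section Points

variable {E : Type*} [Field E] [CharZero E] [Algebra.IsAlgebraic ℚ E] {ι : Type*} [Fintype ι]
  {N : ι → ℕ}

omit [Algebra.IsAlgebraic ℚ E] in
theorem absArithDegree_ge_one (f : PPt E N → PPt E N) (x : PPt E N) (a : ℝ)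
    (h : AbsArithDegree f x a) : 1 ≤ a := by
  refine ge_of_tendsto h (Eventually.of_forall fun n => ?_)
  exact Real.one_le_rpow (le_max_right _ _) (by positivity)

private theorem abadh_total (x : PPt E N) : 0 ≤ absTotal x :=
  Finset.sum_nonneg fun i _ => absHeight_nonneg (x i).rep

/-- An arithmetic degree larger than one is an eigenvalue. -/
private theorem abadh_eig [Nonempty ι] [DecidableEq ι] (X : Set (PPt E N))
    (f : PPt E N → PPt E N) (hf : Set.MapsTo f X X) (A : Matrix ι ι ℤ) (hA : ActsBy X f A)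
    (x : PPt E N) (hx : x ∈ X) (a : ℝ) (ha : 1 < a) (h : AbsArithDegree f x a) :
    ∃ w : ι → ℝ, w ≠ 0 ∧ (A.map (Int.cast : ℤ → ℝ)).mulVec w = a • w := by
  have hmem : ∀ n, f^[n] x ∈ X := by
    intro n
    induction n with
    | zero => exact hx
    | succ n ih => rw [Function.iterate_succ_apply']; exact hf ih
  set v : ℕ → ι → ℝ := fun n i => absHeight ((f^[n] x) i).rep with hv
  have hvs : ∀ n, ∑ i, v n i = absTotal (f^[n] x) := fun n => rfl
  have hv0 : ∀ n i, 0 ≤ v n i := fun n i => absHeight_nonneg _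
  have hinf : ∀ B : ℝ, ∃ M, ∀ n ≥ M, B ≤ ∑ i, v n i := by
    intro B
    obtain ⟨s, hs1, hs2⟩ : ∃ s : ℝ, 1 < s ∧ s < a := ⟨(1 + a) / 2, by linarith, by linarith⟩
    have h1 := (h.eventually_const_lt hs2).and
      (((tendsto_pow_atTop_atTop_of_one_lt hs1).eventually_ge_atTop (max B 2)).and
        (eventually_gt_atTop 0))
    obtain ⟨M, hM⟩ := eventually_atTop.mp h1
    refine ⟨M, fun n hn => ?_⟩
    obtain ⟨e1, e2, e3⟩ := hM n hn
    rw [hvs]
    have h0 : (0 : ℝ) ≤ max (absTotal (f^[n] x)) 1 := le_max_of_le_right zero_le_one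
    have e4 : s ^ n ≤ max (absTotal (f^[n] x)) 1 := by
      calc s ^ n ≤ ((max (absTotal (f^[n] x)) 1) ^ ((1 : ℝ) / n)) ^ n :=
            pow_le_pow_left₀ (by linarith) e1.le n
        _ = max (absTotal (f^[n] x)) 1 := by
            rw [one_div, Real.rpow_inv_natCast_pow h0 e3.ne']
    have e5 : max B 2 ≤ max (absTotal (f^[n] x)) 1 := e2.trans e4
    have e6 : 2 ≤ max (absTotal (f^[n] x)) 1 := (le_max_right _ _).trans e5
    have e7 : max (absTotal (f^[n] x)) 1 = absTotal (f^[n] x) := by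
      rcases le_total (absTotal (f^[n] x)) 1 with h2 | h2
      · rw [max_eq_right h2] at e6
        norm_num at e6
      · exact max_eq_left h2
    rw [e7] at e5
    exact (le_max_left _ _).trans e5
  have he : ∀ ε > 0, ∃ M, ∀ n ≥ M, ∀ i,
      |v (n + 1) i - ((A.map (Int.cast : ℤ → ℝ)).mulVec (v n)) i| ≤ ε * ∑ j, v n j := by
    intro ε hε
    obtain ⟨C, hC⟩ := abs_bound hA (half_pos hε)
    obtain ⟨M, hM⟩ := hinf (2 * C / ε)
    refine ⟨M, fun n hn i => ?_⟩
    have h1 := hC _ (hmem n) i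
    have h2 := hM n hn
    rw [div_le_iff₀ hε] at h2
    have h3 : v (n + 1) i - ((A.map (Int.cast : ℤ → ℝ)).mulVec (v n)) i =
        absHeight (f (f^[n] x) i).rep -
          ∑ j, (A i j : ℝ) * absHeight ((f^[n] x) j).rep := by
      simp only [hv, Function.iterate_succ_apply', Matrix.mulVec, dotProduct, Matrix.map_apply]
    rw [h3]
    rw [← hvs n] at h1
    linarith
  obtain ⟨a', ha', hlim, hcone⟩ := cone_eig (A.map (Int.cast : ℤ → ℝ)) v hv0 he hinf
  obtain ⟨w, hw, hwe, -⟩ := hcone id tendsto_id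
  have e : a = a' := tendsto_nhds_unique h hlim
  exact ⟨w, simplex_ne_zero hw, e ▸ hwe⟩

private theorem abadh_small [Nonempty ι] [DecidableEq ι] (X : Set (PPt E N))
    (f : PPt E N → PPt E N) (hf : Set.MapsTo f X X) (A : Matrix ι ι ℤ) (hA : ActsBy X f A)
    {δ b₀ b : ℝ} (hb1 : 1 < b) (hb : b₀ < b)
    (hb₀ : ∀ a, a < δ → (∃ w : ι → ℝ, w ≠ 0 ∧
      (A.map (Int.cast : ℤ → ℝ)).mulVec w = a • w) → a ≤ b₀)
    (x : PPt E N) (hx : x ∈ X) (a : ℝ) (ha : a < δ) (h : AbsArithDegree f x a) :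
    ∀ᶠ n : ℕ in atTop, absTotal (f^[n] x) ≤ b ^ n := by
  have hab : a < b := by
    rcases le_or_gt a 1 with h1 | h1
    · linarith
    · exact (hb₀ a ha (abadh_eig X f hf A hA x hx a h1 h)).trans_lt hb
  filter_upwards [h.eventually_lt_const hab, eventually_gt_atTop 0] with n hn hn0
  have h0 : (0 : ℝ) ≤ max (absTotal (f^[n] x)) 1 := le_max_of_le_right zero_le_one
  calc absTotal (f^[n] x) ≤ max (absTotal (f^[n] x)) 1 := le_max_left _ _
    _ = ((max (absTotal (f^[n] x)) 1) ^ ((1 : ℝ) / n)) ^ n := by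
      rw [one_div, Real.rpow_inv_natCast_pow h0 hn0.ne']
    _ ≤ b ^ n := pow_le_pow_left₀ (Real.rpow_nonneg h0 _) hn.le n

/-! ### BADH -/

theorem abs_badh [DecidableEq ι] (X : Set (PPt E N)) (f : PPt E N → PPt E N)
    (hf : Set.MapsTo f X X) (A : Matrix ι ι ℤ) (hA : ActsBy X f A) (δ : ℝ) (hδ : 1 < δ) :
    ∃ r C : ℝ, 1 ≤ r ∧ r < δ ∧ 0 ≤ C ∧ ∀ x ∈ X, ∀ a < δ, AbsArithDegree f x a →
      ∀ n : ℕ, absTotal (f^[n] x) ≤ C * r ^ n * (absTotal x + 1) := by
  classical
  rcases isEmpty_or_nonempty ι with hι | hι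
  · refine ⟨1, 1, le_rfl, hδ, zero_le_one, fun x _ a _ _ n => ?_⟩
    have h0 : ∀ y : PPt E N, absTotal y = 0 := fun y => by
      unfold absTotal
      simp
    rw [h0, h0]
    simp
  set A' : Matrix ι ι ℝ := A.map (Int.cast : ℤ → ℝ) with hA'
  obtain ⟨b₀, hb₀1, hb₀δ, hb₀⟩ : ∃ b₀ : ℝ, 1 ≤ b₀ ∧ b₀ < δ ∧ ∀ a, a < δ →
      (∃ w : ι → ℝ, w ≠ 0 ∧ A'.mulVec w = a • w) → a ≤ b₀ := by
    have hfin : (insert (1 : ℝ) ({b : ℝ | ∃ w : ι → ℝ, w ≠ 0 ∧ A'.mulVec w = b • w} ∩
        Set.Iio δ)).Finite := ((finite_eig A').inter_of_left _).insert 1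
    obtain ⟨b₀, hm, hmax⟩ := Set.exists_max_image _ id hfin ⟨1, Set.mem_insert _ _⟩
    refine ⟨b₀, hmax 1 (Set.mem_insert _ _), ?_, fun a ha hw => hmax a (Or.inr ⟨hw, ha⟩)⟩
    rcases hm with h | h
    · rw [h]
      exact hδ
    · exact h.2
  have hr1 : b₀ < (b₀ + δ) / 2 := by linarith
  have hr2 : (b₀ + δ) / 2 < δ := by linarith
  refine ⟨(b₀ + δ) / 2, ?_⟩
  generalize (b₀ + δ) / 2 = r at hr1 hr2
  by_contra hcon
  have hcon' : ∀ C : ℝ, 0 ≤ C → ∃ x ∈ X, ∃ a < δ, AbsArithDegree f x a ∧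
      ∃ n : ℕ, C * r ^ n * (absTotal x + 1) < absTotal (f^[n] x) := by
    intro C hC
    by_contra hc
    push Not at hc
    exact hcon ⟨C, by linarith, hr2, hC, hc⟩
  refine no_interval A' hr1 fun b hb1 hb2 => ?_
  have hb : 1 < b := lt_of_le_of_lt hb₀1 hb1
  have hb0 : 0 < b := by linarith
  obtain ⟨w, hw, _, hwe⟩ := exact_of_approx A' b Set.univ isClosed_univ (by
    intro η hη
    obtain ⟨C₁, hC₁⟩ := abs_bound hA (half_pos hη)
    set C : ℝ := |C₁| with hC
    have hC0 : 0 ≤ C := abs_nonneg _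
    set D : ℝ := b + C * (b / (b - 1)) with hD
    have hD0 : 0 < D := by
      have : 0 ≤ C * (b / (b - 1)) := mul_nonneg hC0 (div_nonneg hb0.le (by linarith))
      linarith
    set k : ℝ := 2 * D / η with hk
    have hk0 : 0 < k := by positivity
    obtain ⟨x, hx, a, ha, hax, n, hn⟩ := hcon' k hk0.le
    obtain ⟨M, hM1, hM2⟩ := ((abadh_small X f hf A hA hb hb1 hb₀ x hx a ha hax).and
      (eventually_gt_atTop n)).exists
    have hmem : ∀ n, f^[n] x ∈ X := by
      intro n
      induction n with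
      | zero => exact hx
      | succ n ih => rw [Function.iterate_succ_apply']; exact hf ih
    set v : ℕ → ι → ℝ := fun n i => absHeight ((f^[n] x) i).rep with hv
    have hv0 : ∀ n i, 0 ≤ v n i := fun n i => absHeight_nonneg _
    set u : ℕ → ℝ := fun n => ∑ i, v n i with hu
    have hun : ∀ n, absTotal (f^[n] x) = u n := fun n => rfl
    have hu0 : ∀ n, 0 ≤ u n := fun n => Finset.sum_nonneg fun i _ => hv0 n i
    have hu00 : absTotal x = u 0 := rfl
    rw [hun, hu00] at hn
    rw [hun] at hM1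
    have herr : ∀ n i, |v (n + 1) i - (A'.mulVec (v n)) i| ≤ η / 2 * u n + C := by
      intro n i
      have h1 := hC₁ _ (hmem n) i
      have h3 : v (n + 1) i - (A'.mulVec (v n)) i =
          absHeight (f (f^[n] x) i).rep -
            ∑ j, (A i j : ℝ) * absHeight ((f^[n] x) j).rep := by
        simp only [hv, hA', Function.iterate_succ_apply', Matrix.mulVec, dotProduct,
          Matrix.map_apply]
      rw [h3]
      exact h1.trans (add_le_add le_rfl (le_abs_self _))
    set W : ι → ℝ := fun i => ∑ m ∈ Finset.range M, v m i / b ^ m with hW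
    set S : ℝ := ∑ m ∈ Finset.range M, u m / b ^ m with hS
    have hWS : ∑ i, W i = S := by
      rw [hW, hS, Finset.sum_comm]
      exact Finset.sum_congr rfl fun m _ => by rw [hu, Finset.sum_div]
    have hSn : k * (u 0 + 1) ≤ S := by
      have h1 : u n / b ^ n ≤ S := Finset.single_le_sum (f := fun m => u m / b ^ m)
        (fun m _ => div_nonneg (hu0 m) (by positivity)) (Finset.mem_range.mpr hM2)
      refine le_trans ?_ h1
      rw [le_div_iff₀ (by positivity)]
      have h2 : b ^ n ≤ r ^ n := pow_le_pow_left₀ hb0.le hb2.le n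
      have h3 : 0 ≤ k * (u 0 + 1) := mul_nonneg hk0.le (by linarith [hu0 0])
      calc k * (u 0 + 1) * b ^ n ≤ k * (u 0 + 1) * r ^ n := mul_le_mul_of_nonneg_left h2 h3
        _ = k * r ^ n * (u 0 + 1) := by ring
        _ ≤ u n := hn.le
    have hS0 : 0 < S := lt_of_lt_of_le (mul_pos hk0 (by linarith [hu0 0])) hSn
    have hW0 : ∀ i, 0 ≤ W i := fun i => Finset.sum_nonneg fun m _ =>
      div_nonneg (hv0 m i) (by positivity)
    refine ⟨fun i => W i / S, ⟨fun i => div_nonneg (hW0 i) hS0.le, ?_⟩, trivial, fun i => ?_⟩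
    · rw [← Finset.sum_div, hWS, div_self hS0.ne']
    -- the main identity
    have hAW : (A'.mulVec fun i => W i / S) i =
        (∑ m ∈ Finset.range M, (A'.mulVec (v m)) i / b ^ m) / S := by
      simp only [Matrix.mulVec, dotProduct]
      rw [Finset.sum_div]
      have h1 : ∀ m ∈ Finset.range M, (∑ j, A' i j * v m j) / b ^ m / S =
          ∑ j, A' i j * (v m j / b ^ m / S) := by
        intro m _
        rw [Finset.sum_div, Finset.sum_div]
        exact Finset.sum_congr rfl fun j _ => by ring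
      rw [Finset.sum_congr rfl h1, Finset.sum_comm]
      refine Finset.sum_congr rfl fun j _ => ?_
      rw [← Finset.mul_sum, hW]
      simp only []
      rw [Finset.sum_div]
    have htel : b * W i - ∑ m ∈ Finset.range M, (A'.mulVec (v m)) i / b ^ m =
        b * v 0 i - b * (v M i / b ^ M) +
          ∑ m ∈ Finset.range M, (v (m + 1) i - (A'.mulVec (v m)) i) / b ^ m := by
      have h1 : ∑ m ∈ Finset.range M, v (m + 1) i / b ^ m =
          b * (W i - v 0 i + v M i / b ^ M) := by
        have h2 : ∑ m ∈ Finset.range M, v (m + 1) i / b ^ m =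
            b * ∑ m ∈ Finset.range M, v (m + 1) i / b ^ (m + 1) := by
          rw [Finset.mul_sum]
          refine Finset.sum_congr rfl fun m _ => ?_
          rw [pow_succ]
          field_simp
        rw [h2]
        have h3 := Finset.sum_range_succ' (fun m => v m i / b ^ m) M
        have h4 := Finset.sum_range_succ (fun m => v m i / b ^ m) M
        rw [h4] at h3
        simp only [pow_zero, div_one] at h3
        congr 1
        rw [hW]
        simp only []
        linarith
      simp only [sub_div, Finset.sum_sub_distrib]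
      rw [h1]
      ring
    rw [hAW, mul_div_assoc', ← sub_div, abs_div, abs_of_pos hS0, div_le_iff₀ hS0, htel]
    have hgeo : ∑ m ∈ Finset.range M, (1 : ℝ) / b ^ m ≤ b / (b - 1) := by
      have h1 : ∑ m ∈ Finset.range M, (1 : ℝ) / b ^ m = ∑ m ∈ Finset.range M, (b⁻¹) ^ m := by
        refine Finset.sum_congr rfl fun m _ => ?_
        rw [one_div, inv_pow]
      have hbi : b⁻¹ < 1 := inv_lt_one_of_one_lt₀ hb
      have hbi0 : 0 ≤ b⁻¹ := inv_nonneg.mpr hb0.le
      rw [h1]
      refine (Summable.sum_le_tsum _ (fun m _ => pow_nonneg hbi0 m)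
        (summable_geometric_of_lt_one hbi0 hbi)).trans (le_of_eq ?_)
      rw [tsum_geometric_of_lt_one hbi0 hbi]
      have hb1' : b - 1 ≠ 0 := by linarith
      have hb1'' : 1 - b⁻¹ ≠ 0 := by linarith
      field_simp
    have hsum : |∑ m ∈ Finset.range M, (v (m + 1) i - (A'.mulVec (v m)) i) / b ^ m| ≤
        η / 2 * S + C * (b / (b - 1)) := by
      refine (Finset.abs_sum_le_sum_abs _ _).trans ?_
      calc ∑ m ∈ Finset.range M, |(v (m + 1) i - (A'.mulVec (v m)) i) / b ^ m|
          ≤ ∑ m ∈ Finset.range M, (η / 2 * (u m / b ^ m) + C * (1 / b ^ m)) := by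
            refine Finset.sum_le_sum fun m _ => ?_
            have hbm : 0 < b ^ m := by positivity
            rw [abs_div, abs_of_pos hbm, div_le_iff₀ hbm]
            refine (herr m i).trans (le_of_eq ?_)
            field_simp
        _ = η / 2 * S + C * ∑ m ∈ Finset.range M, 1 / b ^ m := by
            rw [Finset.sum_add_distrib, ← Finset.mul_sum, ← Finset.mul_sum]
        _ ≤ η / 2 * S + C * (b / (b - 1)) :=
            add_le_add le_rfl (mul_le_mul_of_nonneg_left hgeo hC0)
    have hv0u : v 0 i ≤ u 0 := Finset.single_le_sum (f := fun i => v 0 i)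
      (fun i _ => hv0 0 i) (Finset.mem_univ i)
    have hvMu : v M i / b ^ M ≤ 1 := by
      rw [div_le_one (by positivity)]
      exact (Finset.single_le_sum (f := fun i => v M i)
        (fun i _ => hv0 M i) (Finset.mem_univ i)).trans hM1
    have hvM0 : 0 ≤ v M i / b ^ M := div_nonneg (hv0 M i) (by positivity)
    have h1 : |b * v 0 i - b * (v M i / b ^ M)| ≤ b * (u 0 + 1) := by
      rw [abs_le]
      constructor
      · have e1 : 0 ≤ b * v 0 i := mul_nonneg hb0.le (hv0 0 i)
        have e2 : b * (v M i / b ^ M) ≤ b * 1 := mul_le_mul_of_nonneg_left hvMu hb0.le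
        have e3 : 0 ≤ b * u 0 := mul_nonneg hb0.le (hu0 0)
        nlinarith
      · have e1 : b * v 0 i ≤ b * u 0 := mul_le_mul_of_nonneg_left hv0u hb0.le
        have e2 : 0 ≤ b * (v M i / b ^ M) := mul_nonneg hb0.le hvM0
        nlinarith
    have h2 : C * (b / (b - 1)) ≤ C * (b / (b - 1)) * (u 0 + 1) := by
      have e1 : 0 ≤ C * (b / (b - 1)) := mul_nonneg hC0 (div_nonneg hb0.le (by linarith))
      nlinarith [hu0 0]
    have h3 : D * (u 0 + 1) ≤ η / 2 * S := by
      have e1 : η / 2 * (k * (u 0 + 1)) ≤ η / 2 * S :=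
        mul_le_mul_of_nonneg_left hSn (by positivity)
      have e2 : η / 2 * (k * (u 0 + 1)) = D * (u 0 + 1) := by
        rw [hk]
        field_simp
      linarith
    have h4 : D * (u 0 + 1) = b * (u 0 + 1) + C * (b / (b - 1)) * (u 0 + 1) := by
      rw [hD]
      ring
    refine (abs_add_le _ _).trans ?_
    linarith)
  exact ⟨w, hw, hwe⟩

end Points

end Pool.Agent.Helper63.WH
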