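import Pool.Agent.Helper63.WH.Defs
import Pool.Agent.Helper63.SAND.Class

/-!
Module PADIC: elements of bounded degree of an algebraic closure of the `p`-adic numbers.
-/

open MvPolynomial Filter Topology
open scoped LinearAlgebra.Projectivization

namespace Pool.Agent.Helper63.WH

open Pool.Agent.Helper90.KSC Pool.Agent.Helper63.SAND

section Abs

variable {E : Type*} [Field E] [CharZero E] [Algebra.IsAlgebraic ℚ E]

theorem padic_deg (L : IntermediateField ℚ E) [FiniteDimensional ℚ L] (z : E) (hz : z ∈ L)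
    (p : Nat.Primes) (τ : E →+* PadicAlgCl p) :
    (minpoly ℚ_[p] (τ z)).natDegree ≤ Module.finrank ℚ L := by
  have h1 : (minpoly ℚ (⟨z, hz⟩ : L)).natDegree ≤ Module.finrank ℚ L := minpoly.natDegree_le _
  have h2 : minpoly ℚ (⟨z, hz⟩ : L) = minpoly ℚ z := by
    have := minpoly.algebraMap_eq (A := ℚ) (B := L) (B' := E) (algebraMap L E).injective ⟨z, hz⟩
    rw [← this]
    rfl
  have hint : IsIntegral ℚ z := Algebra.IsIntegral.isIntegral z
  have hmonic : (minpoly ℚ z).Monic := minpoly.monic hint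
  have h3 : minpoly ℚ_[p] (τ z) ∣ (minpoly ℚ z).map (algebraMap ℚ ℚ_[p]) := by
    refine minpoly.dvd _ _ ?_
    rw [Polynomial.aeval_def, Polynomial.eval₂_map]
    have h4 : (algebraMap ℚ_[p] (PadicAlgCl p)).comp (algebraMap ℚ ℚ_[p]) =
        τ.comp (algebraMap ℚ E) := Subsingleton.elim _ _
    rw [h4, ← Polynomial.hom_eval₂, ← Polynomial.aeval_def, minpoly.aeval, map_zero]
  have h5 := Polynomial.natDegree_le_of_dvd h3 (hmonic.map _).ne_zero
  rw [hmonic.natDegree_map] at h5
  rw [h2] at h1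
  exact h5.trans h1

end Abs

theorem padic_disc (p : Nat.Primes) (z : PadicAlgCl p) (D : ℕ)
    (hD : (minpoly ℚ_[p] z).natDegree ≤ D) (hz : ‖z‖ < 1) : ‖z‖ ^ D ≤ 1 / (p : ℝ) := by
  have hp1 : (1 : ℝ) < p := by exact_mod_cast p.2.one_lt
  have hp0 : (0 : ℝ) < p := by linarith
  have hq0 : (0 : ℝ) < 1 / (p : ℝ) := by positivity
  have hq1 : 1 / (p : ℝ) ≤ 1 := by
    rw [div_le_one hp0]; exact hp1.le
  set n := (minpoly ℚ_[p] z).natDegree with hn
  have hnpos : 0 < n := minpoly.natDegree_pos (Algebra.IsIntegral.isIntegral z)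
  have hnR : (0 : ℝ) < n := by exact_mod_cast hnpos
  have hspec : ‖z‖ = spectralValue (minpoly ℚ_[p] z) := rfl
  have h1 : ‖z‖ ≤ (1 / (p : ℝ)) ^ (1 / (n : ℝ)) := by
    rw [hspec]
    refine ciSup_le fun i => ?_
    by_cases hi : i < n
    · have h2 : spectralValueTerms (minpoly ℚ_[p] z) i < 1 :=
        lt_of_le_of_lt (le_ciSup (spectralValueTerms_bddAbove _) i) (by
          have : spectralValue (minpoly ℚ_[p] z) < 1 := hspec ▸ hz
          exact this)
      rw [spectralValueTerms_of_lt_natDegree _ hi] at h2 ⊢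
      rw [← hn] at h2 ⊢
      have hni : (0 : ℝ) < (n : ℝ) - i := by
        have : (i : ℝ) < n := by exact_mod_cast hi
        linarith
      have h3 : ‖(minpoly ℚ_[p] z).coeff i‖ < 1 := by
        by_contra hcon
        push Not at hcon
        have := Real.one_le_rpow hcon (z := 1 / ((n : ℝ) - i)) (by positivity)
        linarith
      have h4 : ‖(minpoly ℚ_[p] z).coeff i‖ ≤ 1 / (p : ℝ) := by
        have h5 := (Padic.norm_le_pow_iff_norm_lt_pow_add_one
          ((minpoly ℚ_[p] z).coeff i) (-1)).2 (by simpa using h3)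
        simpa using h5
      calc ‖(minpoly ℚ_[p] z).coeff i‖ ^ (1 / ((n : ℝ) - i))
          ≤ (1 / (p : ℝ)) ^ (1 / ((n : ℝ) - i)) :=
            Real.rpow_le_rpow (norm_nonneg _) h4 (by positivity)
        _ ≤ (1 / (p : ℝ)) ^ (1 / (n : ℝ)) := by
            refine Real.rpow_le_rpow_of_exponent_ge hq0 hq1 ?_
            refine one_div_le_one_div_of_le hni ?_
            have : (0 : ℝ) ≤ i := Nat.cast_nonneg i
            linarith
    · rw [spectralValueTerms_of_natDegree_le _ (not_lt.1 hi)]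
      positivity
  calc ‖z‖ ^ D ≤ ‖z‖ ^ n := pow_le_pow_of_le_one (norm_nonneg _) hz.le hD
    _ ≤ ((1 / (p : ℝ)) ^ (1 / (n : ℝ))) ^ n := pow_le_pow_left₀ (norm_nonneg _) h1 n
    _ = 1 / (p : ℝ) := by
        rw [← Real.rpow_natCast, ← Real.rpow_mul hq0.le, one_div_mul_cancel hnR.ne', Real.rpow_one]

/-- a sum of elements of norm less than `1` -/
private theorem padic_sum_lt (p : Nat.Primes) {ι : Type*} (t : Finset ι) (f : ι → PadicAlgCl p)
    (hf : ∀ i ∈ t, ‖f i‖ < 1) : ‖∑ i ∈ t, f i‖ < 1 := by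
  classical
  induction t using Finset.induction_on with
  | empty => simp
  | insert a t ha ih =>
    rw [Finset.sum_insert ha]
    exact lt_of_le_of_lt (PadicAlgCl.isNonarchimedean p _ _)
      (max_lt (hf a (Finset.mem_insert_self a t)) (ih fun i hi => hf i (Finset.mem_insert_of_mem hi)))

/-- the monic polynomial with the given lower coefficients -/
private noncomputable def padicPoly (p : Nat.Primes) (D : ℕ) (a : Fin D → ℤ_[p]) :
    Polynomial ℚ_[p] :=
  Polynomial.X ^ D + ∑ i : Fin D, Polynomial.C (a i : ℚ_[p]) * Polynomial.X ^ (i : ℕ)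

private theorem padic_degree_lt (p : Nat.Primes) (D : ℕ) (a : Fin D → ℤ_[p]) :
    (∑ i : Fin D, Polynomial.C (a i : ℚ_[p]) * Polynomial.X ^ (i : ℕ)).degree < (D : WithBot ℕ) := by
  refine lt_of_le_of_lt (Polynomial.degree_sum_le _ _) ?_
  refine (Finset.sup_lt_iff (WithBot.bot_lt_coe D)).2 fun i _ => ?_
  refine lt_of_le_of_lt (Polynomial.degree_C_mul_X_pow_le _ _) ?_
  exact WithBot.coe_lt_coe.2 i.2

private theorem padic_monic (p : Nat.Primes) (D : ℕ) (a : Fin D → ℤ_[p]) :
    (padicPoly p D a).Monic := Polynomial.monic_X_pow_add (padic_degree_lt p D a)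

private theorem padic_natDegree (p : Nat.Primes) (D : ℕ) (a : Fin D → ℤ_[p]) :
    (padicPoly p D a).natDegree = D := by
  refine Polynomial.natDegree_eq_of_degree_eq_some ?_
  unfold padicPoly
  rw [Polynomial.degree_add_eq_left_of_degree_lt, Polynomial.degree_X_pow]
  rw [Polynomial.degree_X_pow]
  exact padic_degree_lt p D a

private theorem padic_aeval (p : Nat.Primes) (D : ℕ) (a : Fin D → ℤ_[p]) (z : PadicAlgCl p) :
    Polynomial.aeval z (padicPoly p D a) =
      z ^ D + ∑ i : Fin D, algebraMap ℚ_[p] (PadicAlgCl p) (a i : ℚ_[p]) * z ^ (i : ℕ) := by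
  unfold padicPoly
  simp

/-- an integral element of degree at most `D` is a root of a monic polynomial of degree `D`. -/
private theorem padic_exists_poly (p : Nat.Primes) (D : ℕ) (z : PadicAlgCl p)
    (hD : (minpoly ℚ_[p] z).natDegree ≤ D) (hz : ‖z‖ ≤ 1) :
    ∃ a : Fin D → ℤ_[p], Polynomial.aeval z (padicPoly p D a) = 0 := by
  have hmon : (minpoly ℚ_[p] z).Monic := minpoly.monic (Algebra.IsIntegral.isIntegral z)
  have hc : ∀ i, ‖(minpoly ℚ_[p] z).coeff i‖ ≤ 1 := (spectralValue_le_one_iff hmon).1 hz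
  set m := D - (minpoly ℚ_[p] z).natDegree with hm
  set f : Polynomial ℚ_[p] := Polynomial.X ^ m * minpoly ℚ_[p] z with hf
  have hfm : f.Monic := (Polynomial.monic_X_pow m).mul hmon
  have hfd : f.natDegree = D := by
    rw [hf, Polynomial.natDegree_mul (pow_ne_zero _ Polynomial.X_ne_zero) hmon.ne_zero,
      Polynomial.natDegree_X_pow]
    omega
  have hfc : ∀ i, ‖f.coeff i‖ ≤ 1 := by
    intro i
    rw [hf, Polynomial.coeff_X_pow_mul']
    split_ifs
    · exact hc _
    · simp
  refine ⟨fun i => ⟨f.coeff i, hfc i⟩, ?_⟩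
  have h1 : padicPoly p D (fun i => ⟨f.coeff i, hfc i⟩) = f := by
    unfold padicPoly
    conv_rhs => rw [hfm.as_sum, hfd]
    congr 1
    rw [Finset.sum_range]
  rw [h1, hf, map_mul, minpoly.aeval, mul_zero]

/-- the roots -/
private theorem padic_roots (p : Nat.Primes) (D : ℕ) (a : Fin D → ℤ_[p]) :
    ∃ r : Fin D → PadicAlgCl p, ∀ z, Polynomial.aeval z (padicPoly p D a) = ∏ i, (z - r i) := by
  set f : Polynomial (PadicAlgCl p) := (padicPoly p D a).map (algebraMap ℚ_[p] (PadicAlgCl p))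
    with hf
  have hfm : f.Monic := (padic_monic p D a).map _
  have hfd : f.natDegree = D := by
    rw [hf, (padic_monic p D a).natDegree_map, padic_natDegree]
  have hs : f.Splits := IsAlgClosed.splits f
  have hcard : f.roots.toList.length = D := by
    rw [Multiset.length_toList, ← hs.natDegree_eq_card_roots, hfd]
  have hprod : f = (f.roots.map fun x => Polynomial.X - Polynomial.C x).prod :=
    hs.eq_prod_roots_of_monic hfm
  refine ⟨fun i => f.roots.toList[(i : ℕ)]'(by rw [hcard]; exact i.2), fun z => ?_⟩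
  have h1 : Polynomial.aeval z (padicPoly p D a) = Polynomial.eval z f := by
    rw [hf, Polynomial.eval_map, Polynomial.aeval_def]
  rw [h1]
  conv_lhs => rw [hprod]
  rw [Polynomial.eval_multiset_prod, Multiset.map_map]
  conv_lhs => rw [← Multiset.coe_toList f.roots]
  rw [Multiset.map_coe, Multiset.prod_coe]
  rw [← Fin.prod_univ_fun_getElem]
  simp only [Function.comp, Polynomial.eval_sub, Polynomial.eval_X, Polynomial.eval_C]
  exact Fintype.prod_equiv (finCongr hcard) _ _ fun i => rfl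

private theorem padic_root_near (p : Nat.Primes) (D : ℕ) (r : Fin D → PadicAlgCl p)
    (z : PadicAlgCl p) (h : ‖∏ i, (z - r i)‖ < 1) : ∃ i, ‖z - r i‖ < 1 := by
  by_contra hcon
  push Not at hcon
  rw [norm_prod] at h
  have : ∏ _i : Fin D, (1 : ℝ) ≤ ∏ i, ‖z - r i‖ :=
    Finset.prod_le_prod (fun i _ => zero_le_one) fun i _ => hcon i
  rw [Finset.prod_const_one] at this
  linarith

private theorem padic_mod (p : Nat.Primes) (a b : ℤ_[p])
    (h : PadicInt.toZMod a = PadicInt.toZMod b) : ‖a - b‖ < 1 := by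
  have h1 : a - b ∈ RingHom.ker (PadicInt.toZMod : ℤ_[p] →+* ZMod p) := by
    rw [RingHom.mem_ker, map_sub, h, sub_self]
  rw [PadicInt.ker_toZMod, IsLocalRing.mem_maximalIdeal] at h1
  exact PadicInt.mem_nonunits.1 h1

theorem padic_red (p : Nat.Primes) (D : ℕ) (hD : 1 ≤ D) :
    ∃ red : PadicAlgCl p → Fin (D * (p : ℕ) ^ D), ∀ z z' : PadicAlgCl p,
      (minpoly ℚ_[p] z).natDegree ≤ D → (minpoly ℚ_[p] z').natDegree ≤ D → ‖z‖ ≤ 1 →
        ‖z'‖ ≤ 1 → red z = red z' → ‖z - z'‖ < 1 := by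
  classical
  haveI : NeZero (p : ℕ) := ⟨p.2.ne_zero⟩
  -- lifts of the reductions and their roots
  have hsurj : Function.Surjective (PadicInt.toZMod : ℤ_[p] →+* ZMod p) :=
    ZMod.ringHom_surjective _
  choose lift hlift using hsurj
  choose r hr using fun κ : Fin D → ZMod p => padic_roots p D (fun i => lift (κ i))
  -- the class of a point
  have hcls : ∀ z : PadicAlgCl p, ∃ x : (Fin D → ZMod p) × Fin D,
      (minpoly ℚ_[p] z).natDegree ≤ D → ‖z‖ ≤ 1 → ‖z - r x.1 x.2‖ < 1 := by
    intro z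
    by_cases hg : (minpoly ℚ_[p] z).natDegree ≤ D ∧ ‖z‖ ≤ 1
    · obtain ⟨a, ha⟩ := padic_exists_poly p D z hg.1 hg.2
      set κ : Fin D → ZMod p := fun i => PadicInt.toZMod (a i) with hκ
      have h1 : ‖Polynomial.aeval z (padicPoly p D (fun i => lift (κ i)))‖ < 1 := by
        have h2 : Polynomial.aeval z (padicPoly p D (fun i => lift (κ i))) =
            ∑ i : Fin D, algebraMap ℚ_[p] (PadicAlgCl p)
              (((lift (κ i) - a i : ℤ_[p]) : ℚ_[p])) * z ^ (i : ℕ) := by
          rw [← sub_zero (Polynomial.aeval z (padicPoly p D (fun i => lift (κ i)))), ← ha,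
            padic_aeval, padic_aeval, add_sub_add_left_eq_sub, ← Finset.sum_sub_distrib]
          refine Finset.sum_congr rfl fun i _ => ?_
          rw [PadicInt.coe_sub, map_sub, sub_mul]
        rw [h2]
        refine padic_sum_lt p _ _ fun i _ => ?_
        rw [norm_mul, norm_pow]
        have h3 : ‖algebraMap ℚ_[p] (PadicAlgCl p) (((lift (κ i) - a i : ℤ_[p]) : ℚ_[p]))‖ < 1 := by
          rw [PadicAlgCl.norm_extends, ← PadicInt.norm_def]
          refine padic_mod p _ _ ?_
          rw [hlift]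
        calc _ ≤ ‖algebraMap ℚ_[p] (PadicAlgCl p) (((lift (κ i) - a i : ℤ_[p]) : ℚ_[p]))‖ * 1 :=
              mul_le_mul_of_nonneg_left (pow_le_one₀ (norm_nonneg _) hg.2) (norm_nonneg _)
          _ < 1 := by rw [mul_one]; exact h3
      rw [hr κ z] at h1
      obtain ⟨i, hi⟩ := padic_root_near p D (r κ) z h1
      exact ⟨(κ, i), fun _ _ => hi⟩
    · exact ⟨(0, ⟨0, hD⟩), fun h1 h2 => absurd ⟨h1, h2⟩ hg⟩
  choose cls hcls using hcls
  have hcard : Fintype.card ((Fin D → ZMod p) × Fin D) = D * (p : ℕ) ^ D := by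
    rw [Fintype.card_prod, Fintype.card_fun, ZMod.card, Fintype.card_fin]
    ring
  refine ⟨fun z => Fintype.equivFinOfCardEq hcard (cls z), fun z z' hz1 hz1' hz2 hz2' h => ?_⟩
  have h1 : cls z = cls z' := (Fintype.equivFinOfCardEq hcard).injective h
  have h2 := hcls z hz1 hz2
  have h3 := hcls z' hz1' hz2'
  rw [← h1] at h3
  have h4 : z - z' = (z - r (cls z).1 (cls z).2) + -(z' - r (cls z).1 (cls z).2) := by ring
  rw [h4]
  refine lt_of_le_of_lt (PadicAlgCl.isNonarchimedean p _ _) (max_lt h2 ?_)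
  rw [norm_neg]
  exact h3

end Pool.Agent.Helper63.WH
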