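import Pool.Agent.Helper63.WH.Aapi
import Pool.Agent.Helper63.WH.Ahtq
import Pool.Agent.Helper63.WH.Padic

/-!
Number of primes over which the value of a tuple of forms is not primitive (absolute version).
-/

open MvPolynomial Filter Topology
open scoped LinearAlgebra.Projectivization

namespace Pool.Agent.Helper63.WH

open Pool.Agent.Helper90.KSC Pool.Agent.Helper63.SAND

section AgoodQ

variable {E : Type*} [Field E]

private theorem agoodq_int {W : Type*} [Finite W] {v : AbsoluteValue E ℝ}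
    (hv : IsNonarchimedean v) {P : MvPolynomial W E} {e : ℕ} (hP : P.IsHomogeneous e)
    (hI : IntPoly v P) (a : W → E) : v (eval a P) ≤ (⨆ w, v (a w)) ^ e := by
  refine (hv.eval_mvPolynomial_le hP a).trans ?_
  have h1 : (⨆ s : P.support, v (coeff s P)) ≤ 1 := Real.iSup_le (fun s => hI s) zero_le_one
  have h2 : 0 ≤ (⨆ w, v (a w)) ^ e := pow_nonneg (Real.iSup_nonneg_of_nonnegHomClass v _) e
  calc _ ≤ 1 * (⨆ w, v (a w)) ^ e := mul_le_mul_of_nonneg_right h1 h2
    _ = _ := one_mul _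

/-- The coefficients of the forms, and `1`. -/
private noncomputable def agoodqCf {W : Type*} (g : W → MvPolynomial W E)
    (s : Option (Σ w : W, (g w).support)) : E :=
  s.elim 1 fun x => coeff x.2.1 (g x.1)

private theorem agoodq_cf_one {W : Type*} [Finite W]
    (g : W → MvPolynomial W E) (v : AbsoluteValue E ℝ) : 1 ≤ ⨆ s, v (agoodqCf g s) := by
  refine Finite.le_ciSup_of_le (f := fun s => v (agoodqCf g s)) none ?_
  simp [agoodqCf]

private theorem agoodq_cf_coeff {W : Type*} [Finite W]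
    (g : W → MvPolynomial W E) (v : AbsoluteValue E ℝ) (w : W) (d : W →₀ ℕ)
    (hd : d ∈ (g w).support) : v (coeff d (g w)) ≤ ⨆ s, v (agoodqCf g s) := by
  refine Finite.le_ciSup_of_le (f := fun s => v (agoodqCf g s)) (some ⟨w, ⟨d, hd⟩⟩) ?_
  simp [agoodqCf]

/-- The absolute value of a complex embedding. -/
private noncomputable def agoodqC (s : E →+* ℂ) : AbsoluteValue E ℝ where
  toFun z := ‖s z‖
  map_mul' a b := by rw [map_mul, norm_mul]
  nonneg' a := norm_nonneg _
  eq_zero' a := by rw [norm_eq_zero, map_eq_zero]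
  add_le' a b := by
    rw [map_add]
    exact norm_add_le _ _

/-- A form of degree `e` at a multiple of a vector. -/
private theorem agoodq_eval_smul {W : Type*} (P : MvPolynomial W E) (e : ℕ)
    (hP : P.IsHomogeneous e) (c : E) (z : W → E) :
    eval (fun s => c * z s) P = c ^ e * eval z P := by
  rw [eval_eq, eval_eq, Finset.mul_sum]
  refine Finset.sum_congr rfl fun d hd => ?_
  have h1 : ∏ i ∈ d.support, (c * z i) ^ d i = c ^ e * ∏ i ∈ d.support, z i ^ d i := by
    have h2 : ∏ i ∈ d.support, (c * z i) ^ d i =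
        (∏ i ∈ d.support, c ^ d i) * ∏ i ∈ d.support, z i ^ d i := by
      rw [← Finset.prod_mul_distrib]
      exact Finset.prod_congr rfl fun i _ => mul_pow _ _ _
    rw [h2, Finset.prod_pow_eq_pow_sum]
    have h3 : ∑ i ∈ d.support, d i = e := by
      have h4 := hP (mem_support_iff.1 hd)
      rw [← h4, Finsupp.weight_apply, Finsupp.sum]
      simp
    rw [h3]
  rw [h1]
  ring

variable [CharZero E]

private theorem agoodq_eval_mem (L : IntermediateField ℚ E) {W : Type*} (P : MvPolynomial W E)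
    (hP : ∀ d, P.coeff d ∈ L) (a : W → E) (ha : ∀ w, a w ∈ L) : eval a P ∈ L := by
  rw [eval_eq]
  exact sum_mem fun d _ => mul_mem (hP d) (prod_mem fun i _ => pow_mem (ha i) _)

variable [Algebra.IsAlgebraic ℚ E]

private theorem agoodq_one {W : Type*} [Fintype W] (e : ℕ)
    (g : W → MvPolynomial W E) (hg : ∀ w, (g w).IsHomogeneous e) :
    ∃ C : ℝ, 0 ≤ C ∧ ∀ (L : IntermediateField ℚ E) [FiniteDimensional ℚ L] (D : ℕ),
      Module.finrank ℚ L ≤ D → (∀ w d, (g w).coeff d ∈ L) →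
      ∀ (a : W → E), a ≠ 0 → OverF L a → (∃ w, eval a (g w) ≠ 0) →
      ∀ P : Finset Nat.Primes,
        (∀ p ∈ P, ∃ τ : E →+* PadicAlgCl p, (∀ w, IntPoly (pAbs p τ) (g w)) ∧
          (⨆ w, pAbs p τ (eval a (g w))) ≠ (⨆ w, pAbs p τ (a w)) ^ e) →
        (P.card : ℝ) * Real.log 2 ≤ D ^ 2 * (C + e * absHeight a) := by
  classical
  set c : ℝ := 1 + ∑ w, ((g w).support.card : ℝ) with hc
  have hc1 : 1 ≤ c := by
    have : 0 ≤ ∑ w, ((g w).support.card : ℝ) := Finset.sum_nonneg fun w _ => Nat.cast_nonneg _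
    linarith
  have hc0 : 0 ≤ c := zero_le_one.trans hc1
  refine ⟨Real.log c + absHeight (agoodqCf g), ?_, ?_⟩
  · have h1 := Real.log_nonneg hc1
    have h2 := absHeight_nonneg (agoodqCf g)
    positivity
  intro L _ D hD hgL a0 ha0 hover hne0 P hP0
  obtain ⟨lam, hlam, hlamL⟩ := hover
  -- scale into `L`
  obtain ⟨a, ha_def⟩ : ∃ a : W → E, a = fun w => lam * a0 w := ⟨_, rfl⟩
  have haL : ∀ w, a w ∈ L := fun w => by rw [ha_def]; exact hlamL w
  have ha : a ≠ 0 := by
    obtain ⟨i, hi⟩ := Function.ne_iff.mp ha0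
    intro h
    have := congrFun h i
    rw [ha_def] at this
    exact mul_ne_zero hlam hi this
  have heval : ∀ w, eval a (g w) = lam ^ e * eval a0 (g w) := fun w => by
    rw [ha_def]
    exact agoodq_eval_smul (g w) e (hg w) lam a0
  have hne : ∃ w, eval a (g w) ≠ 0 := by
    obtain ⟨w, hw⟩ := hne0
    exact ⟨w, by rw [heval]; exact mul_ne_zero (pow_ne_zero e hlam) hw⟩
  have hheight : absHeight a = absHeight a0 := by
    have := absHeight_smul lam hlam a0
    rw [← this, ha_def]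
    rfl
  rw [← hheight]
  have hP : ∀ p ∈ P, ∃ τ : E →+* PadicAlgCl p, (∀ w, IntPoly (pAbs p τ) (g w)) ∧
          (⨆ w, pAbs p τ (eval a (g w))) ≠ (⨆ w, pAbs p τ (a w)) ^ e := by
    intro p hp
    obtain ⟨τ, hint, hneq⟩ := hP0 p hp
    refine ⟨τ, hint, ?_⟩
    have hl : 0 < pAbs p τ lam := (pAbs p τ).pos hlam
    have h1 : (⨆ w, pAbs p τ (eval a (g w))) =
        pAbs p τ lam ^ e * ⨆ w, pAbs p τ (eval a0 (g w)) := by
      rw [Real.mul_iSup_of_nonneg (pow_nonneg hl.le e)]
      congr 1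
      funext w
      rw [heval, map_mul, map_pow]
    have h2 : (⨆ w, pAbs p τ (a w)) = pAbs p τ lam * ⨆ w, pAbs p τ (a0 w) := by
      rw [Real.mul_iSup_of_nonneg hl.le]
      congr 1
      funext w
      rw [ha_def, map_mul]
    rw [h1, h2, mul_pow]
    intro h
    exact hneq (mul_left_cancel₀ (pow_pos hl e).ne' h)
  have hDpos : 0 < D := lt_of_lt_of_le (Module.finrank_pos (R := ℚ) (M := L)) hD
  have hDr : (0 : ℝ) < D := by exact_mod_cast hDpos
  -- the data for `abs_htq_some`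
  let σ : Option (Fin e) → Type _ := fun j => j.elim (Option (Σ w : W, (g w).support)) fun _ => W
  have hσ : ∀ j, Finite (σ j) := by
    intro j
    cases j with
    | none => exact inferInstanceAs (Finite (Option (Σ w : W, (g w).support)))
    | some i => exact inferInstanceAs (Finite W)
  let A : ∀ j, σ j → E := fun j => match j with
    | none => agoodqCf g
    | some _ => a
  have hA : ∀ j, A j ≠ 0 := by
    intro j
    cases j with
    | none =>
      intro h
      have h2 : (1 : E) = 0 := congrFun h (none : Option (Σ w : W, (g w).support))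
      exact one_ne_zero h2
    | some i => exact ha
  have hAL : ∀ j i, A j i ∈ L := by
    intro j
    cases j with
    | none =>
      intro i
      change agoodqCf g i ∈ L
      cases i with
      | none => exact one_mem L
      | some s => exact hgL _ _
    | some i => exact haL
  have hprod : ∀ u : AbsoluteValue E ℝ, ∏ j, ⨆ i, u (A j i) =
      (⨆ s, u (agoodqCf g s)) * (⨆ w, u (a w)) ^ e := by
    intro u
    rw [Fintype.prod_option]
    simp only [A]
    congr 1
    simp [σ]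
  have hκ : ∀ u : AbsoluteValue E ℝ, 0 ≤ (⨆ w, u (a w)) ^ e := fun u =>
    pow_nonneg (Real.iSup_nonneg_of_nonnegHomClass u _) e
  set z : W → E := fun w => eval a (g w) with hz
  have hz0 : z ≠ 0 := by
    obtain ⟨w, hw⟩ := hne
    intro h
    exact hw (congrFun h w)
  have hzL : ∀ w, z w ∈ L := fun w => agoodq_eval_mem L (g w) (hgL w) a haL
  have hnonarch : ∀ (p : Nat.Primes) (τ : E →+* PadicAlgCl p),
      (⨆ k, pAbs p τ (z k)) ≤ ∏ j, ⨆ i, pAbs p τ (A j i) := by
    intro p τ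
    rw [hprod (pAbs p τ)]
    have hB := agoodq_cf_one g (pAbs p τ)
    refine Real.iSup_le (fun w => ?_) (mul_nonneg (zero_le_one.trans hB) (hκ _))
    refine ((pAbs_nonarch p τ).eval_mvPolynomial_le (hg w) a).trans ?_
    refine mul_le_mul_of_nonneg_right ?_ (hκ _)
    exact Real.iSup_le (fun s => agoodq_cf_coeff g _ w s.1 s.2) (zero_le_one.trans hB)
  have harch : ∀ s : E →+* ℂ, (⨆ k, ‖s (z k)‖) ≤ c * ∏ j, ⨆ i, ‖s (A j i)‖ := by
    intro s
    change (⨆ k, agoodqC s (z k)) ≤ c * ∏ j, ⨆ i, agoodqC s (A j i)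
    rw [hprod (agoodqC s)]
    have hB := agoodq_cf_one g (agoodqC s)
    have hB0 := zero_le_one.trans hB
    refine Real.iSup_le (fun w => ?_) (mul_nonneg hc0 (mul_nonneg hB0 (hκ _)))
    refine ((agoodqC s).eval_mvPolynomial_le (hg w) a).trans ?_
    rw [← mul_assoc]
    refine mul_le_mul_of_nonneg_right ?_ (hκ _)
    have h1 : (AddMonoidAlgebra.coeff (g w)).sum (fun _ c ↦ agoodqC s c) ≤
        ∑ _d ∈ (g w).support, ⨆ i, agoodqC s (agoodqCf g i) := by
      rw [Finsupp.sum]
      exact Finset.sum_le_sum fun d hd => agoodq_cf_coeff g _ w d hd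
    rw [Finset.sum_const, nsmul_eq_mul] at h1
    refine h1.trans (mul_le_mul_of_nonneg_right ?_ hB0)
    have h2 : ((g w).support.card : ℝ) ≤ ∑ w, ((g w).support.card : ℝ) :=
      Finset.single_le_sum (f := fun w => ((g w).support.card : ℝ))
        (fun w _ => Nat.cast_nonneg _) (Finset.mem_univ w)
    linarith
  obtain ⟨γ, hγ⟩ : ∃ γ : ℝ, γ = (1 / 2 : ℝ) ^ ((1 : ℝ) / D) := ⟨_, rfl⟩
  have hγ0 : 0 < γ := by rw [hγ]; positivity
  have hγ1 : γ ≤ 1 := by
    rw [hγ]
    exact Real.rpow_le_one (by norm_num) (by norm_num) (by positivity)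
  have hγlog : Real.log γ = -(Real.log 2 / D) := by
    rw [hγ, Real.log_rpow (by norm_num), one_div (2 : ℝ), Real.log_inv]
    ring
  have hγle : ∀ x : ℝ, 0 ≤ x → x ^ D ≤ 1 / 2 → x ≤ γ := by
    intro x hx h
    have h1 : x = (x ^ D) ^ ((1 : ℝ) / D) := by
      rw [one_div, Real.pow_rpow_inv_natCast hx hDpos.ne']
    rw [h1, hγ]
    exact Real.rpow_le_rpow (pow_nonneg hx D) h (by positivity)
  have hQb : ∀ p ∈ P, ∃ τ : E →+* PadicAlgCl p,
      (⨆ k, pAbs p τ (z k)) ≤ γ * ∏ j, ⨆ i, pAbs p τ (A j i) := by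
    intro p hp
    obtain ⟨τ, hint, hneq⟩ := hP p hp
    refine ⟨τ, ?_⟩
    rw [hprod (pAbs p τ)]
    have hB := agoodq_cf_one g (pAbs p τ)
    have hB0 := zero_le_one.trans hB
    obtain ⟨i0, hi0⟩ : ∃ i, a i ≠ 0 := Function.ne_iff.mp ha
    have : Nonempty W := ⟨i0⟩
    obtain ⟨w0, hw0⟩ := exists_eq_ciSup_of_finite (f := fun w => pAbs p τ (a w))
    have hpos : 0 < pAbs p τ (a w0) := by
      rw [hw0]
      exact ((pAbs p τ).pos hi0).trans_le (Finite.le_ciSup (fun w => pAbs p τ (a w)) i0)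
    have hle : ∀ w, pAbs p τ (z w) ≤ (⨆ w, pAbs p τ (a w)) ^ e := fun w =>
      agoodq_int (pAbs_nonarch p τ) (hg w) (hint w) a
    have hlt : (⨆ w, pAbs p τ (z w)) < (⨆ w, pAbs p τ (a w)) ^ e :=
      lt_of_le_of_ne (ciSup_le hle) hneq
    have hhalf : ∀ w, pAbs p τ (z w) ≤ γ * (⨆ w, pAbs p τ (a w)) ^ e := by
      intro w
      have hyL : z w / a w0 ^ e ∈ L := div_mem (hzL w) (pow_mem (haL w0) e)
      have h1 : pAbs p τ (z w / a w0 ^ e) < 1 := by
        rw [map_div₀, map_pow, div_lt_one (pow_pos hpos e), hw0]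
        exact (Finite.le_ciSup (fun w => pAbs p τ (z w)) w).trans_lt hlt
      have h2 := padic_disc p (τ (z w / a w0 ^ e)) D
        ((padic_deg L _ hyL p τ).trans hD) h1
      have hp2 : (2 : ℝ) ≤ (p : ℕ) := by exact_mod_cast p.2.two_le
      have h3 : (pAbs p τ (z w / a w0 ^ e)) ^ D ≤ 1 / 2 :=
        h2.trans (one_div_le_one_div_of_le (by norm_num) hp2)
      have h4 := hγle _ ((pAbs p τ).nonneg _) h3
      rw [map_div₀, map_pow, div_le_iff₀ (pow_pos hpos e), hw0] at h4
      exact h4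
    refine (ciSup_le hhalf).trans ?_
    refine mul_le_mul_of_nonneg_left ?_ hγ0.le
    calc (⨆ w, pAbs p τ (a w)) ^ e = 1 * (⨆ w, pAbs p τ (a w)) ^ e := (one_mul _).symm
      _ ≤ _ := mul_le_mul_of_nonneg_right hB (hκ _)
  have key := abs_htq_some L D hD z hz0 hzL A hA hAL c hc1 harch hnonarch P (fun _ => γ)
    (fun _ _ => ⟨hγ0, hγ1⟩) hQb
  rw [Finset.sum_const, nsmul_eq_mul, Fintype.sum_option, hγlog] at key
  have hA1 : absHeight (A none) = absHeight (agoodqCf g) := rfl
  have hA2 : ∑ i : Fin e, absHeight (A (some i)) = e * absHeight a := by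
    simp only [A]
    simp [σ]
  rw [hA1, hA2] at key
  have h0 := absHeight_nonneg z
  have h5 : (1 / (D : ℝ)) * ((P.card : ℝ) * -(Real.log 2 / D)) =
      -((P.card : ℝ) * Real.log 2) / D ^ 2 := by
    field_simp
  rw [h5] at key
  have h6 : (P.card : ℝ) * Real.log 2 / D ^ 2 ≤
      Real.log c + absHeight (agoodqCf g) + e * absHeight a := by
    rw [neg_div] at key
    linarith
  rw [div_le_iff₀ (by positivity)] at h6
  linarith

theorem agoodq {W T : Type*} [Fintype W] [Finite T] (e : ℕ)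
    (G : T → W → MvPolynomial W E) (hG : ∀ t w, (G t w).IsHomogeneous e) :
    ∃ C : ℝ, 0 ≤ C ∧ ∀ (L : IntermediateField ℚ E) [FiniteDimensional ℚ L] (D : ℕ),
      Module.finrank ℚ L ≤ D → (∀ t w d, (G t w).coeff d ∈ L) →
      ∀ (a : W → E) (t : T), a ≠ 0 → OverF L a → (∃ w, eval a (G t w) ≠ 0) →
      ∀ P : Finset Nat.Primes,
        (∀ p ∈ P, ∃ τ : E →+* PadicAlgCl p, (∀ w, IntPoly (pAbs p τ) (G t w)) ∧
          (⨆ w, pAbs p τ (eval a (G t w))) ≠ (⨆ w, pAbs p τ (a w)) ^ e) →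
        (P.card : ℝ) * Real.log 2 ≤ D ^ 2 * (C + e * absHeight a) := by
  have := Fintype.ofFinite T
  choose C hC0 hC using fun t => agoodq_one e (G t) (hG t)
  refine ⟨∑ t, C t, Finset.sum_nonneg fun t _ => hC0 t, ?_⟩
  intro L _ D hD hGL a t ha hover hne P hP
  have h1 := hC t L D hD (fun w d => hGL t w d) a ha hover hne P hP
  have h2 : C t ≤ ∑ t, C t := Finset.single_le_sum (fun t _ => hC0 t) (Finset.mem_univ t)
  refine h1.trans ?_
  have h3 : (0 : ℝ) ≤ D ^ 2 := by positivity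
  exact mul_le_mul_of_nonneg_left (by linarith) h3

end AgoodQ

end Pool.Agent.Helper63.WH
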