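import Pool.Agent.Helper63.WH.Alocdet

/-!
The local estimate for the determinant with finitely many residue classes.
-/

open MvPolynomial Filter Topology
open scoped LinearAlgebra.Projectivization

namespace Pool.Agent.Helper63.WH

open Pool.Agent.Helper90.KSC Pool.Agent.Helper63.SAND

private lemma alocal_int_mul {K W : Type*} [Field K] (v : AbsoluteValue K ℝ)
    (hv : IsNonarchimedean v) {P Q : MvPolynomial W K} (hP : IntPoly v P) (hQ : IntPoly v Q) :
    IntPoly v (P * Q) := by
  classical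
  intro d
  rw [coeff_mul]
  obtain ⟨x, -, hx⟩ := hv.finset_image_add_of_nonempty
    (fun x : (W →₀ ℕ) × (W →₀ ℕ) => coeff x.1 P * coeff x.2 Q)
    (t := Finset.HasAntidiagonal.antidiagonal d)
    ⟨(0, d), by simp⟩
  refine hx.trans ?_
  rw [map_mul]
  exact mul_le_one₀ (hP _) (v.nonneg _) (hQ _)

private lemma alocal_int_one {K W : Type*} [Field K] (v : AbsoluteValue K ℝ) :
    IntPoly v (1 : MvPolynomial W K) := by
  classical
  intro d
  rw [coeff_one]
  split_ifs <;> simp

private lemma alocal_int_pow {K W : Type*} [Field K] (v : AbsoluteValue K ℝ)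
    (hv : IsNonarchimedean v) {P : MvPolynomial W K} (hP : IntPoly v P) (n : ℕ) :
    IntPoly v (P ^ n) := by
  induction n with
  | zero => rw [pow_zero]; exact alocal_int_one v
  | succ n ih => rw [pow_succ]; exact alocal_int_mul v hv ih hP

private lemma alocal_eval_smul {K W : Type*} [Field K] {P : MvPolynomial W K} {n : ℕ}
    (hP : P.IsHomogeneous n) (κ : K) (u : W → K) :
    eval (fun w => κ * u w) P = κ ^ n * eval u P := by
  rw [eval_eq, eval_eq, Finset.mul_sum]
  refine Finset.sum_congr rfl fun d hd => ?_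
  have h1 : ∏ i ∈ d.support, κ ^ d i = κ ^ n := by
    rw [Finset.prod_pow_eq_pow_sum, ← Finsupp.degree_apply]
    congr 1
    have := hP (mem_support_iff.1 hd)
    rw [← this, Finsupp.degree_eq_weight_one]
    rfl
  simp_rw [mul_pow]
  rw [Finset.prod_mul_distrib, h1]
  ring

private lemma alocal_homog {K W : Type*} [Field K] (P : MvPolynomial W K) (l : ℕ)
    (hP : P.totalDegree ≤ l) (ws : W) :
    ∃ Q : MvPolynomial W K, Q.IsHomogeneous l ∧ ∀ (κ : K) (u : W → K), u ws = 1 →
      eval (fun w => κ * u w) Q = κ ^ l * eval u P := by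
  refine ⟨∑ i ∈ Finset.range (l + 1), homogeneousComponent i P * X ws ^ (l - i), ?_, ?_⟩
  · refine IsHomogeneous.sum _ _ _ fun i hi => ?_
    have hi' : i ≤ l := Nat.lt_succ_iff.1 (Finset.mem_range.1 hi)
    have h1 := (homogeneousComponent_isHomogeneous i P).mul ((isHomogeneous_X K ws).pow (l - i))
    rwa [one_mul, Nat.add_sub_cancel' hi'] at h1
  · intro κ u hu
    have hsum : ∑ i ∈ Finset.range (l + 1), homogeneousComponent i P = P := by
      conv_rhs => rw [← sum_homogeneousComponent P]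
      symm
      refine Finset.sum_subset (Finset.range_subset_range.2 (by omega)) fun i _ hi => ?_
      exact homogeneousComponent_eq_zero _ _ (by
        rw [Finset.mem_range] at hi; omega)
    conv_rhs => rw [← hsum]
    rw [map_sum, map_sum, Finset.mul_sum]
    refine Finset.sum_congr rfl fun i hi => ?_
    have hi' : i ≤ l := Nat.lt_succ_iff.1 (Finset.mem_range.1 hi)
    rw [map_mul, map_pow, eval_X, hu, mul_one,
      alocal_eval_smul (homogeneousComponent_isHomogeneous i P), mul_right_comm, ← pow_add,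
      Nat.add_sub_cancel' hi']

private lemma alocal_finrank {K : Type*} [Field K] {Ω W : Type*} [Fintype W] (a : Ω → W → K)
    (l s k : ℕ) (x : Fin s → Ω) (c : Fin s → Fin k) (ws : Fin k → W)
    (hne : ∀ j, a (x j) (ws (c j)) ≠ 0) (i : Fin k) :
    Module.finrank K (Submodule.span K {φ : Fin s → K | ∃ P : MvPolynomial W K,
      P.totalDegree < l + 1 ∧
        φ = fun j => if c j = i then eval (fun w => a (x j) w / a (x j) (ws (c j))) P else 0}) ≤
        hil a l := by
  classical
  let T : (Ω → K) →ₗ[K] (Fin s → K) :=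
    { toFun := fun φ j => if c j = i then (a (x j) (ws (c j)))⁻¹ ^ l * φ (x j) else 0
      map_add' := fun φ ψ => by
        ext j
        by_cases h : c j = i
        · simp [h, mul_add]
        · simp [h]
      map_smul' := fun t φ => by
        ext j
        by_cases h : c j = i
        · simp [h, mul_left_comm]
        · simp [h] }
  have hfin : Module.Finite K (formsOn a l) := by
    rw [Module.Finite.iff_fg, formsOn]
    exact (homogeneousSubmodule_fg (σ := W) (R := K) l).map _
  have hle : Submodule.span K {φ : Fin s → K | ∃ P : MvPolynomial W K,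
      P.totalDegree < l + 1 ∧
        φ = fun j => if c j = i then eval (fun w => a (x j) w / a (x j) (ws (c j))) P else 0} ≤
        (formsOn a l).map T := by
    rw [Submodule.span_le]
    rintro φ ⟨P, hP, rfl⟩
    obtain ⟨Q, hQ, hQe⟩ := alocal_homog P l (by omega) (ws i)
    refine ⟨fun y => eval (a y) Q, ⟨Q, hQ, ?_⟩, ?_⟩
    · ext y; simp [aeval_def, eval, eval₂]
    · ext j
      show (if c j = i then (a (x j) (ws (c j)))⁻¹ ^ l * eval (a (x j)) Q else 0) = _
      by_cases h : c j = i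
      · rw [if_pos h, if_pos h]
        have hne' := hne j
        rw [h] at hne' ⊢
        have h1 := hQe (a (x j) (ws i)) (fun w => a (x j) w / a (x j) (ws i)) (div_self hne')
        have h2 : (fun w => a (x j) (ws i) * (a (x j) w / a (x j) (ws i))) = a (x j) := by
          ext w; rw [mul_div_cancel₀ _ hne']
        rw [h2] at h1
        rw [h1, ← mul_assoc, ← mul_pow, inv_mul_cancel₀ hne', one_pow, one_mul]
      · rw [if_neg h, if_neg h]
  calc _ ≤ Module.finrank K ((formsOn a l).map T) := Submodule.finrank_mono hle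
    _ ≤ hil a l := Submodule.finrank_map_le _ _

theorem alocal {K : Type*} [Field K] {Ω W : Type*} [Fintype W] (v : AbsoluteValue K ℝ)
    (hv : IsNonarchimedean v) (ρ : ℝ) (hρ0 : 0 < ρ) (hρ1 : ρ ≤ 1) (a : Ω → W → K)
    (y : Ω → W → K) (e k : ℕ) (Y : Fin k → W → MvPolynomial W K)
    (hYh : ∀ i w, (Y i w).IsHomogeneous e) (hYi : ∀ i w, IntPoly v (Y i w)) (s : ℕ)
    (x : Fin s → Ω) (c : Fin s → Fin k)
    (hY : ∀ j, ∃ κ : K, ∀ w, eval (a (x j)) (Y (c j) w) = κ * y (x j) w)
    (ws : Fin k → W) (hne : ∀ j, a (x j) (ws (c j)) ≠ 0)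
    (hmax : ∀ j w, v (a (x j) w) ≤ v (a (x j) (ws (c j))))
    (hgood : ∀ j, (⨆ w, v (eval (a (x j)) (Y (c j) w))) = (⨆ w, v (a (x j) w)) ^ e)
    (hclose : ∀ i j, c i = c j → ∀ w,
      v (a (x i) w / a (x i) (ws (c i)) - a (x j) w / a (x j) (ws (c j))) ≤ ρ)
    (b₁ b : ℕ) (M : Fin s → MvPolynomial W K) (hMh : ∀ l, (M l).IsHomogeneous b₁)
    (hMi : ∀ l, IntPoly v (M l)) (i : Fin s → ℕ) (hi : ∀ l, i l ≤ b) (w₀ w₁ : W) (L : ℕ)
    (hL : 1 ≤ L) :
    v (Matrix.det (Matrix.of fun l j =>
      eval (a (x j)) (M l) * y (x j) w₀ ^ (b - i l) * y (x j) w₁ ^ i l)) ≤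
      ρ ^ (L * (s - k * hil a (L - 1))) *
        ∏ j, ((⨆ w, v (a (x j) w)) ^ b₁ * (⨆ w, v (y (x j) w)) ^ b) := by
  classical
  have : Nonempty W := ⟨w₀⟩
  choose d hd using hY
  obtain ⟨l, rfl⟩ : ∃ l, L = l + 1 := ⟨L - 1, by omega⟩
  set κ : Fin s → K := fun j => a (x j) (ws (c j)) with hκ
  set u : Fin s → W → K := fun j w => a (x j) w / κ j with hu
  have hau : ∀ j, (fun w => κ j * u j w) = a (x j) := fun j => by
    ext w; exact mul_div_cancel₀ _ (hne j)
  have hvκ : ∀ j, 0 < v (κ j) := fun j => v.pos (hne j)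
  have hsupa : ∀ j, (⨆ w, v (a (x j) w)) = v (κ j) := fun j =>
    le_antisymm (ciSup_le fun w => hmax j w) (Finite.le_ciSup_of_le (ws (c j)) le_rfl)
  -- the constants are not zero
  have hcv : ∀ j, v (d j) * (⨆ w, v (y (x j) w)) = v (κ j) ^ e := fun j => by
    rw [← hsupa, ← hgood j, Real.mul_iSup_of_nonneg (v.nonneg _)]
    simp_rw [hd j, map_mul]
  have hc0 : ∀ j, d j ≠ 0 := fun j h => by
    have := hcv j
    rw [h, map_zero, zero_mul] at this
    exact (pow_pos (hvκ j) e).ne this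
  set μ : Fin s → K := fun j => (d j)⁻¹ * κ j ^ e with hμ
  have hyμ : ∀ j w, y (x j) w = μ j * eval (u j) (Y (c j) w) := fun j w => by
    have h1 := hd j w
    rw [← hau j, alocal_eval_smul (hYh (c j) w)] at h1
    rw [hμ]
    show _ = (d j)⁻¹ * κ j ^ e * eval (u j) (Y (c j) w)
    rw [mul_assoc, h1, ← mul_assoc, inv_mul_cancel₀ (hc0 j), one_mul]
  have hvμ : ∀ j, v (μ j) = ⨆ w, v (y (x j) w) := fun j => by
    have h1 := hcv j
    have h2 : v (d j) ≠ 0 := (v.pos (hc0 j)).ne'
    rw [hμ]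
    show v ((d j)⁻¹ * κ j ^ e) = _
    rw [map_mul, map_inv₀, map_pow, ← h1, ← mul_assoc, inv_mul_cancel₀ h2, one_mul]
  set g : Fin k → Fin s → MvPolynomial W K :=
    fun t m => M m * Y t w₀ ^ (b - i m) * Y t w₁ ^ i m with hg
  have hgi : ∀ t m, IntPoly v (g t m) := fun t m =>
    alocal_int_mul v hv (alocal_int_mul v hv (hMi m) (alocal_int_pow v hv (hYi t w₀) _))
      (alocal_int_pow v hv (hYi t w₁) _)
  have hmat : (Matrix.of fun m j =>
      eval (a (x j)) (M m) * y (x j) w₀ ^ (b - i m) * y (x j) w₁ ^ i m) =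
      (Matrix.of fun m j => (κ j ^ b₁ * μ j ^ b) *
        (Matrix.of fun m j => eval (u j) (g (c j) m)) m j) := by
    ext m j
    show eval (a (x j)) (M m) * y (x j) w₀ ^ (b - i m) * y (x j) w₁ ^ i m =
      (κ j ^ b₁ * μ j ^ b) * eval (u j) (g (c j) m)
    rw [hyμ j w₀, hyμ j w₁, ← hau j, alocal_eval_smul (hMh m), hg]
    show _ = (κ j ^ b₁ * μ j ^ b) *
      eval (u j) (M m * Y (c j) w₀ ^ (b - i m) * Y (c j) w₁ ^ i m)
    rw [map_mul, map_mul, map_pow, map_pow]
    have : μ j ^ b = μ j ^ (b - i m) * μ j ^ i m := by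
      rw [← pow_add, Nat.sub_add_cancel (hi m)]
    rw [this]
    ring
  have hfin : ∀ t : Fin k, Module.finrank K (Submodule.span K {φ : Fin s → K |
      ∃ P : MvPolynomial W K, P.totalDegree < l + 1 ∧
        φ = fun j => if c j = t then eval (u j) P else 0}) ≤ hil a l :=
    fun t => alocal_finrank a l s k x c ws hne t
  have hu1 : ∀ j w, v (u j w) ≤ 1 := fun j w => by
    rw [hu]
    show v (a (x j) w / κ j) ≤ 1
    rw [map_div₀, div_le_one (hvκ j)]
    exact hmax j w
  have key := alocdet v hv ρ hρ0 hρ1 (l + 1) (hil a l) s k u c hu1 hclose g hgi hfin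
  rw [hmat, Matrix.det_mul_row, map_mul, map_prod, mul_comm, Nat.add_sub_cancel]
  have hprod : ∏ j, v (κ j ^ b₁ * μ j ^ b) =
      ∏ j, ((⨆ w, v (a (x j) w)) ^ b₁ * (⨆ w, v (y (x j) w)) ^ b) :=
    Finset.prod_congr rfl fun j _ => by
      rw [map_mul, map_pow, map_pow, hsupa, hvμ]
  rw [hprod]
  refine mul_le_mul_of_nonneg_right key ?_
  rw [← hprod]
  exact Finset.prod_nonneg fun j _ => v.nonneg _

end Pool.Agent.Helper63.WH
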