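import Pool.Agent.Helper63.WH.Defs
import Pool.Agent.Helper63.SAND.Class
import Pool.Agent.Helper63.SAND.Tay
import Pool.Agent.Helper63.SAND.Cram
import Pool.Agent.Helper63.SAND.Detx

/-!
Module ALOCDET: the determinant estimate for points in `k` classes.
-/

open MvPolynomial Filter Topology
open scoped LinearAlgebra.Projectivization

namespace Pool.Agent.Helper63.WH

open Pool.Agent.Helper90.KSC Pool.Agent.Helper63.SAND

private theorem alocdet_prod_le {K : Type*} [Field K] (v : AbsoluteValue K ℝ) {W : Type*}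
    [Fintype W] (ρ : ℝ) (hρ0 : 0 < ρ) (hρ1 : ρ ≤ 1) (y : W → K) (hy : ∀ w, v (y w) ≤ ρ)
    (β : W →₀ ℕ) (L : ℕ) (hL : L ≤ ∑ w, β w) : v (∏ w, y w ^ β w) ≤ ρ ^ L := by
  rw [map_prod]
  calc ∏ w, v (y w ^ β w) ≤ ∏ w, ρ ^ β w := by
        refine Finset.prod_le_prod (fun w _ => v.nonneg _) fun w _ => ?_
        rw [map_pow]
        exact pow_le_pow_left₀ (v.nonneg _) (hy w) _
    _ = ρ ^ ∑ w, β w := Finset.prod_pow_eq_pow_sum _ _ _
    _ ≤ ρ ^ L := pow_le_pow_of_le_one hρ0.le hρ1 hL

private theorem alocdet_sum_le {K : Type*} [Field K] (v : AbsoluteValue K ℝ)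
    (hv : IsNonarchimedean v) {ι : Type*} (t : Finset ι) (f : ι → K) (B : ℝ) (hB : 0 ≤ B)
    (hf : ∀ i ∈ t, v (f i) ≤ B) : v (∑ i ∈ t, f i) ≤ B := by
  classical
  induction t using Finset.induction_on with
  | empty => simpa using hB
  | insert a t ha ih =>
    rw [Finset.sum_insert ha]
    exact (hv _ _).trans (max_le (hf a (Finset.mem_insert_self a t))
      (ih fun i hi => hf i (Finset.mem_insert_of_mem hi)))

private theorem alocdet_deg {K : Type*} [Field K] {W : Type*} [Fintype W] (u₀ : W → K)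
    (β : W →₀ ℕ) : (∏ w, (X w - C (u₀ w) : MvPolynomial W K) ^ β w).totalDegree ≤ ∑ w, β w := by
  refine (totalDegree_finsetProd _ _).trans (Finset.sum_le_sum fun w _ => ?_)
  refine (totalDegree_pow _ _).trans ?_
  have h1 : (X w - C (u₀ w) : MvPolynomial W K).totalDegree ≤ 1 := by
    refine (totalDegree_sub _ _).trans (max_le ?_ ?_)
    · rw [totalDegree_X]
    · rw [totalDegree_C]; exact zero_le_one
  calc β w * (X w - C (u₀ w) : MvPolynomial W K).totalDegree ≤ β w * 1 := Nat.mul_le_mul le_rfl h1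
    _ = β w := mul_one _

theorem alocdet {K : Type*} [Field K] (v : AbsoluteValue K ℝ) (hv : IsNonarchimedean v)
    {W : Type*} [Fintype W] (ρ : ℝ) (hρ0 : 0 < ρ) (hρ1 : ρ ≤ 1) (L q s k : ℕ)
    (u : Fin s → W → K) (c : Fin s → Fin k) (hu : ∀ j w, v (u j w) ≤ 1)
    (huu : ∀ i j, c i = c j → ∀ w, v (u i w - u j w) ≤ ρ)
    (g : Fin k → Fin s → MvPolynomial W K) (hg : ∀ i l, IntPoly v (g i l))
    (hq : ∀ i : Fin k, Module.finrank K (Submodule.span K {φ : Fin s → K |
      ∃ P : MvPolynomial W K, P.totalDegree < L ∧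
        φ = fun j => if c j = i then eval (u j) P else 0}) ≤ q) :
    v (Matrix.det (Matrix.of fun l j => eval (u j) (g (c j) l))) ≤ ρ ^ (L * (s - k * q)) := by
  classical
  -- base points of the classes
  have hbase : ∀ i : Fin k, ∃ u₀ : W → K, (∀ w, v (u₀ w) ≤ 1) ∧
      ∀ j, c j = i → ∀ w, v (u j w - u₀ w) ≤ ρ := by
    intro i
    by_cases h : ∃ j, c j = i
    · obtain ⟨j₀, hj₀⟩ := h
      exact ⟨u j₀, hu j₀, fun j hj => huu j j₀ (hj.trans hj₀.symm)⟩
    · push Not at h
      exact ⟨0, fun w => by simp, fun j hj => absurd hj (h j)⟩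
  choose u₀ hu₀ hclose using hbase
  -- Taylor expansions
  have htay : ∀ (i : Fin k) (l : Fin s), ∃ a : (W →₀ ℕ) →₀ K, (∀ β, v (a β) ≤ 1) ∧
      ∀ y : W → K, eval y (g i l) = ∑ β ∈ a.support, a β * ∏ w, (y w - u₀ i w) ^ β w :=
    fun i l => tay v hv (u₀ i) (hu₀ i) (g i l) (hg i l)
  choose a ha hae using htay
  -- the finite set of small exponents
  set B : Finset (W →₀ ℕ) := (Finset.univ.biUnion fun x : Fin k × Fin s =>
    (a x.1 x.2).support).filter fun β => ∑ w, β w < L with hB
  set F : Fin k → (W →₀ ℕ) → (Fin s → K) := fun i β j =>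
    if c j = i then ∏ w, (u j w - u₀ i w) ^ β w else 0 with hF
  set F' : Fin k → Fin B.card → (Fin s → K) := fun i m => F i (B.equivFin.symm m).1 with hF'
  have hcram : ∀ i : Fin k, ∃ G : Fin q → (Fin s → K), (∀ l, G l = 0 ∨ ∃ m, G l = F' i m) ∧
      ∀ m, ∃ d : Fin q → K, (∀ l, v (d l) ≤ 1) ∧ F' i m = ∑ l, d l • G l := by
    intro i
    refine cram v s q B.card (F' i) (le_trans (Submodule.finrank_mono ?_) (hq i))
    rw [Submodule.span_le]
    rintro _ ⟨m, rfl⟩
    refine Submodule.subset_span ⟨∏ w, (X w - C (u₀ i w) : MvPolynomial W K) ^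
      ((B.equivFin.symm m).1) w, ?_, ?_⟩
    · refine lt_of_le_of_lt (alocdet_deg _ _) ?_
      exact (Finset.mem_filter.1 (B.equivFin.symm m).2).2
    · funext j
      simp only [F', F]
      split_ifs
      · rw [map_prod]
        refine Finset.prod_congr rfl fun w _ => ?_
        rw [map_pow, map_sub, eval_X, eval_C]
      · rfl
  choose G hG hGd using hcram
  choose d hd hFd using hGd
  have hGv : ∀ i m j, v (G i m j) ≤ 1 := by
    intro i m j
    rcases hG i m with h | ⟨m', h⟩
    · rw [h]; simp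
    · rw [h]
      simp only [F', F]
      split_ifs with hj
      · have := alocdet_prod_le v ρ hρ0 hρ1 (fun w => u j w - u₀ i w) (hclose i j hj)
          ((B.equivFin.symm m').1) 0 (Nat.zero_le _)
        simpa using this
      · simp
  have hG0 : ∀ i m j, c j ≠ i → G i m j = 0 := by
    intro i m j hj
    rcases hG i m with h | ⟨m', h⟩
    · rw [h]; rfl
    · rw [h]
      simp [F', F, hj]
  -- coefficients of the small exponents
  set e : Fin k → (W →₀ ℕ) → Fin q → K := fun i β m =>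
    if h : β ∈ B then d i (B.equivFin ⟨β, h⟩) m else 0 with he
  have hev : ∀ i β m, v (e i β m) ≤ 1 := by
    intro i β m
    simp only [e]
    split_ifs with h
    · exact hd i _ m
    · simp
  have hFe : ∀ i β, β ∈ B → ∀ j, F i β j = ∑ m, e i β m * G i m j := by
    intro i β hβ j
    have h1 := congrFun (hFd i (B.equivFin ⟨β, hβ⟩)) j
    have h2 : F' i (B.equivFin ⟨β, hβ⟩) j = F i β j := by simp [F']
    rw [← h2, h1, Finset.sum_apply]
    refine Finset.sum_congr rfl fun m _ => ?_
    simp [e, hβ]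
  -- the decomposition of the matrix
  set Z : Matrix (Fin s) (Fin s) K := Matrix.of fun l j =>
    ∑ β ∈ (a (c j) l).support.filter (fun β => ¬ ∑ w, β w < L),
      a (c j) l β * ∏ w, (u j w - u₀ (c j) w) ^ β w with hZ
  set Cm : Matrix (Fin s) (Fin (k * q)) K := Matrix.of fun l x =>
    ∑ β ∈ (a (finProdFinEquiv.symm x).1 l).support.filter (fun β => ∑ w, β w < L),
      a (finProdFinEquiv.symm x).1 l β *
        e (finProdFinEquiv.symm x).1 β (finProdFinEquiv.symm x).2 with hCm
  set Gm : Matrix (Fin (k * q)) (Fin s) K := Matrix.of fun x j =>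
    G (finProdFinEquiv.symm x).1 (finProdFinEquiv.symm x).2 j with hGm
  have hM : (Matrix.of fun l j => eval (u j) (g (c j) l) : Matrix (Fin s) (Fin s) K) =
      Cm * Gm + Z := by
    ext l j
    rw [Matrix.add_apply, Matrix.mul_apply]
    simp only [Cm, Gm, Z, Matrix.of_apply]
    rw [hae (c j) l (u j), ← Finset.sum_filter_add_sum_filter_not (a (c j) l).support
      (fun β => ∑ w, β w < L)]
    congr 1
    rw [← Equiv.sum_comp finProdFinEquiv]
    simp only [Equiv.symm_apply_apply]
    rw [Fintype.sum_prod_type, Finset.sum_eq_single (c j)]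
    · simp only [Finset.sum_mul]
      rw [Finset.sum_comm]
      refine Finset.sum_congr rfl fun β hβ => ?_
      have hβB : β ∈ B := by
        rw [hB, Finset.mem_filter]
        refine ⟨Finset.mem_biUnion.2 ⟨(c j, l), Finset.mem_univ _, (Finset.mem_filter.1 hβ).1⟩,
          (Finset.mem_filter.1 hβ).2⟩
      have h1 := hFe (c j) β hβB j
      simp only [F, if_true] at h1
      rw [h1, Finset.mul_sum]
      exact Finset.sum_congr rfl fun m _ => by ring
    · intro i _ hi
      refine Finset.sum_eq_zero fun m _ => ?_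
      rw [hG0 i m j (Ne.symm hi), mul_zero]
    · intro h; exact absurd (Finset.mem_univ _) h
  have hfin := detx v hv s (k * q) _ Z Cm Gm (ρ ^ L) (pow_nonneg hρ0.le _)
    (pow_le_one₀ hρ0.le hρ1) ?_ ?_ ?_ hM
  · rwa [← pow_mul] at hfin
  · intro l x
    simp only [Cm, Matrix.of_apply]
    refine alocdet_sum_le v hv _ _ 1 zero_le_one fun β _ => ?_
    rw [map_mul]
    exact mul_le_one₀ (ha _ _ _) (v.nonneg _) (hev _ _ _)
  · intro x j
    exact hGv _ _ _
  · intro l j
    simp only [Z, Matrix.of_apply]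
    refine alocdet_sum_le v hv _ _ _ (pow_nonneg hρ0.le _) fun β hβ => ?_
    rw [map_mul]
    have h1 := alocdet_prod_le v ρ hρ0 hρ1 (fun w => u j w - u₀ (c j) w) (hclose (c j) j rfl) β L
      (not_lt.1 (Finset.mem_filter.1 hβ).2)
    calc v (a (c j) l β) * v (∏ w, (u j w - u₀ (c j) w) ^ β w) ≤ 1 * ρ ^ L :=
          mul_le_mul (ha _ _ _) h1 (v.nonneg _) zero_le_one
      _ = ρ ^ L := one_mul _

end Pool.Agent.Helper63.WH
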