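import Pool.Agent.Helper63.WH.Brf

/-!
The height of a vector over a number field in terms of embeddings.
-/

open MvPolynomial Filter Topology
open scoped LinearAlgebra.Projectivization

namespace Pool.Agent.Helper63.WH

open Pool.Agent.Helper90.KSC Pool.Agent.Helper63.SAND

/-- The supremum of the absolute values of the coordinates is positive. -/
private theorem br_sup_ne {L : Type*} [Field L] {κ : Type*} [Finite κ] (v : AbsoluteValue L ℝ)
    (z : κ → L) (hz : z ≠ 0) : (⨆ i, v (z i)) ≠ 0 := by
  obtain ⟨i, hi⟩ := Function.ne_iff.1 hz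
  have h1 : 0 < v (z i) := v.pos hi
  have h2 : v (z i) ≤ ⨆ i, v (z i) :=
    le_ciSup (f := fun i => v (z i)) (Set.finite_range _).bddAbove i
  exact (h1.trans_le h2).ne'

open Height.AdmissibleAbsValues in
theorem logHeight_eq_emb {L : Type*} [Field L] [NumberField L] {κ : Type*} [Finite κ]
    (z : κ → L) (hz : z ≠ 0) : Height.logHeight z = embHeight z := by
  classical
  unfold embHeight
  rw [← br_fin z hz]
  have h1 := Height.mulHeight_ne_zero z
  rw [Height.logHeight_eq_log_mulHeight, Height.mulHeight_eq hz]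
  rw [Height.mulHeight_eq hz] at h1
  rw [Real.log_mul (left_ne_zero_of_mul h1) (right_ne_zero_of_mul h1), add_comm]
  congr 1
  rw [NumberField.prod_archAbsVal_eq (fun v : AbsoluteValue L ℝ => ⨆ i, v (z i)),
    Real.log_prod (fun v _ => pow_ne_zero _ (br_sup_ne v.val z hz))]
  have h2 : ∀ s : L →+* ℂ, Real.log (⨆ i, ‖s (z i)‖) =
      Real.log (⨆ i, (NumberField.InfinitePlace.mk s).val (z i)) := by
    intro s
    rfl
  simp only [h2]
  rw [← Finset.sum_fiberwise (s := Finset.univ)
    (g := fun s : L →+* ℂ => NumberField.InfinitePlace.mk s)]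
  refine Finset.sum_congr rfl fun v _ => ?_
  rw [Real.log_pow]
  have h3 : ∀ s ∈ Finset.univ.filter (fun s : L →+* ℂ => NumberField.InfinitePlace.mk s = v),
      Real.log (⨆ i, (NumberField.InfinitePlace.mk s).val (z i)) =
        Real.log (⨆ i, v.val (z i)) := by
    intro s hs
    rw [Finset.mem_filter] at hs
    rw [hs.2]
  rw [Finset.sum_congr rfl h3, Finset.sum_const, nsmul_eq_mul,
    NumberField.InfinitePlace.card_filter_mk_eq]

end Pool.Agent.Helper63.WH
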