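import Pool.Agent.Helper63.WH.Pint
import Pool.Agent.Helper63.SAND.Class

/-!
The finite part of the height as a sum over embeddings into the algebraic closures of the `p`-adic
numbers.
-/

open MvPolynomial Filter Topology
open scoped LinearAlgebra.Projectivization

namespace Pool.Agent.Helper63.WH

open Pool.Agent.Helper90.KSC Pool.Agent.Helper63.SAND

/-! ### Nonarchimedean absolute values and integers -/

theorem brf_sum_lt {L : Type*} [Field L] (v : AbsoluteValue L ℝ) (hv : IsNonarchimedean v)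
    {ι : Type*} (s : Finset ι) (f : ι → L) (hf : ∀ i ∈ s, v (f i) < 1) : v (∑ i ∈ s, f i) < 1 := by
  classical
  induction s using Finset.induction_on with
  | empty => simp
  | insert i s hi ih =>
    rw [Finset.sum_insert hi]
    exact (hv _ _).trans_lt (max_lt (hf i (Finset.mem_insert_self i s))
      (ih fun j hj => hf j (Finset.mem_insert_of_mem hj)))

theorem brf_int {L : Type*} [Field L] (v : AbsoluteValue L ℝ) (hv : IsNonarchimedean v)
    {x : L} (hx : IsIntegral ℤ x) : v x ≤ 1 := by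
  by_contra hlt
  push Not at hlt
  obtain ⟨P, hP, hPx⟩ := hx
  have hx0 : x ≠ 0 := by
    rintro rfl
    rw [map_zero] at hlt
    linarith
  have h1 : P.sum (fun i a => (a : L) * x ^ i) = 0 := by
    rw [Polynomial.eval₂_eq_sum] at hPx
    simpa using hPx
  rw [Polynomial.sum_over_range _ (by simp), Finset.sum_range_succ, hP.coeff_natDegree,
    Int.cast_one, one_mul] at h1
  have h2 : ∑ i ∈ Finset.range P.natDegree, (-(P.coeff i : L)) * (x⁻¹) ^ (P.natDegree - i) = 1 := by
    have h3 : ∑ i ∈ Finset.range P.natDegree, (-(P.coeff i : L)) * (x⁻¹) ^ (P.natDegree - i) =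
        (-∑ i ∈ Finset.range P.natDegree, (P.coeff i : L) * x ^ i) * (x⁻¹) ^ P.natDegree := by
      rw [← Finset.sum_neg_distrib, Finset.sum_mul]
      refine Finset.sum_congr rfl fun i hi => ?_
      rw [Finset.mem_range] at hi
      have h4 : (x⁻¹) ^ P.natDegree = (x⁻¹) ^ i * (x⁻¹) ^ (P.natDegree - i) := by
        rw [← pow_add]
        congr 1
        omega
      rw [h4]
      have h5 : x ^ i * (x⁻¹) ^ i = 1 := by
        rw [← mul_pow, mul_inv_cancel₀ hx0, one_pow]
      calc -(P.coeff i : L) * x⁻¹ ^ (P.natDegree - i)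
          = -(P.coeff i : L) * x⁻¹ ^ (P.natDegree - i) * (x ^ i * (x⁻¹) ^ i) := by
            rw [h5, mul_one]
        _ = _ := by ring
    rw [h3, show -∑ i ∈ Finset.range P.natDegree, (P.coeff i : L) * x ^ i = x ^ P.natDegree from
      neg_eq_of_add_eq_zero_right h1, ← mul_pow, mul_inv_cancel₀ hx0, one_pow]
  have h3 := brf_sum_lt v hv (Finset.range P.natDegree)
    (fun i => (-(P.coeff i : L)) * (x⁻¹) ^ (P.natDegree - i)) (by
      intro i hi
      rw [Finset.mem_range] at hi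
      rw [map_mul, map_pow, map_inv₀, AbsoluteValue.map_neg]
      have h4 : v (P.coeff i : L) ≤ 1 := hv.apply_intCast_le_one
      have h5 : (v x)⁻¹ < 1 := inv_lt_one_of_one_lt₀ hlt
      have h6 : 0 ≤ (v x)⁻¹ := inv_nonneg.2 (v.nonneg x)
      have h7 : (v x)⁻¹ ^ (P.natDegree - i) < 1 := pow_lt_one₀ h6 h5 (by omega)
      calc v (P.coeff i : L) * (v x)⁻¹ ^ (P.natDegree - i)
          ≤ 1 * (v x)⁻¹ ^ (P.natDegree - i) :=
            mul_le_mul_of_nonneg_right h4 (pow_nonneg h6 _)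
        _ < 1 := by rw [one_mul]; exact h7)
  rw [h2, map_one] at h3
  exact lt_irrefl _ h3

/-- Coercions of integers of a field. -/
theorem brf_cmul {L : Type*} [Field L] (a b : NumberField.RingOfIntegers L) :
    ((a * b : NumberField.RingOfIntegers L) : L) = (a : L) * (b : L) := rfl

theorem brf_cadd {L : Type*} [Field L] (a b : NumberField.RingOfIntegers L) :
    ((a + b : NumberField.RingOfIntegers L) : L) = (a : L) + (b : L) := rfl

theorem brf_cpow {L : Type*} [Field L] (a : NumberField.RingOfIntegers L) (n : ℕ) :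
    ((a ^ n : NumberField.RingOfIntegers L) : L) = (a : L) ^ n :=
  map_pow (algebraMap (NumberField.RingOfIntegers L) L) a n

/-- The ideal of the integers of absolute value at most `t`. -/
def brfB {L : Type*} [Field L] (v : AbsoluteValue L ℝ) (hv : IsNonarchimedean v)
    (t : ℝ) (ht : 0 ≤ t) : Ideal (NumberField.RingOfIntegers L) where
  carrier := {x | v (x : L) ≤ t}
  zero_mem' := by simpa using ht
  add_mem' := by
    intro a b ha hb
    show v (((a + b : NumberField.RingOfIntegers L)) : L) ≤ t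
    rw [brf_cadd]
    exact (hv _ _).trans (max_le ha hb)
  smul_mem' := by
    intro c x hx
    show v (((c • x : NumberField.RingOfIntegers L)) : L) ≤ t
    rw [smul_eq_mul, brf_cmul, map_mul]
    have h1 : v (c : L) ≤ 1 := brf_int v hv c.isIntegral_coe
    calc v (c : L) * v (x : L) ≤ 1 * t := mul_le_mul h1 hx (v.nonneg _) zero_le_one
      _ = t := one_mul t

theorem brf_pow_le {L : Type*} [Field L] (v : AbsoluteValue L ℝ) (hv : IsNonarchimedean v)
    (s : ℝ) (hs : 0 ≤ s) (I : Ideal (NumberField.RingOfIntegers L)) (hI : I ≤ brfB v hv s hs)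
    (h : ℕ) : I ^ h ≤ brfB v hv (s ^ h) (pow_nonneg hs h) := by
  induction h with
  | zero =>
    intro x _
    show v (x : L) ≤ s ^ 0
    rw [pow_zero]
    exact brf_int v hv x.isIntegral_coe
  | succ h ih =>
    rw [pow_succ, Ideal.mul_le]
    intro r hr t ht
    show v (((r * t : NumberField.RingOfIntegers L)) : L) ≤ s ^ (h + 1)
    rw [brf_cmul, map_mul, pow_succ]
    exact mul_le_mul (ih hr) (hI ht) (v.nonneg _) (pow_nonneg hs h)

/-- The class group trick: a power of the supremum of the coordinates is the absolute value of an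
element of the field, for all nonarchimedean absolute values. -/
theorem brf_key {L : Type*} [Field L] [NumberField L] {κ : Type*} [Finite κ] (z : κ → L)
    (hz : z ≠ 0) : ∃ (h : ℕ) (β : L), h ≠ 0 ∧ β ≠ 0 ∧
      ∀ v : AbsoluteValue L ℝ, IsNonarchimedean v → (⨆ i, v (z i)) ^ h = v β := by
  classical
  obtain ⟨b, hb⟩ := IsLocalization.exist_integer_multiples_of_finite
    (nonZeroDivisors (NumberField.RingOfIntegers L)) z
  choose w hw using hb
  have hb0 : ((b : NumberField.RingOfIntegers L) : L) ≠ 0 := by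
    have := nonZeroDivisors.coe_ne_zero b
    simp
  have hw' : ∀ i, (w i : L) = ((b : NumberField.RingOfIntegers L) : L) * z i := by
    intro i
    have := hw i
    rw [Algebra.smul_def] at this
    exact this
  obtain ⟨i₀, hi₀⟩ := Function.ne_iff.1 hz
  have hw0 : w i₀ ≠ 0 := by
    intro h
    have h1 := hw' i₀
    have h1' : ((w i₀ : NumberField.RingOfIntegers L) : L) = 0 := by
      rw [h]
      exact map_zero (algebraMap (NumberField.RingOfIntegers L) L)
    rw [h1'] at h1
    rcases mul_eq_zero.1 h1.symm with h2 | h2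
    · exact hb0 h2
    · exact hi₀ h2
  set I : Ideal (NumberField.RingOfIntegers L) := Ideal.span (Set.range w) with hI
  have hI0 : I ≠ ⊥ := by
    intro h
    have h1 : w i₀ ∈ I := Ideal.subset_span (Set.mem_range_self i₀)
    rw [h, Ideal.mem_bot] at h1
    exact hw0 h1
  set h := Fintype.card (ClassGroup (NumberField.RingOfIntegers L)) with hh
  have hh0 : h ≠ 0 := Fintype.card_ne_zero
  have hIh : I ^ h ∈ nonZeroDivisors (Ideal (NumberField.RingOfIntegers L)) :=
    pow_mem (mem_nonZeroDivisors_of_ne_zero hI0) h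
  have hprin : (I ^ h).IsPrincipal := by
    rw [← ClassGroup.mk0_eq_one_iff hIh]
    have h1 : (⟨I ^ h, hIh⟩ : nonZeroDivisors (Ideal (NumberField.RingOfIntegers L))) =
        ⟨I, mem_nonZeroDivisors_of_ne_zero hI0⟩ ^ h := rfl
    rw [h1, map_pow, hh, pow_card_eq_one]
  obtain ⟨α, hα⟩ := hprin
  have hα' : I ^ h = Ideal.span {α} := hα
  have hα0 : α ≠ 0 := by
    rintro rfl
    have h1 : (w i₀) ^ h ∈ I ^ h := Ideal.pow_mem_pow (Ideal.subset_span (Set.mem_range_self i₀)) h
    rw [hα', Ideal.span_singleton_eq_bot.2 rfl, Ideal.mem_bot] at h1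
    exact hw0 (pow_eq_zero_iff hh0 |>.1 h1)
  have hα0' : (α : L) ≠ 0 := by simpa using hα0
  refine ⟨h, (α : L) / ((b : NumberField.RingOfIntegers L) : L) ^ h, hh0,
    div_ne_zero hα0' (pow_ne_zero _ hb0), ?_⟩
  intro v hv
  have hne : Nonempty κ := ⟨i₀⟩
  set s : ℝ := ⨆ i, v (w i : L) with hs
  have hbdd : BddAbove (Set.range fun i => v (w i : L)) := (Set.finite_range _).bddAbove
  have hs0 : 0 ≤ s := (v.nonneg _).trans (le_ciSup hbdd i₀)
  have hsup : s = v ((b : NumberField.RingOfIntegers L) : L) * ⨆ i, v (z i) := by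
    rw [hs, Real.mul_iSup_of_nonneg (v.nonneg _)]
    congr 1
    funext i
    rw [hw' i, map_mul]
  have hle : v (α : L) ≤ s ^ h := by
    have h1 : I ≤ brfB v hv s hs0 := by
      rw [hI, Ideal.span_le]
      rintro _ ⟨i, rfl⟩
      exact le_ciSup hbdd i
    have h2 := brf_pow_le v hv s hs0 I h1 h
    have h3 : α ∈ I ^ h := by
      rw [hα']
      exact Ideal.mem_span_singleton_self α
    exact h2 h3
  have hge : s ^ h ≤ v (α : L) := by
    obtain ⟨i, hi⟩ := exists_eq_ciSup_of_finite (f := fun i => v (w i : L))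
    have h1 : (w i) ^ h ∈ I ^ h := Ideal.pow_mem_pow (Ideal.subset_span (Set.mem_range_self i)) h
    rw [hα', Ideal.mem_span_singleton] at h1
    obtain ⟨r, hr⟩ := h1
    have h2 : v (w i : L) ^ h = v (α : L) * v (r : L) := by
      rw [← map_pow, ← map_mul, ← brf_cpow, ← brf_cmul, hr]
    rw [hs, ← hi, h2]
    calc v (α : L) * v (r : L) ≤ v (α : L) * 1 :=
          mul_le_mul_of_nonneg_left (brf_int v hv r.isIntegral_coe) (v.nonneg _)
      _ = v (α : L) := mul_one _
  have hbv : v ((b : NumberField.RingOfIntegers L) : L) ≠ 0 := by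
    rw [ne_eq, AbsoluteValue.eq_zero]
    exact hb0
  rw [map_div₀, map_pow, ← le_antisymm hge hle, hsup, mul_pow,
    mul_div_cancel_left₀ _ (pow_ne_zero _ hbv)]

/-! ### Rational numbers -/

theorem brf_nat {n : ℕ} (hn : n ≠ 0) :
    (Function.support fun p : Nat.Primes => Real.log ‖(n : ℚ_[p])‖) ⊆
        ((Finset.subtype Nat.Prime n.primeFactors : Finset {p : ℕ // p.Prime}) :
          Set {p : ℕ // p.Prime}) ∧
      ∑ᶠ p : Nat.Primes, Real.log ‖(n : ℚ_[p])‖ = -Real.log n := by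
  have h0 : ∀ p : Nat.Primes, Real.log ‖(n : ℚ_[p])‖ =
      -((n.factorization p : ℝ) * Real.log (p : ℕ)) := by
    intro p
    have hn' : (n : ℚ_[p]) ≠ 0 := Nat.cast_ne_zero.2 hn
    rw [Padic.norm_eq_zpow_neg_valuation hn', Padic.valuation_natCast, Real.log_zpow,
      Nat.factorization_def n p.2, Int.cast_neg, Int.cast_natCast, neg_mul]
  have h1 : (Function.support fun p : Nat.Primes => Real.log ‖(n : ℚ_[p])‖) ⊆
      ((Finset.subtype Nat.Prime n.primeFactors : Finset {p : ℕ // p.Prime}) :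
        Set {p : ℕ // p.Prime}) := by
    intro p hp
    rw [Function.mem_support, h0] at hp
    show p ∈ (Finset.subtype Nat.Prime n.primeFactors : Finset {p : ℕ // p.Prime})
    refine Finset.mem_subtype.2 ?_
    by_contra h2
    apply hp
    rw [← Nat.support_factorization, Finsupp.notMem_support_iff] at h2
    rw [h2]
    simp
  refine ⟨h1, ?_⟩
  rw [finsum_eq_sum_of_support_subset _ h1, Real.log_nat_eq_sum_factorization, Finsupp.sum,
    Nat.support_factorization, ← Finset.sum_neg_distrib]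
  simp only [h0]
  exact Finset.sum_subtype_of_mem (fun p => -((n.factorization p : ℝ) * Real.log p))
    fun p hp => Nat.prime_of_mem_primeFactors hp

theorem brf_rat {q : ℚ} (hq : q ≠ 0) :
    ∑ᶠ p : Nat.Primes, Real.log ‖(q : ℚ_[p])‖ = -Real.log |(q : ℝ)| := by
  have hnum : q.num.natAbs ≠ 0 := Int.natAbs_ne_zero.2 (Rat.num_ne_zero.2 hq)
  have hden : q.den ≠ 0 := q.den_nz
  obtain ⟨s1, e1⟩ := brf_nat hnum
  obtain ⟨s2, e2⟩ := brf_nat hden
  have h1 : ∀ p : Nat.Primes, Real.log ‖(q : ℚ_[p])‖ =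
      Real.log ‖((q.num.natAbs : ℕ) : ℚ_[p])‖ - Real.log ‖((q.den : ℕ) : ℚ_[p])‖ := by
    intro p
    have h2 : (q : ℚ_[p]) = (q.num : ℚ_[p]) / ((q.den : ℕ) : ℚ_[p]) := by
      conv_lhs => rw [← Rat.num_div_den q]
      push_cast
      rfl
    have h3 : ‖(q.num : ℚ_[p])‖ = ‖((q.num.natAbs : ℕ) : ℚ_[p])‖ := by
      rcases Int.natAbs_eq q.num with h | h
      · conv_lhs => rw [h]
        rw [Int.cast_natCast]
      · conv_lhs => rw [h]
        rw [Int.cast_neg, Int.cast_natCast, norm_neg]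
    have h4 : ‖((q.num.natAbs : ℕ) : ℚ_[p])‖ ≠ 0 := by
      rw [norm_ne_zero_iff]
      exact_mod_cast hnum
    have h5 : ‖((q.den : ℕ) : ℚ_[p])‖ ≠ 0 := by
      rw [norm_ne_zero_iff]
      exact_mod_cast hden
    rw [h2, norm_div, h3, Real.log_div h4 h5]
  simp only [h1]
  rw [finsum_sub_distrib (Set.Finite.subset (Finset.finite_toSet _) s1)
    (Set.Finite.subset (Finset.finite_toSet _) s2), e1, e2]
  have h6 : |(q : ℝ)| = (q.num.natAbs : ℝ) / (q.den : ℝ) := by
    conv_lhs => rw [← Rat.num_div_den q]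
    rw [Rat.cast_div, abs_div]
    congr 1
    · rw [Rat.cast_intCast, Nat.cast_natAbs, Int.cast_abs]
    · rw [Rat.cast_natCast, Nat.abs_cast]
  rw [h6, Real.log_div (by exact_mod_cast hnum) (by exact_mod_cast hden)]
  ring

/-! ### Elements -/

theorem brf_emb {L : Type*} [Field L] [NumberField L] (x : L) (hx : x ≠ 0) (p : Nat.Primes) :
    ∑ τ : L →+* PadicAlgCl p, Real.log ‖τ x‖ =
      Real.log ‖((Algebra.norm ℚ x : ℚ) : ℚ_[p])‖ := by
  rw [← Real.log_prod fun τ _ => by rw [norm_ne_zero_iff]; simpa using hx, ← norm_prod]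
  have h1 := Algebra.norm_eq_prod_embeddings ℚ (PadicAlgCl p) x
  have h2 : ∏ τ : L →+* PadicAlgCl p, τ x = ∏ σ : L →ₐ[ℚ] PadicAlgCl p, σ x :=
    Fintype.prod_equiv (RingHom.equivRatAlgHom L (PadicAlgCl p)) _ _ fun τ => rfl
  rw [h2, ← h1]
  have h3 : algebraMap ℚ (PadicAlgCl p) (Algebra.norm ℚ x) =
      algebraMap ℚ_[p] (PadicAlgCl p) ((Algebra.norm ℚ x : ℚ) : ℚ_[p]) := by
    rw [map_ratCast, eq_ratCast]
  rw [h3, PadicAlgCl.norm_extends]

open Height.AdmissibleAbsValues in
theorem brf_elt {L : Type*} [Field L] [NumberField L] (x : L) (hx : x ≠ 0) :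
    Real.log (∏ᶠ v : nonarchAbsVal (K := L), v.val x) =
      ∑ᶠ p : Nat.Primes, ∑ τ : L →+* PadicAlgCl p, Real.log ‖τ x‖ := by
  have h1 := NumberField.prod_nonarchAbsVal_eq (K := L) fun v : AbsoluteValue L ℝ => v x
  have h2 : ∏ᶠ v : NumberField.FinitePlace L, v.val x =
      ∏ᶠ v : NumberField.FinitePlace L, v x := rfl
  rw [h1, h2, NumberField.FinitePlace.prod_eq_inv_abs_norm hx]
  have hq : Algebra.norm ℚ x ≠ 0 := Algebra.norm_ne_zero_iff.2 hx
  have h3 := brf_rat hq
  simp only [brf_emb x hx]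
  rw [h3]
  push_cast
  rw [Real.log_inv]

open Height.AdmissibleAbsValues in
theorem br_fin {L : Type*} [Field L] [NumberField L] {κ : Type*} [Finite κ] (z : κ → L)
    (hz : z ≠ 0) :
    Real.log (∏ᶠ v : nonarchAbsVal (K := L), ⨆ i, v.val (z i)) =
      ∑ᶠ p : Nat.Primes, ∑ τ : L →+* PadicAlgCl p, Real.log (⨆ i, ‖τ (z i)‖) := by
  obtain ⟨h, β, hh, hβ, hkey⟩ := brf_key z hz
  have h1 := brf_elt β hβ
  have h2 : ∀ v : nonarchAbsVal (K := L), (⨆ i, v.val (z i)) ^ h = v.val β := fun v =>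
    hkey v.val (Height.AdmissibleAbsValues.isNonarchimedean _ v.2)
  have h3 : ∀ (p : Nat.Primes) (τ : L →+* PadicAlgCl p), (⨆ i, ‖τ (z i)‖) ^ h = ‖τ β‖ :=
    fun p τ => hkey (pAbs p τ) (pAbs_nonarch p τ)
  have h4 : (fun v : nonarchAbsVal (K := L) => ⨆ i, v.val (z i)).HasFiniteMulSupport := by
    have h5 := Height.AdmissibleAbsValues.hasFiniteMulSupport (K := L) hβ
    refine Set.Finite.subset h5 fun v hv => ?_
    rw [Function.mem_mulSupport] at hv ⊢
    intro h6
    apply hv
    have h7 : (⨆ i, v.val (z i)) ^ h = 1 := by rw [h2, h6]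
    exact (pow_eq_one_iff_of_nonneg (Real.iSup_nonneg fun i => v.val.nonneg _) hh).1 h7
  have h5 : (∏ᶠ v : nonarchAbsVal (K := L), ⨆ i, v.val (z i)) ^ h =
      ∏ᶠ v : nonarchAbsVal (K := L), v.val β := by
    rw [finprod_pow h4]
    exact finprod_congr h2
  have h6 : (h : ℝ) * Real.log (∏ᶠ v : nonarchAbsVal (K := L), ⨆ i, v.val (z i)) =
      (h : ℝ) * ∑ᶠ p : Nat.Primes, ∑ τ : L →+* PadicAlgCl p, Real.log (⨆ i, ‖τ (z i)‖) := by
    rw [← Real.log_pow, h5, h1, ← smul_eq_mul, smul_finsum]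
    refine finsum_congr fun p => ?_
    rw [smul_eq_mul, Finset.mul_sum]
    refine Finset.sum_congr rfl fun τ _ => ?_
    rw [← h3 p τ, Real.log_pow]
  exact mul_left_cancel₀ (Nat.cast_ne_zero.2 hh) h6

theorem br_supp {L : Type*} [Field L] [NumberField L] {κ : Type*} [Finite κ] (z : κ → L)
    (hz : z ≠ 0) :
    {p : Nat.Primes | ∃ τ : L →+* PadicAlgCl p, (⨆ i, ‖τ (z i)‖) ≠ 1}.Finite := by
  classical
  obtain ⟨h, β, hh, hβ, hkey⟩ := brf_key z hz
  obtain ⟨p₀, hp₀⟩ := pint (E := L) {β, β⁻¹}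
  have h1 : {p : Nat.Primes | (p : ℕ) < p₀}.Finite := by
    refine Set.Finite.of_finite_image (f := fun p : Nat.Primes => (p : ℕ)) ?_
      (fun p _ q _ hpq => Subtype.ext hpq)
    refine (Set.finite_Iio p₀).subset ?_
    rintro _ ⟨p, hp, rfl⟩
    exact hp
  refine h1.subset ?_
  rintro p ⟨τ, hτ⟩
  by_contra hp
  simp only [Set.mem_ofPred_eq, not_lt] at hp
  apply hτ
  have h2 := hp₀ p hp τ β (by simp)
  have h3 := hp₀ p hp τ β⁻¹ (by simp)
  rw [map_inv₀] at h3
  have h4 : 0 < pAbs p τ β := (pAbs p τ).pos hβ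
  have h5 : pAbs p τ β = 1 := le_antisymm h2 ((inv_le_one₀ h4).1 h3)
  have h6 := hkey (pAbs p τ) (pAbs_nonarch p τ)
  rw [h5] at h6
  exact (pow_eq_one_iff_of_nonneg (Real.iSup_nonneg fun i => (pAbs p τ).nonneg _) hh).1 h6

end Pool.Agent.Helper63.WH
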