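import Pool.Agent.Helper63.WH.Defs
import Pool.Agent.Helper63.SAND.Class

/-!
Finitely many classes of a point at a prime.
-/

open MvPolynomial Filter Topology
open scoped LinearAlgebra.Projectivization

namespace Pool.Agent.Helper63.WH

open Pool.Agent.Helper90.KSC Pool.Agent.Helper63.SAND

section Abs

variable {E : Type*} [Field E] [CharZero E] [Algebra.IsAlgebraic ℚ E]

omit [Algebra.IsAlgebraic ℚ E] in
theorem data_eval_mem {W : Type*} (L : IntermediateField ℚ E) (P : MvPolynomial W E)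
    (hP : ∀ d, P.coeff d ∈ L) (z : W → E) (hz : ∀ w, z w ∈ L) : eval z P ∈ L := by
  rw [eval_eq]
  refine sum_mem fun d _ => mul_mem (hP d) (prod_mem fun i _ => pow_mem (hz i) _)

omit [CharZero E] [Algebra.IsAlgebraic ℚ E] in
theorem data_eval_smul {W : Type*} {P : MvPolynomial W E} {e : ℕ} (hP : P.IsHomogeneous e)
    (c : E) (z : W → E) : eval (fun w => c * z w) P = c ^ e * eval z P := by
  rw [eval_eq, eval_eq, Finset.mul_sum]
  refine Finset.sum_congr rfl fun d hd => ?_
  have h1 : ∏ i ∈ d.support, (c * z i) ^ d i = c ^ e * ∏ i ∈ d.support, z i ^ d i := by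
    have h2 : ∑ i ∈ d.support, d i = e := by
      have := hP (mem_support_iff.1 hd)
      rw [Finsupp.weight_apply, Finsupp.sum] at this
      simpa using this
    simp_rw [mul_pow]
    rw [Finset.prod_mul_distrib, Finset.prod_pow_eq_pow_sum, h2]
  rw [h1]; ring

theorem overF_iter {Ω W T : Type*} (L : IntermediateField ℚ E) (a : Ω → W → E) (F : Ω → Ω)
    (e : ℕ) (G : T → W → MvPolynomial W E) (hG : LocF a (fun x => a (F x)) e G)
    (hGL : ∀ t w d, (G t w).coeff d ∈ L) (x : Ω) (hx : OverF L (a x)) (n : ℕ) :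
    OverF L (a (F^[n] x)) := by
  induction n with
  | zero => exact hx
  | succ n ih =>
    rw [Function.iterate_succ_apply']
    obtain ⟨c0, hc0, hL⟩ := ih
    obtain ⟨t, w, hne⟩ := hG.2.2 (F^[n] x)
    obtain ⟨c, hc⟩ := hG.2.1 t (F^[n] x)
    have hc1 : c ≠ 0 := by
      rintro rfl
      apply hne
      rw [hc w, zero_mul]
    refine ⟨c0 ^ e * c, mul_ne_zero (pow_ne_zero _ hc0) hc1, fun w' => ?_⟩
    have h1 := data_eval_mem L (G t w') (hGL t w') (fun w => c0 * a (F^[n] x) w) hL
    rw [data_eval_smul (hG.1 t w')] at h1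
    have h2 := hc w'
    rw [h2] at h1
    rw [mul_assoc]
    exact h1

/-- `GoodAt` depends only on the restriction of the embedding to `L`. -/
theorem data_good {Ω W T : Type*} (L : IntermediateField ℚ E) (a : Ω → W → E) (F : Ω → Ω)
    (e : ℕ) (G : T → W → MvPolynomial W E) (hG : LocF a (fun x => a (F x)) e G)
    (hGL : ∀ t w d, (G t w).coeff d ∈ L) (x : Ω) (hx : OverF L (a x)) (n : ℕ) (p : Nat.Primes)
    (τ τ' : E →+* PadicAlgCl p) (hτ : ∀ z ∈ L, τ z = τ' z) (χ : Fin n → T)
    (h : GoodAt a F e G n (pAbs p τ) x χ) : GoodAt a F e G n (pAbs p τ') x χ := by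
  intro i
  have h0 := h i
  obtain ⟨c, hc, hL⟩ := overF_iter L a F e G hG hGL x hx i
  set y : W → E := a (F^[(i : ℕ)] x) with hy
  -- the scaled identity
  have key : ∀ σ : E →+* PadicAlgCl p,
      ((⨆ w, pAbs p σ (eval y (G (χ i) w))) = (⨆ w, pAbs p σ (y w)) ^ e ↔
        (⨆ w, ‖σ (eval (fun w => c * y w) (G (χ i) w))‖) = (⨆ w, ‖σ (c * y w)‖) ^ e) := by
    intro σ
    have hs : (0 : ℝ) < ‖σ c‖ := norm_pos_iff.2 (by rwa [map_ne_zero])
    have e1 : (⨆ w, ‖σ (eval (fun w => c * y w) (G (χ i) w))‖) =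
        ‖σ c‖ ^ e * ⨆ w, pAbs p σ (eval y (G (χ i) w)) := by
      rw [Real.mul_iSup_of_nonneg (by positivity)]
      congr 1
      funext w
      rw [data_eval_smul (hG.1 (χ i) w), map_mul, map_pow, norm_mul, norm_pow, pAbs_apply]
    have e2 : (⨆ w, ‖σ (c * y w)‖) = ‖σ c‖ * ⨆ w, pAbs p σ (y w) := by
      rw [Real.mul_iSup_of_nonneg hs.le]
      congr 1
      funext w
      rw [map_mul, norm_mul, pAbs_apply]
    rw [e1, e2, mul_pow]
    constructor
    · intro h; rw [h]
    · intro h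
      exact mul_left_cancel₀ (pow_ne_zero _ hs.ne') h
  rw [key τ] at h0
  rw [key τ']
  have e3 : ∀ w, τ (eval (fun w => c * y w) (G (χ i) w)) =
      τ' (eval (fun w => c * y w) (G (χ i) w)) :=
    fun w => hτ _ (data_eval_mem L _ (hGL (χ i) w) _ hL)
  have e4 : ∀ w, τ (c * y w) = τ' (c * y w) := fun w => hτ _ (hL w)
  simp_rw [e3, e4] at h0
  exact h0

theorem class_set {Ω W T : Type*} [Fintype W] [Fintype T] (L : IntermediateField ℚ E)
    [FiniteDimensional ℚ L] (D : ℕ) (hD : Module.finrank ℚ L ≤ D) (a : Ω → W → E)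
    (ha0 : ∀ x, a x ≠ 0) (F : Ω → Ω) (e : ℕ) (G : T → W → MvPolynomial W E)
    (hG : LocF a (fun x => a (F x)) e G) (hGL : ∀ t w d, (G t w).coeff d ∈ L) (x : Ω)
    (hx : OverF L (a x)) (n : ℕ) (p : Nat.Primes) {q : ℕ} (red : PadicAlgCl p → Fin q)
    (hgood : ∀ τ : E →+* PadicAlgCl p, ∃ χ : Fin n → T, GoodAt a F e G n (pAbs p τ) x χ) :
    ∃ Cl : Finset (W × (W → Fin q) × (Fin n → T)), Cl.card ≤ D ∧
      ∀ τ : E →+* PadicAlgCl p, ∃ γ ∈ Cl,
        InClass a F e G n (pAbs p τ) (fun z => red (τ z)) γ x := by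
  classical
  haveI : NumberField L := { to_charZero := inferInstance, to_finiteDimensional := inferInstance }
  -- a class for every embedding
  have hcl : ∀ τ : E →+* PadicAlgCl p, ∃ γ : W × (W → Fin q) × (Fin n → T),
      InClass a F e G n (pAbs p τ) (fun z => red (τ z)) γ x := by
    intro τ
    obtain ⟨χ, hχ⟩ := hgood τ
    obtain ⟨w0, hw0⟩ := Function.ne_iff.1 (ha0 x)
    haveI : Nonempty W := ⟨w0⟩
    obtain ⟨ws, hws⟩ := Finite.exists_max (fun w => pAbs p τ (a x w))
    refine ⟨(ws, fun w => red (τ (a x w / a x ws)), χ), ?_, hws, fun w => rfl, hχ⟩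
    intro h0
    have h0' : a x ws = 0 := h0
    have h1 := hws w0
    rw [h0', map_zero] at h1
    have h2 : pAbs p τ (a x w0) = 0 := le_antisymm h1 ((pAbs p τ).nonneg _)
    exact hw0 ((pAbs p τ).eq_zero.1 h2)
  choose γ hγ using hcl
  -- restriction to `L`
  let r : (E →+* PadicAlgCl p) → (L →+* PadicAlgCl p) := fun τ => τ.comp (algebraMap L E)
  let s : (L →+* PadicAlgCl p) → Option (E →+* PadicAlgCl p) := fun φ =>
    if h : ∃ τ, r τ = φ then some h.choose else none
  let Cl : Finset (W × (W → Fin q) × (Fin n → T)) :=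
    (Finset.univ : Finset (L →+* PadicAlgCl p)).biUnion fun φ => ((s φ).map γ).toFinset
  refine ⟨Cl, ?_, ?_⟩
  · refine (Finset.card_biUnion_le).trans ?_
    have h1 : ∀ φ ∈ (Finset.univ : Finset (L →+* PadicAlgCl p)),
        (((s φ).map γ).toFinset).card ≤ 1 := by
      intro φ _
      cases h : s φ with
      | none => simp
      | some t => simp
    refine (Finset.sum_le_card_nsmul _ _ 1 h1).trans ?_
    rw [smul_eq_mul, mul_one, Finset.card_univ, NumberField.Embeddings.card L (PadicAlgCl p)]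
    exact hD
  · intro τ
    have hex : ∃ τ', r τ' = r τ := ⟨τ, rfl⟩
    have hs : s (r τ) = some hex.choose := by
      show (if h : ∃ τ', r τ' = r τ then some h.choose else none) = _
      rw [dif_pos hex]
    set τ' := hex.choose with hτ'
    have hr : r τ' = r τ := hex.choose_spec
    have hagree : ∀ z ∈ L, τ' z = τ z := by
      intro z hz
      exact RingHom.congr_fun hr ⟨z, hz⟩
    refine ⟨γ τ', ?_, ?_⟩
    · rw [Finset.mem_biUnion]
      refine ⟨r τ, Finset.mem_univ _, ?_⟩
      rw [hs]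
      simp
    · obtain ⟨h1, h2, h3, h4⟩ := hγ τ'
      obtain ⟨c, hc, hcL⟩ := hx
      have hq : ∀ w, a x w / a x (γ τ').1 ∈ L := by
        intro w
        have : a x w / a x (γ τ').1 = (c * a x w) / (c * a x (γ τ').1) := by
          rw [mul_div_mul_left _ _ hc]
        rw [this]
        exact div_mem (hcL w) (hcL _)
      refine ⟨h1, ?_, ?_, data_good L a F e G hG hGL x ⟨c, hc, hcL⟩ n p τ' τ hagree _ h4⟩
      · intro w
        have h5 := h2 w
        have e1 : ∀ σ : E →+* PadicAlgCl p, pAbs p σ (a x w) ≤ pAbs p σ (a x (γ τ').1) ↔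
            ‖σ (a x w / a x (γ τ').1)‖ ≤ 1 := by
          intro σ
          have hpos : (0 : ℝ) < ‖σ (a x (γ τ').1)‖ := norm_pos_iff.2 (by rwa [map_ne_zero])
          rw [map_div₀, norm_div, div_le_one hpos, pAbs_apply, pAbs_apply]
        rw [e1] at h5 ⊢
        rw [← hagree _ (hq w)]
        exact h5
      · intro w
        rw [← h3 w]
        show red (τ _) = red (τ' _)
        rw [hagree _ (hq w)]

end Abs

end Pool.Agent.Helper63.WH
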