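import Pool.Agent.Helper63.WH.Defs

/-!
Almost all primes are integral at all embeddings.
-/

open MvPolynomial Filter Topology
open scoped LinearAlgebra.Projectivization

namespace Pool.Agent.Helper63.WH

open Pool.Agent.Helper90.KSC Pool.Agent.Helper63.SAND

/-- Integral elements have norm at most one. -/
theorem pint_le_one (p : Nat.Primes) (x : PadicAlgCl p) (hx : IsIntegral ℤ x) : ‖x‖ ≤ 1 := by
  have h1 : IsIntegral (Valued.v (R := PadicAlgCl p)).integer x := hx.tower_top
  have h2 := (Valuation.integer.integers (Valued.v (R := PadicAlgCl p))).mem_of_integral h1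
  rw [Valuation.mem_integer_iff] at h2
  have h3 : ((Valued.v x : NNReal) : ℝ) ≤ 1 := by exact_mod_cast h2
  rwa [PadicAlgCl.valuation_coe] at h3

section Abs

variable {E : Type*} [Field E] [CharZero E] [Algebra.IsAlgebraic ℚ E]

theorem pint (S : Finset E) : ∃ p₀ : ℕ, ∀ p : Nat.Primes, p₀ ≤ p →
    ∀ τ : E →+* PadicAlgCl p, ∀ c ∈ S, pAbs p τ c ≤ 1 := by
  have halg : Algebra.IsAlgebraic ℤ E :=
    (IsFractionRing.comap_isAlgebraic_iff (A := ℤ) (K := ℚ) (C := E)).2 inferInstance
  obtain ⟨y, hy, hint⟩ := Algebra.IsAlgebraic.exists_integral_multiples ℤ S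
  refine ⟨y.natAbs + 1, ?_⟩
  intro p hp τ c hc
  have h1 : ‖τ (y • c)‖ ≤ 1 := pint_le_one p _ ((hint c hc).map (τ.toIntAlgHom))
  have h2 : ‖(y : PadicAlgCl p)‖ = 1 := by
    have h3 := PadicAlgCl.norm_extends p (y : ℚ_[p])
    rw [map_intCast] at h3
    rw [h3]
    refine le_antisymm (Padic.norm_int_le_one y) ?_
    by_contra h4
    rw [not_le, Padic.norm_intCast_lt_one_iff, Int.natCast_dvd] at h4
    have h5 := Nat.le_of_dvd (Int.natAbs_pos.2 hy) h4
    omega
  rw [pAbs_apply]
  rw [zsmul_eq_mul, map_mul, map_intCast, norm_mul, h2, one_mul] at h1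
  exact h1

end Abs

end Pool.Agent.Helper63.WH
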