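import Pool.Agent.Helper63.WH.AgoodQ
import Pool.Agent.Helper63.WH.Aapi
import Pool.Agent.Helper63.WH.Padic
import Pool.Agent.Helper63.WH.Pint
import Pool.Agent.Helper63.WH.Alocal
import Pool.Agent.Helper63.WH.Aglob
import Pool.Agent.Helper63.WH.Data
import Pool.Agent.Helper63.WH.Abadh
import Pool.Agent.Helper63.SAND.Tools

/-!
Core, part A: a good prime for every point.
-/

open MvPolynomial Filter Topology

namespace Pool.Agent.Helper63.WH

open Pool.Agent.Helper90.KSC Pool.Agent.Helper63.SAND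

variable {E : Type*} [Field E] [CharZero E] [Algebra.IsAlgebraic ℚ E]

theorem exists_good {Ω W T : Type*} [Fintype W] (a : Ω → W → E) (ha0 : ∀ x, a x ≠ 0)
    (F : Ω → Ω) (e : ℕ) (G : T → W → MvPolynomial W E) (hG : LocF a (fun x => a (F x)) e G)
    (C₁ : ℝ) (hgood : ∀ (L : IntermediateField ℚ E) [FiniteDimensional ℚ L] (D : ℕ),
      Module.finrank ℚ L ≤ D → (∀ t w d, (G t w).coeff d ∈ L) →
      ∀ (a : W → E) (t : T), a ≠ 0 → OverF L a → (∃ w, eval a (G t w) ≠ 0) →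
      ∀ P : Finset Nat.Primes,
        (∀ p ∈ P, ∃ τ : E →+* PadicAlgCl p, (∀ w, IntPoly (pAbs p τ) (G t w)) ∧
          (⨆ w, pAbs p τ (eval a (G t w))) ≠ (⨆ w, pAbs p τ (a w)) ^ e) →
        (P.card : ℝ) * Real.log 2 ≤ D ^ 2 * (C₁ + e * absHeight a))
    (P : Finset Nat.Primes)
    (hP : ∀ p ∈ P, ∀ τ : E →+* PadicAlgCl p, ∀ t w, IntPoly (pAbs p τ) (G t w))
    (L : IntermediateField ℚ E) [FiniteDimensional ℚ L] (D : ℕ) (hD : Module.finrank ℚ L ≤ D)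
    (hGL : ∀ t w d, (G t w).coeff d ∈ L) (x : Ω) (hx : OverF L (a x)) (n : ℕ) (H : ℝ)
    (hH : ∀ i < n, absHeight (a (F^[i] x)) ≤ H)
    (hcard : n * (D ^ 2 * (C₁ + e * H)) < P.card * Real.log 2) :
    ∃ p ∈ P, ∀ τ : E →+* PadicAlgCl p, ∃ χ : Fin n → T, GoodAt a F e G n (pAbs p τ) x χ := by
  classical
  by_contra hcon
  push Not at hcon
  -- for every p a bad step
  have h1 : ∀ p ∈ P, ∃ i : Fin n, ∃ τ : E →+* PadicAlgCl p, ∀ t : T,
      (⨆ w, pAbs p τ (eval (a (F^[i] x)) (G t w))) ≠ (⨆ w, pAbs p τ (a (F^[i] x) w)) ^ e := by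
    intro p hp
    obtain ⟨τ, hτ⟩ := hcon p hp
    by_contra h
    push Not at h
    choose χ hχ using fun i => h i τ
    exact hτ χ hχ
  have h2 : P ⊆ (Finset.univ : Finset (Fin n)).biUnion fun i => P.filter fun p : Nat.Primes =>
      ∃ τ : E →+* PadicAlgCl p, ∀ t : T, (⨆ w, pAbs p τ (eval (a (F^[i] x)) (G t w))) ≠
        (⨆ w, pAbs p τ (a (F^[i] x) w)) ^ e := by
    intro p hp
    obtain ⟨i, hi⟩ := h1 p hp
    exact Finset.mem_biUnion.mpr ⟨i, Finset.mem_univ i, Finset.mem_filter.mpr ⟨hp, hi⟩⟩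
  have h3 : ∀ i : Fin n, ((P.filter fun p : Nat.Primes => ∃ τ : E →+* PadicAlgCl p, ∀ t : T,
      (⨆ w, pAbs p τ (eval (a (F^[i] x)) (G t w))) ≠
        (⨆ w, pAbs p τ (a (F^[i] x) w)) ^ e).card : ℝ) * Real.log 2 ≤
        D ^ 2 * (C₁ + e * H) := by
    intro i
    obtain ⟨t, w, ht⟩ := hG.2.2 (F^[i] x)
    refine (hgood L D hD hGL (a (F^[i] x)) t (ha0 _) (overF_iter L a F e G hG hGL x hx i)
      ⟨w, ht⟩ _ ?_).trans ?_
    · intro p hp
      obtain ⟨hp1, τ, hτ⟩ := Finset.mem_filter.mp hp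
      exact ⟨τ, hP p hp1 τ t, hτ t⟩
    · apply mul_le_mul_of_nonneg_left _ (by positivity)
      have := mul_le_mul_of_nonneg_left (hH i i.2) (Nat.cast_nonneg (α := ℝ) e)
      linarith
  have hlog : 0 < Real.log 2 := Real.log_pos one_lt_two
  have h4 : (P.card : ℝ) * Real.log 2 ≤ ∑ i : Fin n, ((P.filter fun p : Nat.Primes =>
      ∃ τ : E →+* PadicAlgCl p, ∀ t : T, (⨆ w, pAbs p τ (eval (a (F^[i] x)) (G t w))) ≠
        (⨆ w, pAbs p τ (a (F^[i] x) w)) ^ e).card : ℝ) * Real.log 2 := by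
    rw [← Finset.sum_mul]
    apply mul_le_mul_of_nonneg_right _ hlog.le
    have := (Finset.card_le_card h2).trans Finset.card_biUnion_le
    exact_mod_cast this
  have h5 := h4.trans (Finset.sum_le_sum fun i _ => h3 i)
  rw [Finset.sum_const, Finset.card_univ, Fintype.card_fin, nsmul_eq_mul] at h5
  linarith

/-- The classes of the point `x` at the prime `p` are among the `γ i`. -/
def InClasses {Ω W T : Type*} (a : Ω → W → E) (F : Ω → Ω) (e : ℕ)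
    (G : T → W → MvPolynomial W E) (n : ℕ) (p : Nat.Primes) {q : ℕ} (red : PadicAlgCl p → Fin q)
    {k : ℕ} (γ : Fin k → W × (W → Fin q) × (Fin n → T)) (x : Ω) : Prop :=
  ∀ τ : E →+* PadicAlgCl p, ∃ i, InClass a F e G n (pAbs p τ) (fun z => red (τ z)) (γ i) x

theorem exists_emb (p : Nat.Primes) : Nonempty (E →+* PadicAlgCl p) := by
  have : Algebra ℚ (PadicAlgCl p) := DivisionRing.toRatAlgebra
  exact ⟨(IsAlgClosed.lift (R := ℚ) (S := E) (M := PadicAlgCl p)).toRingHom⟩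

theorem exists_classes {Ω W T : Type*} [Fintype W] [Fintype T] (L : IntermediateField ℚ E)
    [FiniteDimensional ℚ L] (D : ℕ) (hD : Module.finrank ℚ L ≤ D) (a : Ω → W → E)
    (ha0 : ∀ x, a x ≠ 0) (F : Ω → Ω) (e : ℕ) (G : T → W → MvPolynomial W E)
    (hG : LocF a (fun x => a (F x)) e G) (hGL : ∀ t w d, (G t w).coeff d ∈ L) (x : Ω)
    (hx : OverF L (a x)) (n : ℕ) (p : Nat.Primes) {q : ℕ} (red : PadicAlgCl p → Fin q)
    (hgood : ∀ τ : E →+* PadicAlgCl p, ∃ χ : Fin n → T, GoodAt a F e G n (pAbs p τ) x χ) :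
    ∃ γ : Fin D → W × (W → Fin q) × (Fin n → T), InClasses a F e G n p red γ x := by
  classical
  obtain ⟨Cl, hCl1, hCl2⟩ := class_set L D hD a ha0 F e G hG hGL x hx n p red hgood
  obtain ⟨τ₀⟩ := exists_emb (E := E) p
  obtain ⟨γ₀, hγ₀, _⟩ := hCl2 τ₀
  let eq := Cl.equivFin
  refine ⟨fun i => if h : (i : ℕ) < Cl.card then (eq.symm ⟨i, h⟩ : Cl).1 else γ₀, fun τ => ?_⟩
  obtain ⟨γ, hγ, h⟩ := hCl2 τ
  refine ⟨⟨eq ⟨γ, hγ⟩, lt_of_lt_of_le (eq ⟨γ, hγ⟩).2 hCl1⟩, ?_⟩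
  simpa using h

end Pool.Agent.Helper63.WH
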