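import Pool.Agent.Helper63.WH.CoreA
import Pool.Agent.Helper63.SAND.Iter
import Pool.Agent.Helper63.SAND.Van
import Pool.Agent.Helper63.SAND.Relf
import Pool.Agent.Helper63.SAND.Hilb2

/-!
Core, part B: the points with given classes at a prime.
-/

open MvPolynomial Filter Topology

namespace Pool.Agent.Helper63.WH

open Pool.Agent.Helper90.KSC Pool.Agent.Helper63.SAND

variable {E : Type*} [Field E] [CharZero E] [Algebra.IsAlgebraic ℚ E]

/-- `x` is defined, together with the forms `G t w`, over a number field of degree at most `D`. -/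
def FieldLE {Ω W T : Type*} (a : Ω → W → E) (G : T → W → MvPolynomial W E) (D : ℕ) (x : Ω) :
    Prop :=
  ∃ L : IntermediateField ℚ E, FiniteDimensional ℚ L ∧ Module.finrank ℚ L ≤ D ∧
    (∀ t w d, (G t w).coeff d ∈ L) ∧ OverF L (a x)

theorem close_of_red {Ω W T : Type*} (a : Ω → W → E) (G : T → W → MvPolynomial W E) (D : ℕ)
    (hD : 1 ≤ D) (p : Nat.Primes) {q : ℕ} (red : PadicAlgCl p → Fin q)
    (hred : ∀ z z' : PadicAlgCl p, (minpoly ℚ_[p] z).natDegree ≤ D →
      (minpoly ℚ_[p] z').natDegree ≤ D → ‖z‖ ≤ 1 → ‖z'‖ ≤ 1 → red z = red z' → ‖z - z'‖ < 1)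
    (ρ : ℝ) (hρ0 : 0 < ρ) (hρ : ρ ^ (D * D) = 1 / (p : ℝ)) (τ : E →+* PadicAlgCl p)
    (x y : Ω) (hx : FieldLE a G D x) (hy : FieldLE a G D y) (ws w : W)
    (hx0 : a x ws ≠ 0) (hy0 : a y ws ≠ 0) (hx1 : pAbs p τ (a x w) ≤ pAbs p τ (a x ws))
    (hy1 : pAbs p τ (a y w) ≤ pAbs p τ (a y ws))
    (h : red (τ (a x w / a x ws)) = red (τ (a y w / a y ws))) :
    pAbs p τ (a x w / a x ws - a y w / a y ws) ≤ ρ := by
  obtain ⟨L, hL1, hL2, _, c, hc0, hc⟩ := hx
  obtain ⟨L', hL1', hL2', _, c', hc0', hc'⟩ := hy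
  have hu : a x w / a x ws ∈ L := by
    have h1 : a x w / a x ws = (c * a x w) / (c * a x ws) := by
      rw [mul_div_mul_left _ _ hc0]
    rw [h1]
    exact L.div_mem (hc w) (hc ws)
  have hu' : a y w / a y ws ∈ L' := by
    have h1 : a y w / a y ws = (c' * a y w) / (c' * a y ws) := by
      rw [mul_div_mul_left _ _ hc0']
    rw [h1]
    exact L'.div_mem (hc' w) (hc' ws)
  have hn : ‖τ (a x w / a x ws)‖ ≤ 1 := by
    rw [← pAbs_apply, map_div₀]
    exact div_le_one_of_le₀ hx1 ((pAbs p τ).nonneg _)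
  have hn' : ‖τ (a y w / a y ws)‖ ≤ 1 := by
    rw [← pAbs_apply, map_div₀]
    exact div_le_one_of_le₀ hy1 ((pAbs p τ).nonneg _)
  have hd := (padic_deg L _ hu p τ).trans hL2
  have hd' := (padic_deg L' _ hu' p τ).trans hL2'
  have h2 := hred _ _ hd hd' hn hn' h
  have hmem : a x w / a x ws - a y w / a y ws ∈ L ⊔ L' :=
    (L ⊔ L').sub_mem ((le_sup_left : L ≤ L ⊔ L') hu) ((le_sup_right : L' ≤ L ⊔ L') hu')
  have hfd : FiniteDimensional ℚ (L ⊔ L' : IntermediateField ℚ E) :=
    IntermediateField.finiteDimensional_sup L L'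
  have h3 : (minpoly ℚ_[p] (τ (a x w / a x ws - a y w / a y ws))).natDegree ≤ D * D := by
    refine (padic_deg (L ⊔ L') _ hmem p τ).trans ?_
    refine (IntermediateField.finrank_sup_le L L').trans ?_
    exact Nat.mul_le_mul hL2 hL2'
  have h4 : ‖τ (a x w / a x ws - a y w / a y ws)‖ < 1 := by
    rw [map_sub]
    exact h2
  have h5 := padic_disc p _ (D * D) h3 h4
  rw [pAbs_apply]
  rw [← hρ] at h5
  exact le_of_pow_le_pow_left₀ (by positivity) hρ0.le h5

theorem oneclass {Ω Ω' W T : Type*} [Fintype W] [Nonempty Ω'] (a : Ω → W → E)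
    (ha0 : ∀ x, a x ≠ 0) (F : Ω → Ω) (e : ℕ)
    (G : T → W → MvPolynomial W E) (hG : LocF a (fun x => a (F x)) e G)
    (g : Ω' → Ω) (ha : PrimeH fun x => a (g x)) (S : Set Ω) (r Cs : ℝ) (hr : 1 ≤ r)
    (hCs : 0 ≤ Cs)
    (hS : ∀ x ∈ S, ∀ n : ℕ, absHeight (a (F^[n] x)) ≤ Cs * r ^ n * (absHeight (a x) + 1))
    (D : ℕ) (hD : 1 ≤ D) (hSD : ∀ x ∈ S, FieldLE a G D x)
    (p : Nat.Primes) (hGi : ∀ τ : E →+* PadicAlgCl p, ∀ t w, IntPoly (pAbs p τ) (G t w))
    {q : ℕ} (red : PadicAlgCl p → Fin q)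
    (hred : ∀ z z' : PadicAlgCl p, (minpoly ℚ_[p] z).natDegree ≤ D →
      (minpoly ℚ_[p] z').natDegree ≤ D → ‖z‖ ≤ 1 → ‖z'‖ ≤ 1 → red z = red z' → ‖z - z'‖ < 1)
    (β lam n b b₁ : ℕ)
    (hlam : 4 * (D * D) * (((Fintype.card W : ℝ) + 1) + 1 + Cs) * (β + 1) < lam)
    (hb : b = 2 * D * lam ^ Fintype.card W) (hb₁ : (b : ℝ) * r ^ n ≤ b₁)
    (w₀ w₁ : W)
    (hind : ∀ P : ℕ → MvPolynomial W E, (∀ i, (P i).IsHomogeneous b₁) →
      (∀ x : Ω', ∑ i ∈ Finset.range (b + 1), eval (a (g x)) (P i) *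
        a (F^[n] (g x)) w₀ ^ (b - i) * a (F^[n] (g x)) w₁ ^ i = 0) →
      ∀ i ≤ b, Van (fun x => a (g x)) (P i))
    (γ : Fin D → W × (W → Fin q) × (Fin n → T)) :
    ∃ Φ : MvPolynomial W E, Φ.IsHomogeneous (b₁ + b * e ^ n) ∧ ¬ Van (fun x => a (g x)) Φ ∧
      ∀ x : Ω', g x ∈ S → absHeight (a (g x)) ≤ β → InClasses a F e G n p red γ (g x) →
        eval (a (g x)) Φ = 0 := by
  classical
  have hchart := chart_locF a ha0 F e G hG n
  obtain ⟨ex, hex1, hex2⟩ := monomial_basis (fun x => a (g x)) b₁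
  generalize hh : hil (fun x => a (g x)) b₁ = h at ex hex1 hex2
  have hhpos : 0 < h := hh ▸ hil_pos (fun x => a (g x)) (fun x => ha0 _) b₁
  set s := (b + 1) * h with hs
  -- the functions
  let idx : Fin s ≃ Fin (b + 1) × Fin h := finProdFinEquiv.symm
  let Fn : Fin s → Ω' → E := fun k x =>
    eval (a (g x)) (monomial (ex (idx k).2) (1 : E)) *
      a (F^[n] (g x)) w₀ ^ (b - ((idx k).1 : ℕ)) * a (F^[n] (g x)) w₁ ^ ((idx k).1 : ℕ)
  let S' := {x : Ω' // g x ∈ S ∧ absHeight (a (g x)) ≤ β ∧ InClasses a F e G n p red γ (g x)}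
  -- all the minors vanish
  have hminor : ∀ x : Fin s → S', (Matrix.of fun k j => Fn k (x j).1).det = 0 := by
    intro x
    by_contra hdet
    have hp2 : (2 : ℝ) ≤ p := by exact_mod_cast p.2.two_le
    have hp0 : (0 : ℝ) < p := by linarith
    have hDD : (D * D : ℕ) ≠ 0 := by positivity
    set ρ : ℝ := (1 / (p : ℝ)) ^ ((1 : ℝ) / (D * D : ℕ)) with hρ
    have hpinv : (0 : ℝ) < 1 / p := by positivity
    have hρ0 : 0 < ρ := Real.rpow_pos_of_pos hpinv _
    have hρ1 : ρ ≤ 1 := by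
      apply Real.rpow_le_one hpinv.le
      · rw [div_le_one hp0]
        linarith
      · positivity
    have hρD : ρ ^ (D * D) = 1 / (p : ℝ) := by
      rw [hρ, one_div ((D * D : ℕ) : ℝ)]
      exact Real.rpow_inv_natCast_pow hpinv.le hDD
    have hlamp : 1 ≤ lam := by
      have h1 : (0 : ℝ) < lam := lt_of_le_of_lt (by positivity) hlam
      exact_mod_cast h1
    set L := lam * (b₁ + 1) with hL
    have hL1 : 1 ≤ L := by
      rw [hL]
      exact Nat.one_le_iff_ne_zero.mpr (by positivity)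
    set Q := hil (fun x => a (g x)) (L - 1) with hQ
    have hloc : ∀ τ : E →+* PadicAlgCl p, pAbs p τ (Matrix.det (Matrix.of fun l j =>
        eval (a (g (x j).1)) (monomial (ex (idx l).2) (1 : E)) *
          a (F^[n] (g (x j).1)) w₀ ^ (b - ((idx l).1 : ℕ)) *
          a (F^[n] (g (x j).1)) w₁ ^ ((idx l).1 : ℕ))) ≤
        ρ ^ (L * (s - D * Q)) * ∏ j, ((⨆ w, pAbs p τ (a (g (x j).1) w)) ^ b₁ *
          (⨆ w, pAbs p τ (a (F^[n] (g (x j).1)) w)) ^ b) := by
      intro τ
      choose c hc using fun j => (x j).2.2.2 τ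
      refine alocal (pAbs p τ) (pAbs_nonarch p τ) ρ hρ0 hρ1 (fun x => a (g x))
        (fun x => a (F^[n] (g x))) (e ^ n) D (fun i => chart G n (γ i).2.2)
        (fun i => hchart.1 (γ i).2.2)
        (fun i => chart_int (pAbs p τ) (pAbs_nonarch p τ) G (hGi τ) n (γ i).2.2) s
        (fun j => (x j).1) c (fun j => hchart.2.1 (γ (c j)).2.2 (g (x j).1))
        (fun i => (γ i).1) (fun j => (hc j).1) (fun j w => (hc j).2.1 w)
        (fun j => chart_good (pAbs p τ) a F e G hG (g (x j).1) n (γ (c j)).2.2 (hc j).2.2.2)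
        ?_ b₁ b (fun k => monomial (ex (idx k).2) (1 : E))
        (fun k => isHomogeneous_monomial _ (hex1 (idx k).2))
        (fun k d => by
          rw [coeff_monomial]
          split_ifs <;> simp)
        (fun k => ((idx k).1 : ℕ)) (fun k => Nat.lt_succ_iff.mp (idx k).1.2) w₀ w₁ L hL1
      intro i j hij w
      have hi := hc i
      have hj := hc j
      rw [← hij] at hj ⊢
      exact close_of_red a G D hD p red hred ρ hρ0 hρD τ (g (x i).1) (g (x j).1)
        (hSD _ (x i).2.1) (hSD _ (x j).2.1) (γ (c i)).1 w hi.1 hj.1 (hi.2.1 w) (hj.2.1 w)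
        ((hi.2.2.1 w).trans (hj.2.2.1 w).symm)
    have hQle : Q ≤ lam ^ Fintype.card W * h := hh ▸ hilb2 (fun x => a (g x)) b₁ lam hlamp
    have hsQ : s ≤ 2 * (s - D * Q) := by
      have h1 : 2 * (D * Q) ≤ s := by
        calc 2 * (D * Q) ≤ 2 * (D * (lam ^ Fintype.card W * h)) :=
              Nat.mul_le_mul_left 2 (Nat.mul_le_mul_left D hQle)
          _ = b * h := by rw [hb]; ring
          _ ≤ (b + 1) * h := Nat.mul_le_mul_right h (Nat.le_succ b)
      omega
    have hspos : 0 < s := by positivity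
    have hgl := aglob s (fun j => a (g (x j).1)) (fun j => a (F^[n] (g (x j).1)))
      (fun j => ha0 _) (fun j => ha0 _) b₁ b (fun k => ex (idx k).2) (fun k => hex1 (idx k).2)
      (fun k => ((idx k).1 : ℕ)) (fun k => Nat.lt_succ_iff.mp (idx k).1.2) w₀ w₁ hdet p
      (ρ ^ (L * (s - D * Q))) (by positivity) hloc
    -- numerical contradiction
    have hb1pos : (0 : ℝ) < b₁ := by
      have h1 : (1 : ℝ) ≤ b := by
        have : 1 ≤ b := by
          rw [hb]
          have h0 := Nat.one_le_pow (Fintype.card W) lam hlamp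
          nlinarith
        exact_mod_cast this
      have h2 : (1 : ℝ) ≤ r ^ n := one_le_pow₀ hr
      nlinarith
    have hbb1 : (b : ℝ) ≤ b₁ := by
      have h2 : (1 : ℝ) ≤ r ^ n := one_le_pow₀ hr
      have h3 : (0 : ℝ) ≤ b := Nat.cast_nonneg b
      nlinarith
    have hβ0 : (0 : ℝ) ≤ β := Nat.cast_nonneg β
    have hsum : ∑ j : Fin s, ((b₁ : ℝ) * absHeight (a (g (x j).1)) +
        b * absHeight (a (F^[n] (g (x j).1)))) ≤ s * ((b₁ : ℝ) * β + b₁ * (Cs * (β + 1))) := by
      have h1 : ∀ j ∈ (Finset.univ : Finset (Fin s)), ((b₁ : ℝ) * absHeight (a (g (x j).1)) +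
          b * absHeight (a (F^[n] (g (x j).1)))) ≤ (b₁ : ℝ) * β + b₁ * (Cs * (β + 1)) := by
        intro j _
        have h2 : absHeight (a (g (x j).1)) ≤ β := (x j).2.2.1
        have h3 := hS (g (x j).1) (x j).2.1 n
        have h4 : absHeight (a (F^[n] (g (x j).1))) ≤ Cs * r ^ n * (β + 1) := by
          refine h3.trans ?_
          apply mul_le_mul_of_nonneg_left _ (by positivity)
          linarith
        have h5 : (b : ℝ) * absHeight (a (F^[n] (g (x j).1))) ≤ b₁ * (Cs * (β + 1)) := by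
          calc (b : ℝ) * absHeight (a (F^[n] (g (x j).1))) ≤ b * (Cs * r ^ n * (β + 1)) :=
                mul_le_mul_of_nonneg_left h4 (Nat.cast_nonneg b)
            _ = (b * r ^ n) * (Cs * (β + 1)) := by ring
            _ ≤ b₁ * (Cs * (β + 1)) := mul_le_mul_of_nonneg_right hb₁ (by positivity)
        have h6 := mul_le_mul_of_nonneg_left h2 hb1pos.le
        linarith
      refine (Finset.sum_le_sum h1).trans ?_
      rw [Finset.sum_const, Finset.card_univ, Fintype.card_fin, nsmul_eq_mul]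
    have hlogs : Real.log s ≤ (Fintype.card W + 1) * b₁ := by
      have h1 : (s : ℝ) ≤ ((b₁ : ℝ) + 1) ^ (Fintype.card W + 1) := by
        have h2 : (h : ℝ) ≤ ((b₁ : ℝ) + 1) ^ Fintype.card W := by
          rw [← hh]
          exact_mod_cast hil_le (fun x => a (g x)) b₁
        have h3 : (s : ℝ) = (b + 1) * h := by rw [hs]; push_cast; ring
        rw [h3, pow_succ, mul_comm]
        apply mul_le_mul h2 (by linarith) (by positivity) (by positivity)
      have h4 : (0 : ℝ) < s := by exact_mod_cast hspos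
      calc Real.log s ≤ Real.log (((b₁ : ℝ) + 1) ^ (Fintype.card W + 1)) :=
            Real.log_le_log h4 h1
        _ = (Fintype.card W + 1) * Real.log ((b₁ : ℝ) + 1) := by
          rw [Real.log_pow]; push_cast; ring
        _ ≤ (Fintype.card W + 1) * b₁ := by
          apply mul_le_mul_of_nonneg_left _ (by positivity)
          have := Real.log_le_sub_one_of_pos (show (0 : ℝ) < (b₁ : ℝ) + 1 by linarith)
          linarith
    have hD0 : (0 : ℝ) < (D : ℝ) * D := by
      have : (0 : ℝ) < D := by exact_mod_cast hD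
      positivity
    have hlogρ : Real.log (ρ ^ (L * (s - D * Q))) ≤
        -((lam * b₁) * (s / 2) * (1 / 2) / (D * D)) := by
      have h0 : Real.log ρ = -(Real.log p / (D * D)) := by
        rw [hρ, Real.log_rpow hpinv, one_div (p : ℝ), Real.log_inv]
        push_cast
        ring
      rw [Real.log_pow, h0]
      have h1 : Real.log 2 ≤ Real.log p := Real.log_le_log (by norm_num) hp2
      have h2 : (1 / 2 : ℝ) ≤ Real.log p := by
        have := Real.log_two_gt_d9
        linarith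
      have h3 : ((lam * b₁ : ℕ) : ℝ) * (s / 2) ≤ ((L * (s - D * Q) : ℕ) : ℝ) := by
        have h4 : (s : ℝ) / 2 ≤ ((s - D * Q : ℕ) : ℝ) := by
          have : (s : ℝ) ≤ 2 * ((s - D * Q : ℕ) : ℝ) := by exact_mod_cast hsQ
          linarith
        have h5 : ((lam * b₁ : ℕ) : ℝ) ≤ (L : ℝ) := by
          rw [hL]
          exact_mod_cast Nat.mul_le_mul_left lam (Nat.le_succ b₁)
        push_cast at h5 ⊢
        exact mul_le_mul h5 h4 (by positivity) (Nat.cast_nonneg _)
      have h6 : ((lam * b₁ : ℕ) : ℝ) * (s / 2) * (1 / 2) ≤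
          ((L * (s - D * Q) : ℕ) : ℝ) * Real.log p :=
        mul_le_mul h3 h2 (by norm_num) (Nat.cast_nonneg _)
      have h7 := div_le_div_of_nonneg_right h6 hD0.le
      push_cast at h7 ⊢
      calc _ = -((lam * (b₁ + 1) * ((s - D * Q : ℕ) : ℝ)) * Real.log p / (D * D)) := by
            rw [hL]
            push_cast
            ring
        _ ≤ _ := by
          rw [hL] at h7
          push_cast at h7
          linarith
    have hs0 : (0 : ℝ) < s := by exact_mod_cast hspos
    have h1 : (s : ℝ) * Real.log s ≤ s * ((Fintype.card W + 1) * b₁) :=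
      mul_le_mul_of_nonneg_left hlogs hs0.le
    have h2 : 0 ≤ s * b₁ * (((Fintype.card W : ℝ) + 1) + β + Cs * (β + 1) -
        lam / 4 / (D * D)) := by
      have h3 : (lam * b₁ : ℝ) * (s / 2) * (1 / 2) / (D * D) =
          s * b₁ * (lam / 4 / (D * D)) := by ring
      rw [h3] at hlogρ
      nlinarith [hgl, h1, hlogρ, hsum]
    have h3 : 0 ≤ (((Fintype.card W : ℝ) + 1) + β + Cs * (β + 1) - lam / 4 / (D * D) : ℝ) := by
      by_contra hneg
      push Not at hneg
      have := mul_neg_of_pos_of_neg (mul_pos hs0 hb1pos) hneg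
      linarith
    have h4 : ((Fintype.card W : ℝ) + 1) ≤ ((Fintype.card W : ℝ) + 1) * (β + 1) := by
      have h5 : (0 : ℝ) ≤ (Fintype.card W : ℝ) + 1 := by positivity
      nlinarith
    have h5 : (lam : ℝ) / 4 / (D * D) ≤
        (((Fintype.card W : ℝ) + 1) + 1 + Cs) * (β + 1) := by linarith
    rw [div_div, div_le_iff₀ (by positivity)] at h5
    linarith
  -- a relation
  obtain ⟨c, hc0, hc⟩ := van s (fun k (x : S') => Fn k x.1) hminor
  let P : ℕ → MvPolynomial W E := fun i =>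
    if hi : i < b + 1 then ∑ α : Fin h, c (idx.symm (⟨i, hi⟩, α)) • monomial (ex α) (1 : E) else 0
  have hPh : ∀ i, (P i).IsHomogeneous b₁ := by
    intro i
    simp only [P]
    split_ifs with hi
    · apply IsHomogeneous.sum
      intro α _
      rw [← mem_homogeneousSubmodule]
      exact Submodule.smul_mem _ _ ((mem_homogeneousSubmodule _ _).mpr
        (isHomogeneous_monomial _ (hex1 _)))
    · exact isHomogeneous_zero _ _ _
  have hsum : ∀ x, ∑ i ∈ Finset.range (b + 1), eval (a (g x)) (P i) *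
      a (F^[n] (g x)) w₀ ^ (b - i) * a (F^[n] (g x)) w₁ ^ i = ∑ k, c k * Fn k x := by
    intro x
    rw [Finset.sum_range, ← Equiv.sum_comp idx.symm, Fintype.sum_prod_type]
    apply Finset.sum_congr rfl
    intro i _
    simp only [P, i.2, dite_true, map_sum, Fn, Equiv.apply_symm_apply, smul_eval]
    rw [Finset.sum_mul, Finset.sum_mul]
    apply Finset.sum_congr rfl
    intro α _
    ring
  have hne : ∃ x, ∑ i ∈ Finset.range (b + 1), eval (a (g x)) (P i) *
      a (F^[n] (g x)) w₀ ^ (b - i) * a (F^[n] (g x)) w₁ ^ i ≠ 0 := by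
    by_contra hcon
    push Not at hcon
    have h1 := hind P hPh hcon
    apply hc0
    funext k
    have h2 := h1 (idx k).1 (Nat.lt_succ_iff.mp (idx k).1.2)
    have h3 : ∑ α : Fin h, c (idx.symm ((idx k).1, α)) •
        (fun x : Ω' => eval (a (g x)) (monomial (ex α) (1 : E))) = 0 := by
      funext x
      have h4 := h2 x
      simp only [P, (idx k).1.2, dite_true, map_sum, smul_eval] at h4
      simpa [Finset.sum_apply, Pi.smul_apply, smul_eq_mul] using h4
    have h5 := Fintype.linearIndependent_iff.mp hex2 _ h3 (idx k).2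
    simpa using h5
  obtain ⟨Φ, hΦ1, hΦ2, hΦ3⟩ := relf (fun x => a (g x)) ha (fun x => a (F^[n] (g x))) (e ^ n)
    (chart G n) (hchart.comp g) b₁ b w₀ w₁ P hPh hne
  refine ⟨Φ, hΦ1, hΦ2, fun x hx hxβ hxc => hΦ3 x ?_⟩
  rw [hsum x]
  exact hc ⟨x, hx, hxβ, hxc⟩

end Pool.Agent.Helper63.WH
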