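import Pool.Agent.Helper63.WH.CoreB
import Pool.Agent.Helper63.SAND.Indep
import Pool.Agent.Helper63.SAND.Primes

/-!
Core, part C: the uniform step. For a subvariety `Z` with a conductor of degree at most `Λ`,
either an iterate `f^n`, `n ~ log Λ`, is given on `Z` by forms of degree at most `ρ ^ n`, or the
points of `Z` of height at most `Λ` at which the heights of the iterates grow at a rate less than
`ρ` lie on a hypersurface of degree at most a power of `Λ` which does not contain `Z`.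
-/

open MvPolynomial Filter Topology

namespace Pool.Agent.Helper63.WH

open Pool.Agent.Helper90.KSC Pool.Agent.Helper63.SAND

variable {E : Type*} [Field E] [CharZero E] [Algebra.IsAlgebraic ℚ E]

/-- Polynomially bounded functions are bounded by powers. -/
theorem PB.le_pow {g : ℕ → ℝ} (hg : PB g) : ∃ k : ℕ, ∀ Λ : ℕ, 2 ≤ Λ → g Λ ≤ (Λ : ℝ) ^ k := by
  obtain ⟨k, hk⟩ := hg
  refine ⟨2 * k, fun Λ hΛ => (le_abs_self _).trans ((hk Λ).trans ?_)⟩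
  have h2 : (2 : ℝ) ≤ Λ := by exact_mod_cast hΛ
  rw [pow_mul]
  exact pow_le_pow_left₀ (by linarith) (by nlinarith) k

theorem log_two_half : (1 / 2 : ℝ) < Real.log 2 := by
  have := Real.log_two_gt_d9
  linarith

theorem step {Ω W T : Type*} [Fintype W] [Fintype T] (a : Ω → W → E)
    (ha0 : ∀ x, a x ≠ 0) (F : Ω → Ω) (e : ℕ)
    (G : T → W → MvPolynomial W E) (hG : LocF a (fun x => a (F x)) e G)
    (S : Set Ω) (D : ℕ) (hD : 1 ≤ D) (hSD : ∀ x ∈ S, FieldLE a G D x)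
    (r ρ Cs : ℝ) (hr : 1 ≤ r) (hρ : r < ρ) (hCs : 0 ≤ Cs)
    (hS : ∀ x ∈ S, ∀ n : ℕ, absHeight (a (F^[n] x)) ≤ Cs * r ^ n * (absHeight (a x) + 1))
    (C₁ : ℝ) :
    ∃ C : ℕ, ∀ Λ : ℕ, 2 ≤ Λ → ∀ Z : Set Ω, Z.Nonempty → PrimeH (fun x : Z => a x) →
      ∀ (c₀ : ℕ) (Θ : MvPolynomial W E), c₀ ≤ Λ → IsCond (fun x : Z => a x) c₀ Θ →
      (∃ n : ℕ, C₁ * Real.log Λ ≤ n ∧ (n : ℝ) ≤ C * Real.log Λ ∧ ∃ d : ℕ, (d : ℝ) ≤ ρ ^ n ∧
        RepF (fun x : Z => a x) (fun x : Z => a (F^[n] x)) d) ∨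
      ∃ (k : ℕ) (Φ : MvPolynomial W E), k ≤ Λ ^ C ∧ Φ.IsHomogeneous k ∧
        ¬ Van (fun x : Z => a x) Φ ∧
        ∀ x ∈ Z, x ∈ S → absHeight (a x) ≤ Λ → eval (a x) Φ = 0 := by
  classical
  -- constants
  obtain ⟨C₂, hC₂0, hC₂⟩ := agoodq (E := E) e G hG.1
  obtain ⟨p₀, hp₀⟩ := pint (E := E) ((Finset.univ : Finset (T × W)).biUnion
    fun q => (G q.1 q.2).support.image fun d => (G q.1 q.2).coeff d)
  have hGi : ∀ p : Nat.Primes, p₀ ≤ (p : ℕ) → ∀ τ : E →+* PadicAlgCl p, ∀ t w,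
      IntPoly (pAbs p τ) (G t w) := by
    intro p hp τ t w d
    by_cases hd : d ∈ (G t w).support
    · apply hp₀ p hp τ
      exact Finset.mem_biUnion.mpr ⟨(t, w), Finset.mem_univ _, Finset.mem_image.mpr ⟨d, hd, rfl⟩⟩
    · rw [notMem_support_iff.mp hd]
      simp
  obtain ⟨Cp, hCp⟩ := many_primes
  set m := Fintype.card W with hm
  -- the parameters
  obtain ⟨K₁, hK₁⟩ := exists_nat_gt (8 * ((D : ℝ) * D) * (((m : ℝ) + 1) + 1 + Cs))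
  have hD1 : (1 : ℝ) ≤ D := by exact_mod_cast hD
  have hK₁0 : (0 : ℝ) < K₁ := lt_of_le_of_lt (by positivity) hK₁
  have hK₁1 : 1 ≤ K₁ := by exact_mod_cast hK₁0
  let lam : ℕ → ℕ := fun Λ => K₁ * Λ
  let b : ℕ → ℕ := fun Λ => 2 * D * lam Λ ^ m
  have hPBlam : PB fun Λ => (lam Λ : ℝ) := by
    have h1 : (fun Λ => (lam Λ : ℝ)) = fun Λ : ℕ => (K₁ : ℝ) * Λ := by
      funext Λ
      simp only [lam]
      push_cast
      ring
    rw [h1]
    exact (PB.const _).mul PB.id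
  have hPBb : PB fun Λ => (b Λ : ℝ) := by
    have h1 : (fun Λ => (b Λ : ℝ)) = fun Λ : ℕ => (2 * D : ℝ) * (lam Λ : ℝ) ^ m := by
      funext Λ
      simp only [b]
      push_cast
      ring
    rw [h1]
    exact (PB.const _).mul (hPBlam.pow m)
  -- the iterate
  obtain ⟨k₀, hk₀⟩ : ∃ k₀ : ℕ, ∀ Λ : ℕ, 2 ≤ Λ → (m : ℝ) * ((b Λ : ℝ) + 1 + Λ) ≤ (Λ : ℝ) ^ k₀ :=
    PB.le_pow ((PB.const (m : ℝ)).mul ((hPBb.add (PB.const 1)).add PB.id))
  have hr0 : 0 < r := by linarith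
  have hρr : 1 < ρ / r := by rwa [one_lt_div hr0]
  have hlρ : 0 < Real.log (ρ / r) := Real.log_pos hρr
  obtain ⟨C₃, hC₃⟩ := exists_nat_gt (max C₁ ((k₀ + 1) / Real.log (ρ / r)))
  have hC₃1 : C₁ ≤ C₃ := ((le_max_left _ _).trans hC₃.le)
  have hC₃2 : (k₀ + 1 : ℝ) ≤ C₃ * Real.log (ρ / r) := by
    have := ((le_max_right _ _).trans hC₃.le)
    rwa [div_le_iff₀ hlρ] at this
  let N : ℕ → ℕ := fun Λ => ⌈(C₃ : ℝ) * Real.log Λ⌉₊
  have hN1 : ∀ Λ : ℕ, (C₃ : ℝ) * Real.log Λ ≤ N Λ := fun Λ => Nat.le_ceil _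
  have hlog : ∀ Λ : ℕ, 2 ≤ Λ → (1 / 2 : ℝ) ≤ Real.log Λ := by
    intro Λ hΛ
    have h1 : (2 : ℝ) ≤ Λ := by exact_mod_cast hΛ
    exact log_two_half.le.trans (Real.log_le_log (by norm_num) h1)
  have hN2 : ∀ Λ : ℕ, 2 ≤ Λ → (N Λ : ℝ) ≤ (C₃ + 2) * Real.log Λ := by
    intro Λ hΛ
    have h1 := hlog Λ hΛ
    have h2 : (N Λ : ℝ) < C₃ * Real.log Λ + 1 := Nat.ceil_lt_add_one (by positivity)
    nlinarith
  -- powers with exponent N
  have hPBpow : ∀ x : ℝ, 0 ≤ x → PB fun Λ => x ^ N Λ := by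
    intro x hx
    obtain ⟨E₀, hE₀⟩ := exists_nat_gt (max x 1)
    have hE1 : (1 : ℝ) ≤ E₀ := (le_max_right _ _).trans hE₀.le
    have hE2 : x ≤ E₀ := (le_max_left _ _).trans hE₀.le
    have hE3 : (0 : ℝ) < E₀ := by linarith
    obtain ⟨k, hk⟩ := exists_nat_gt ((C₃ + 2) * Real.log E₀)
    have h3 : PB fun Λ => ((Λ : ℝ) + 2) ^ k := (PB.id.add (PB.const 2)).pow k
    have h4 : PB fun Λ => (E₀ : ℝ) ^ (N 0 + N 1) * ((Λ : ℝ) + 2) ^ k := (PB.const _).mul h3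
    refine h4.mono fun Λ => ?_
    have hb2 : (1 : ℝ) ≤ ((Λ : ℝ) + 2) ^ k := one_le_pow₀ (PB.base1 Λ)
    have hb3 : (1 : ℝ) ≤ (E₀ : ℝ) ^ (N 0 + N 1) := one_le_pow₀ hE1
    rw [abs_of_nonneg (by positivity), abs_of_nonneg (by positivity)]
    have h5 : x ^ N Λ ≤ (E₀ : ℝ) ^ N Λ := pow_le_pow_left₀ hx hE2 _
    rcases Nat.lt_or_ge Λ 2 with hΛ | hΛ
    · have h6 : N Λ ≤ N 0 + N 1 := by
        interval_cases Λ
        · omega
        · omega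
      calc x ^ N Λ ≤ (E₀ : ℝ) ^ N Λ := h5
        _ ≤ (E₀ : ℝ) ^ (N 0 + N 1) := pow_le_pow_right₀ hE1 h6
        _ ≤ (E₀ : ℝ) ^ (N 0 + N 1) * ((Λ : ℝ) + 2) ^ k := by nlinarith
    · have hΛ0 : (0 : ℝ) < Λ := by
        have : 0 < Λ := by omega
        exact_mod_cast this
      have h6 : (E₀ : ℝ) ^ N Λ ≤ (Λ : ℝ) ^ k := by
        have h7 : (E₀ : ℝ) ^ N Λ = Real.exp (N Λ * Real.log E₀) := by
          rw [Real.exp_nat_mul, Real.exp_log hE3]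
        have h8 : (Λ : ℝ) ^ k = Real.exp (k * Real.log Λ) := by
          rw [Real.exp_nat_mul, Real.exp_log hΛ0]
        rw [h7, h8, Real.exp_le_exp]
        have h9 := hN2 Λ hΛ
        have h10 : 0 ≤ Real.log E₀ := Real.log_nonneg hE1
        have h11 : 0 ≤ Real.log Λ := (by norm_num : (0 : ℝ) ≤ 1 / 2).trans (hlog Λ hΛ)
        calc (N Λ : ℝ) * Real.log E₀ ≤ ((C₃ + 2) * Real.log Λ) * Real.log E₀ :=
              mul_le_mul_of_nonneg_right h9 h10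
          _ = ((C₃ + 2) * Real.log E₀) * Real.log Λ := by ring
          _ ≤ k * Real.log Λ := mul_le_mul_of_nonneg_right hk.le h11
      have h7 : (Λ : ℝ) ^ k ≤ ((Λ : ℝ) + 2) ^ k :=
        pow_le_pow_left₀ hΛ0.le (by linarith) k
      nlinarith
  let b₁ : ℕ → ℕ := fun Λ => ⌈(b Λ : ℝ) * r ^ N Λ⌉₊
  let Hn : ℕ → ℝ := fun Λ => Cs * r ^ N Λ * (Λ + 1)
  let A : ℕ → ℕ := fun Λ => ⌈2 * N Λ * ((D : ℝ) ^ 2 * (C₂ + e * Hn Λ))⌉₊ + 1
  let pm : ℕ → ℕ := fun Λ => Cp * (A Λ + p₀ + 1) ^ 2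
  let nc : ℕ → ℕ := fun Λ => (pm Λ + 1) * (m * ((D * pm Λ ^ D) ^ m *
    Fintype.card T ^ N Λ)) ^ D
  let Dg : ℕ → ℕ := fun Λ => nc Λ * (b₁ Λ + b Λ * e ^ N Λ)
  have hPBr : PB fun Λ => r ^ N Λ := hPBpow r hr0.le
  have hPBe : PB fun Λ => (e : ℝ) ^ N Λ := hPBpow e (Nat.cast_nonneg _)
  have hPBT : PB fun Λ => (Fintype.card T : ℝ) ^ N Λ := hPBpow _ (Nat.cast_nonneg _)
  have hPBN : PB fun Λ => (N Λ : ℝ) := by
    refine (hPBpow 2 (by norm_num)).mono fun Λ => ?_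
    rw [abs_of_nonneg (by positivity), abs_of_nonneg (by positivity)]
    have h1 : N Λ ≤ 2 ^ N Λ := (Nat.lt_two_pow_self).le
    exact_mod_cast h1
  have hPBb₁ : PB fun Λ => (b₁ Λ : ℝ) := (hPBb.mul hPBr).nat_ceil
  have hPBH : PB Hn := ((PB.const Cs).mul hPBr).mul (PB.id.add (PB.const 1))
  have hPBA : PB fun Λ => (A Λ : ℝ) := by
    have h1 : (fun Λ => (A Λ : ℝ)) = fun Λ : ℕ =>
        ((⌈2 * N Λ * ((D : ℝ) ^ 2 * (C₂ + e * Hn Λ))⌉₊ : ℕ) : ℝ) + 1 := by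
      funext Λ
      simp only [A]
      push_cast
      ring
    rw [h1]
    exact ((((PB.const 2).mul hPBN).mul ((PB.const _).mul ((PB.const C₂).add
      ((PB.const (e : ℝ)).mul hPBH)))).nat_ceil).add (PB.const 1)
  have hPBpm : PB fun Λ => (pm Λ : ℝ) := by
    have h1 : (fun Λ => (pm Λ : ℝ)) = fun Λ : ℕ => (Cp : ℝ) * ((A Λ : ℝ) + p₀ + 1) ^ 2 := by
      funext Λ
      simp only [pm]
      push_cast
      ring
    rw [h1]
    exact (PB.const _).mul (((hPBA.add (PB.const _)).add (PB.const 1)).pow 2)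
  have hPBnc : PB fun Λ => (nc Λ : ℝ) := by
    have h1 : (fun Λ => (nc Λ : ℝ)) = fun Λ : ℕ => ((pm Λ : ℝ) + 1) *
        ((m : ℝ) * (((D : ℝ) * (pm Λ : ℝ) ^ D) ^ m * (Fintype.card T : ℝ) ^ N Λ)) ^ D := by
      funext Λ
      simp only [nc]
      push_cast
      ring
    rw [h1]
    exact (hPBpm.add (PB.const 1)).mul (((PB.const _).mul
      ((((PB.const _).mul (hPBpm.pow _)).pow _).mul hPBT)).pow _)
  have hPBD : PB fun Λ => (Dg Λ : ℝ) := by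
    have h1 : (fun Λ => (Dg Λ : ℝ)) = fun Λ : ℕ => (nc Λ : ℝ) *
        ((b₁ Λ : ℝ) + (b Λ : ℝ) * (e : ℝ) ^ N Λ) := by
      funext Λ
      simp only [Dg]
      push_cast
      ring
    rw [h1]
    exact hPBnc.mul (hPBb₁.add (hPBb.mul hPBe))
  obtain ⟨kD, hkD⟩ := PB.le_pow hPBD
  refine ⟨max (C₃ + 2) kD, fun Λ hΛ Z hZ ha c₀ Θ hc₀ hΘ => ?_⟩
  have hΛ1 : (1 : ℝ) ≤ Λ := by
    have : 1 ≤ Λ := by omega
    exact_mod_cast this
  have hlogΛ : 0 ≤ Real.log Λ := (by norm_num : (0 : ℝ) ≤ 1 / 2).trans (hlog Λ hΛ)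
  by_cases hslow : ∃ d : ℕ, (d : ℝ) ≤ ρ ^ N Λ ∧
      RepF (fun x : Z => a x) (fun x : Z => a (F^[N Λ] x)) d
  · left
    refine ⟨N Λ, ?_, ?_, hslow⟩
    · exact (mul_le_mul_of_nonneg_right hC₃1 hlogΛ).trans (hN1 Λ)
    · refine (hN2 Λ hΛ).trans (mul_le_mul_of_nonneg_right ?_ hlogΛ)
      have : C₃ + 2 ≤ max (C₃ + 2) kD := le_max_left _ _
      exact_mod_cast this
  right
  have : Nonempty Z := hZ.to_subtype
  -- the iterate is not given by forms of small degree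
  have hno : ¬ RepF (fun x : Z => a x) (fun x : Z => a (F^[N Λ] x)) (m * (b₁ Λ + c₀)) := by
    intro h
    apply hslow
    refine ⟨_, ?_, h⟩
    have hrN : (1 : ℝ) ≤ r ^ N Λ := one_le_pow₀ hr
    have h1 : (b₁ Λ : ℝ) < b Λ * r ^ N Λ + 1 := Nat.ceil_lt_add_one (by positivity)
    have h2 : (c₀ : ℝ) ≤ Λ := by exact_mod_cast hc₀
    have h3 : ((m * (b₁ Λ + c₀) : ℕ) : ℝ) ≤ m * ((b Λ : ℝ) + 1 + Λ) * r ^ N Λ := by
      push_cast
      rw [mul_assoc]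
      apply mul_le_mul_of_nonneg_left _ (Nat.cast_nonneg m)
      have h4 : (Λ : ℝ) ≤ Λ * r ^ N Λ := by nlinarith
      nlinarith
    have h4 : (Λ : ℝ) ^ k₀ ≤ (ρ / r) ^ N Λ := by
      have hΛ0 : (0 : ℝ) < Λ := by linarith
      have h5 : (Λ : ℝ) ^ k₀ = Real.exp (k₀ * Real.log Λ) := by
        rw [Real.exp_nat_mul, Real.exp_log hΛ0]
      have h6 : (ρ / r) ^ N Λ = Real.exp (N Λ * Real.log (ρ / r)) := by
        rw [Real.exp_nat_mul, Real.exp_log (by linarith)]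
      rw [h5, h6, Real.exp_le_exp]
      calc (k₀ : ℝ) * Real.log Λ ≤ (C₃ * Real.log (ρ / r)) * Real.log Λ := by
            apply mul_le_mul_of_nonneg_right _ hlogΛ
            linarith
        _ = (C₃ * Real.log Λ) * Real.log (ρ / r) := by ring
        _ ≤ N Λ * Real.log (ρ / r) := mul_le_mul_of_nonneg_right (hN1 Λ) hlρ.le
    calc ((m * (b₁ Λ + c₀) : ℕ) : ℝ) ≤ m * ((b Λ : ℝ) + 1 + Λ) * r ^ N Λ := h3
      _ ≤ (ρ / r) ^ N Λ * r ^ N Λ := by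
        apply mul_le_mul_of_nonneg_right _ (by positivity)
        exact (hk₀ Λ hΛ).trans h4
      _ = ρ ^ N Λ := by
        rw [← mul_pow, div_mul_cancel₀ _ hr0.ne']
  obtain ⟨w₀, w₁, hind⟩ := indep (fun x : Z => a x) ha c₀ Θ hΘ
    (fun x : Z => a (F^[N Λ] x)) (fun x => ha0 _) (e ^ N Λ) (chart G (N Λ))
    ((chart_locF a ha0 F e G hG (N Λ)).comp (fun x : Z => (x : Ω))) (b₁ Λ) (b Λ) hno
  -- primes
  obtain ⟨P, hP1, hP2⟩ := hCp (A Λ) p₀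
  let emb : {p // p ∈ P} ↪ Nat.Primes := ⟨fun p => ⟨p.1, (hP1 p.1 p.2).1⟩,
    fun p q h => Subtype.ext (congrArg (fun z : Nat.Primes => (z : ℕ)) h)⟩
  let Pp : Finset Nat.Primes := P.attach.map emb
  have hPp : ∀ p ∈ Pp, (p : ℕ) ∈ P := by
    intro p hp
    obtain ⟨q, _, hq⟩ := Finset.mem_map.mp hp
    rw [← hq]
    exact q.2
  have hPpc : Pp.card = P.card := by
    simp only [Pp, Finset.card_map, Finset.card_attach]
  have hred : ∀ p : Pp, ∃ red : PadicAlgCl (p : Nat.Primes) → Fin (D * ((p : Nat.Primes) : ℕ) ^ D),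
      ∀ z z' : PadicAlgCl (p : Nat.Primes),
      (minpoly ℚ_[(p : Nat.Primes)] z).natDegree ≤ D →
      (minpoly ℚ_[(p : Nat.Primes)] z').natDegree ≤ D → ‖z‖ ≤ 1 →
        ‖z'‖ ≤ 1 → red z = red z' → ‖z - z'‖ < 1 := fun p => padic_red p D hD
  choose red hred using hred
  have hlamΛ : 4 * ((D : ℝ) * D) * (((Fintype.card W : ℝ) + 1) + 1 + Cs) * ((Λ : ℝ) + 1) <
      lam Λ := by
    simp only [lam]
    push_cast
    have h1 : (Λ : ℝ) + 1 ≤ 2 * Λ := by linarith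
    have h2 : (0 : ℝ) ≤ 4 * ((D : ℝ) * D) * (((m : ℝ) + 1) + 1 + Cs) := by positivity
    calc 4 * ((D : ℝ) * D) * (((m : ℝ) + 1) + 1 + Cs) * ((Λ : ℝ) + 1) ≤
          4 * ((D : ℝ) * D) * (((m : ℝ) + 1) + 1 + Cs) * (2 * Λ) :=
          mul_le_mul_of_nonneg_left h1 h2
      _ = (8 * ((D : ℝ) * D) * (((m : ℝ) + 1) + 1 + Cs)) * Λ := by ring
      _ < K₁ * Λ := mul_lt_mul_of_pos_right hK₁ (by linarith)
  have hcls : ∀ q : (Σ p : Pp, Fin D → W × (W → Fin (D * ((p : Nat.Primes) : ℕ) ^ D)) ×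
      (Fin (N Λ) → T)),
      ∃ Φ : MvPolynomial W E, Φ.IsHomogeneous (b₁ Λ + b Λ * e ^ N Λ) ∧
        ¬ Van (fun x : Z => a x) Φ ∧ ∀ x : Z, (x : Ω) ∈ S → absHeight (a x) ≤ Λ →
          InClasses a F e G (N Λ) q.1 (red q.1) q.2 (x : Ω) → eval (a x) Φ = 0 := by
    intro q
    obtain ⟨h1, h2, h3⟩ := hP1 q.1 (hPp _ q.1.2)
    exact oneclass a ha0 F e G hG (fun x : Z => (x : Ω)) ha S r Cs hr hCs hS D hD hSD q.1
      (hGi q.1 h2) (red q.1) (hred q.1) Λ (lam Λ) (N Λ) (b Λ) (b₁ Λ)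
      hlamΛ rfl (Nat.le_ceil _) w₀ w₁ hind q.2
  choose Φ hΦ1 hΦ2 hΦ3 using hcls
  obtain ⟨h1, h2⟩ := prod_forms (fun x : Z => a x) ha (b₁ Λ + b Λ * e ^ N Λ) Φ hΦ1 hΦ2
  refine ⟨_, ∏ q, Φ q, ?_, h1, h2, ?_⟩
  · -- the degree
    have h3 : Fintype.card (Σ p : Pp, Fin D → W × (W → Fin (D * ((p : Nat.Primes) : ℕ) ^ D)) ×
        (Fin (N Λ) → T)) ≤ nc Λ := by
      rw [Fintype.card_sigma]
      have h4 : ∀ p ∈ (Finset.univ : Finset Pp), Fintype.card (Fin D → W × (W → Fin (D *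
          ((p : Nat.Primes) : ℕ) ^ D)) × (Fin (N Λ) → T)) ≤
          (m * ((D * pm Λ ^ D) ^ m * Fintype.card T ^ N Λ)) ^ D := by
        intro p _
        simp only [Fintype.card_prod, Fintype.card_fun, Fintype.card_fin]
        apply Nat.pow_le_pow_left
        apply Nat.mul_le_mul le_rfl
        apply Nat.mul_le_mul _ le_rfl
        apply Nat.pow_le_pow_left
        apply Nat.mul_le_mul le_rfl
        exact Nat.pow_le_pow_left (hP1 p (hPp _ p.2)).2.2 _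
      refine (Finset.sum_le_sum h4).trans ?_
      rw [Finset.sum_const, Finset.card_univ, Fintype.card_coe, smul_eq_mul, hPpc]
      apply Nat.mul_le_mul _ le_rfl
      have h5 : P ⊆ Finset.range (pm Λ + 1) := fun p hp =>
        Finset.mem_range.mpr (Nat.lt_succ_of_le (hP1 p hp).2.2)
      simpa using Finset.card_le_card h5
    have h6 := Nat.mul_le_mul_right (b₁ Λ + b Λ * e ^ N Λ) h3
    refine h6.trans ?_
    have h7 := hkD Λ hΛ
    have h8 : Dg Λ ≤ Λ ^ kD := by exact_mod_cast h7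
    refine h8.trans ?_
    exact Nat.pow_le_pow_right (by omega) (le_max_right _ _)
  · intro x hxZ hx hxΛ
    obtain ⟨Lx, hLx, hLxD, hGLx, hOx⟩ := hSD x hx
    have hN : ∀ i < N Λ, absHeight (a (F^[i] x)) ≤ Hn Λ := by
      intro i hi
      refine (hS x hx i).trans ?_
      simp only [Hn]
      have h3 : r ^ i ≤ r ^ N Λ := pow_le_pow_right₀ hr hi.le
      apply mul_le_mul
      · exact mul_le_mul_of_nonneg_left h3 hCs
      · linarith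
      · have := absHeight_nonneg (a x)
        linarith
      · positivity
    have hcard : (N Λ : ℝ) * ((D : ℝ) ^ 2 * (C₂ + e * Hn Λ)) < Pp.card * Real.log 2 := by
      rw [hPpc]
      have h3 : 2 * N Λ * ((D : ℝ) ^ 2 * (C₂ + e * Hn Λ)) < A Λ := by
        have h4 := Nat.le_ceil (2 * N Λ * ((D : ℝ) ^ 2 * (C₂ + e * Hn Λ)) : ℝ)
        simp only [A]
        push_cast
        linarith
      have h4 : (A Λ : ℝ) ≤ P.card := by exact_mod_cast hP2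
      have h5 := log_two_half
      have h6 : (0 : ℝ) ≤ P.card := Nat.cast_nonneg _
      nlinarith
    obtain ⟨p, hp, hgood⟩ := exists_good a ha0 F e G hG C₂ hC₂ Pp
      (fun p hp => hGi p (hP1 p (hPp p hp)).2.1) Lx D hLxD hGLx x hOx (N Λ) (Hn Λ) hN hcard
    obtain ⟨γ, hγ⟩ := exists_classes Lx D hLxD a ha0 F e G hG hGLx x hOx (N Λ) p
      (red ⟨p, hp⟩) hgood
    have h3 : eval (a x) (Φ ⟨⟨p, hp⟩, γ⟩) = 0 := hΦ3 ⟨⟨p, hp⟩, γ⟩ ⟨x, hxZ⟩ hx hxΛ hγ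
    rw [map_prod]
    exact Finset.prod_eq_zero (Finset.mem_univ _) h3

end Pool.Agent.Helper63.WH
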