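import Pool.Agent.Helper63.SAND.Defs

/-!
Absolute heights of points over an algebraic extension of `ℚ`.
-/

open MvPolynomial Filter Topology
open scoped LinearAlgebra.Projectivization

namespace Pool.Agent.Helper63.WH

open Pool.Agent.Helper90.KSC Pool.Agent.Helper63.SAND

section Height

variable {E : Type*} [Field E] [CharZero E]

/-- The field generated over `ℚ` by the coordinates of `x`. -/
abbrev fld {σ : Type*} (x : σ → E) : IntermediateField ℚ E :=
  IntermediateField.adjoin ℚ (Set.range x)

open Classical in
/-- The absolute logarithmic height of the point of projective space with the homogeneous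
coordinates `x`: the logarithmic height over the number field generated by the coordinates,
divided by the degree of this field. -/
noncomputable def absHeight {σ : Type*} (x : σ → E) : ℝ :=
  if h : FiniteDimensional ℚ (fld x) then
    haveI : NumberField (fld x) := { to_charZero := inferInstance, to_finiteDimensional := h }
    Height.logHeight
      (fun i => (⟨x i, IntermediateField.subset_adjoin ℚ _ ⟨i, rfl⟩⟩ : fld x)) /
        Module.finrank ℚ (fld x)
  else 0

instance factPrime (p : Nat.Primes) : Fact (p : ℕ).Prime := ⟨p.2⟩

/-- The `p`-adic absolute value on `E` given by an embedding into an algebraic closure of the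
field of `p`-adic numbers. -/
noncomputable def pAbs (p : Nat.Primes) (τ : E →+* PadicAlgCl p) : AbsoluteValue E ℝ where
  toFun z := ‖τ z‖
  map_mul' a b := by rw [map_mul, norm_mul]
  nonneg' a := norm_nonneg _
  eq_zero' a := by rw [norm_eq_zero, map_eq_zero]
  add_le' a b := by
    rw [map_add]
    exact norm_add_le _ _

theorem pAbs_apply (p : Nat.Primes) (τ : E →+* PadicAlgCl p) (z : E) : pAbs p τ z = ‖τ z‖ := rfl

theorem pAbs_nonarch (p : Nat.Primes) (τ : E →+* PadicAlgCl p) :
    IsNonarchimedean (pAbs p τ) := by
  intro a b
  change ‖τ (a + b)‖ ≤ max ‖τ a‖ ‖τ b‖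
  rw [map_add]
  exact PadicAlgCl.isNonarchimedean p (τ a) (τ b)

/-- The height of a nonzero vector over a number field in terms of all the embeddings into the
algebraic closures of the `p`-adic numbers and into the complex numbers. -/
noncomputable def embHeight {L : Type*} [Field L] [NumberField L] {κ : Type*} (z : κ → L) : ℝ :=
  (∑ᶠ p : Nat.Primes, ∑ τ : L →+* PadicAlgCl p, Real.log (⨆ i, ‖τ (z i)‖)) +
    ∑ s : L →+* ℂ, Real.log (⨆ i, ‖s (z i)‖)

/-- The vector `z` is proportional to a vector with coordinates in `L`. -/
def OverF {W : Type*} (L : IntermediateField ℚ E) (z : W → E) : Prop :=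
  ∃ c : E, c ≠ 0 ∧ ∀ w, c * z w ∈ L

end Height

section Points

variable {E : Type*} [Field E] [CharZero E] {ι : Type*} [Fintype ι] {N : ι → ℕ}

/-- The absolute logarithmic height of a point of the product of projective spaces, with respect
to `O(1, ..., 1)`. -/
noncomputable def absTotal (x : PPt E N) : ℝ := ∑ i, absHeight (x i).rep

/-- The arithmetic degree of `f` at `x` exists and is equal to `a`. -/
def AbsArithDegree (f : PPt E N → PPt E N) (x : PPt E N) (a : ℝ) : Prop :=
  Tendsto (fun n : ℕ => (max (absTotal (f^[n] x)) 1) ^ ((1 : ℝ) / n)) atTop (𝓝 a)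

/-- The point `x` is defined over a number field of degree at most `D`. -/
def DegLE (D : ℕ) (x : PPt E N) : Prop :=
  ∃ L : IntermediateField ℚ E, FiniteDimensional ℚ L ∧ Module.finrank ℚ L ≤ D ∧
    ∀ i, ∃ c : E, c ≠ 0 ∧ ∀ j, c * (x i).rep j ∈ L

end Points

end Pool.Agent.Helper63.WH
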