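import Pool.Agent.Helper63.WH.Defs
import Pool.Agent.Helper63.WH.Br

/-!
Absolute heights do not depend on the field.
-/

open MvPolynomial Filter Topology
open scoped LinearAlgebra.Projectivization

namespace Pool.Agent.Helper63.WH

open Pool.Agent.Helper90.KSC Pool.Agent.Helper63.SAND

private theorem ext_card {L M F : Type*} [Field L] [NumberField L] [Field M] [NumberField M]
    [Field F] [CharZero F] [IsAlgClosed F] (ψ : L →+* M) (σ : L →+* F) :
    ((Nat.card {τ : M →+* F // τ.comp ψ = σ} : ℕ) : ℝ) =
      (Module.finrank ℚ M / Module.finrank ℚ L : ℝ) := by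
  letI a1 : Algebra L M := ψ.toAlgebra
  letI a2 : Algebra L F := σ.toAlgebra
  haveI t1 : IsScalarTower ℚ L M := IsScalarTower.of_algebraMap_eq' (Subsingleton.elim _ _)
  haveI f1 : FiniteDimensional L M := Module.Finite.of_restrictScalars_finite ℚ L M
  have e : {τ : M →+* F // τ.comp ψ = σ} ≃ (M →ₐ[L] F) :=
    { toFun := fun τ => { τ.1 with
        commutes' := fun r => by
          have := RingHom.congr_fun τ.2 r
          exact this }
      invFun := fun τ => ⟨τ.toRingHom, RingHom.ext fun r => τ.commutes r⟩
      left_inv := fun τ => by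
        apply Subtype.ext
        apply RingHom.ext
        intro x
        rfl
      right_inv := fun τ => by
        apply AlgHom.ext
        intro x
        rfl }
  rw [Nat.card_congr e, Nat.card_eq_fintype_card, AlgHom.card]
  rw [← Module.finrank_mul_finrank ℚ L M]
  have h0 : (Module.finrank ℚ L : ℝ) ≠ 0 := by
    have := Module.finrank_pos (R := ℚ) (M := L)
    positivity
  push_cast
  field_simp

theorem sum_ext {L M F : Type*} [Field L] [NumberField L] [Field M] [NumberField M] [Field F]
    [CharZero F] [IsAlgClosed F] (ψ : L →+* M) (g : (L →+* F) → ℝ) :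
    ∑ τ : M →+* F, g (τ.comp ψ) =
      (Module.finrank ℚ M / Module.finrank ℚ L : ℝ) * ∑ τ : L →+* F, g τ := by
  classical
  rw [← Finset.sum_fiberwise (s := Finset.univ) (g := fun τ : M →+* F => τ.comp ψ)
    (f := fun τ : M →+* F => g (τ.comp ψ)), Finset.mul_sum]
  refine Finset.sum_congr rfl fun σ _ => ?_
  have h1 : ∀ τ ∈ Finset.univ.filter (fun τ : M →+* F => τ.comp ψ = σ),
      g (τ.comp ψ) = g σ := fun τ hτ => by rw [(Finset.mem_filter.1 hτ).2]
  rw [Finset.sum_congr rfl h1, Finset.sum_const, nsmul_eq_mul, ← ext_card ψ σ,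
    Nat.card_eq_fintype_card, Fintype.card_subtype]

theorem absHeight_eq {E : Type*} [Field E] [CharZero E] {L : Type*} [Field L] [NumberField L]
    (φ : L →+* E) {κ : Type*} [Finite κ] (z : κ → L) (hz : z ≠ 0) :
    absHeight (fun i => φ (z i)) = Height.logHeight z / Module.finrank ℚ L := by
  classical
  have hint : ∀ x ∈ Set.range (fun i => φ (z i)), IsIntegral ℚ x := by
    rintro x ⟨i, rfl⟩
    exact (Algebra.IsIntegral.isIntegral (R := ℚ) (z i)).map φ.toRatAlgHom
  haveI hfd : FiniteDimensional ℚ (fld (fun i => φ (z i))) :=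
    IntermediateField.finiteDimensional_adjoin hint
  unfold absHeight
  rw [dif_pos hfd]
  haveI hnf : NumberField (fld (fun i => φ (z i))) :=
    { to_charZero := inferInstance, to_finiteDimensional := hfd }
  set y : κ → fld (fun i => φ (z i)) :=
    fun i => ⟨φ (z i), IntermediateField.subset_adjoin ℚ _ ⟨i, rfl⟩⟩ with hy
  have hle : fld (fun i => φ (z i)) ≤ φ.toRatAlgHom.fieldRange := by
    rw [fld, IntermediateField.adjoin_le_iff]
    rintro x ⟨i, rfl⟩
    exact ⟨z i, rfl⟩
  let eq := AlgEquiv.ofInjectiveField φ.toRatAlgHom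
  let ψ : fld (fun i => φ (z i)) →+* L :=
    (eq.symm.toRingEquiv.toRingHom).comp (IntermediateField.inclusion hle).toRingHom
  have hψ : ∀ a : fld (fun i => φ (z i)), φ (ψ a) = a := by
    intro a
    have h1 := AlgEquiv.apply_symm_apply eq (IntermediateField.inclusion hle a)
    exact congrArg Subtype.val h1
  have hψy : ∀ i, ψ (y i) = z i := fun i => φ.injective (hψ (y i))
  have hy0 : y ≠ 0 := by
    intro h
    apply hz
    funext i
    rw [← hψy i, h]
    exact map_zero ψ
  rw [logHeight_eq_emb y hy0, logHeight_eq_emb z hz]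
  have hr : embHeight z = (Module.finrank ℚ L / Module.finrank ℚ (fld (fun i => φ (z i))) : ℝ) *
      embHeight y := by
    unfold embHeight
    rw [mul_add]
    congr 1
    · rw [← smul_eq_mul, smul_finsum]
      refine finsum_congr fun p => ?_
      rw [smul_eq_mul, ← sum_ext ψ]
      refine Finset.sum_congr rfl fun τ _ => ?_
      simp only [RingHom.comp_apply, hψy]
    · rw [← sum_ext ψ]
      refine Finset.sum_congr rfl fun τ _ => ?_
      simp only [RingHom.comp_apply, hψy]
  rw [hr]
  have h0 : (Module.finrank ℚ L : ℝ) ≠ 0 := by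
    have := Module.finrank_pos (R := ℚ) (M := L)
    positivity
  have h1 : (Module.finrank ℚ (fld (fun i => φ (z i))) : ℝ) ≠ 0 := by
    have := Module.finrank_pos (R := ℚ) (M := fld (fun i => φ (z i)))
    positivity
  field_simp

end Pool.Agent.Helper63.WH
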